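import Mathlib

/-!
# JOB P/CostA: an injective order compatible with the labels; argmax on intervals

PROOF of `exists_ord`. Put `ord k = #{j < ℓ : f j < f k ∨ (f j = f k ∧ j < k)}` (a `Finset.card` of a
filter of `range ℓ`). The relation `j ≺ k :⟺ f j < f k ∨ (f j = f k ∧ j < k)` is a strict linear
order; `j ≺ k`, `j < ℓ` imply `{i ≺ j} ⊂ {i ≺ k}` strictly (`j` belongs to the second set only), so
`ord j < ord k`. Injectivity on `Iio ℓ` follows from totality.

PROOF of `exists_argmax`. `Finset.exists_max_image (Ico a b) ord`.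
-/

open Finset

namespace RST.P

private theorem CostA_key (f : ℕ → ℝ) (ℓ : ℕ) (j : ℕ) (hj : j < ℓ) (k : ℕ)
    (hjk : f j < f k ∨ (f j = f k ∧ j < k)) :
    (open Classical in (range ℓ).filter fun i => f i < f j ∨ (f i = f j ∧ i < j)).card <
      (open Classical in (range ℓ).filter fun i => f i < f k ∨ (f i = f k ∧ i < k)).card := by
  classical
  apply Finset.card_lt_card
  rw [Finset.ssubset_iff_of_subset]
  · refine ⟨j, ?_, ?_⟩
    · simp only [mem_filter, mem_range]
      exact ⟨hj, hjk⟩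
    · simp
  · intro i hi
    simp only [mem_filter, mem_range] at hi ⊢
    refine ⟨hi.1, ?_⟩
    rcases hi.2 with h1 | ⟨h1, h2⟩ <;> rcases hjk with h3 | ⟨h3, h4⟩
    · left; linarith
    · left; linarith
    · left; linarith
    · right; exact ⟨h1.trans h3, by omega⟩

theorem exists_ord (f : ℕ → ℝ) (ℓ : ℕ) : ∃ ord : ℕ → ℕ, Set.InjOn ord (Set.Iio ℓ) ∧
    ∀ j < ℓ, ∀ k < ℓ, f j < f k → ord j < ord k := by
  classical
  refine ⟨fun k => ((range ℓ).filter fun i => f i < f k ∨ (f i = f k ∧ i < k)).card, ?_, ?_⟩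
  · intro j hj k hk e
    simp only [Set.mem_Iio] at hj hk
    have e' : ((range ℓ).filter fun i => f i < f j ∨ (f i = f j ∧ i < j)).card =
        ((range ℓ).filter fun i => f i < f k ∨ (f i = f k ∧ i < k)).card := e
    have key1 := CostA_key f ℓ j hj k
    have key2 := CostA_key f ℓ k hk j
    rcases lt_trichotomy (f j) (f k) with h | h | h
    · have h5 := key1 (Or.inl h)
      simp only [e', lt_self_iff_false] at h5
    · rcases lt_trichotomy j k with h' | h' | h'
      · have h5 := key1 (Or.inr ⟨h, h'⟩)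
        simp only [e', lt_self_iff_false] at h5
      · exact h'
      · have h5 := key2 (Or.inr ⟨h.symm, h'⟩)
        simp only [e', lt_self_iff_false] at h5
    · have h5 := key2 (Or.inl h)
      simp only [e', lt_self_iff_false] at h5
  · intro j hj k _ h
    exact CostA_key f ℓ j hj k (Or.inl h)

theorem exists_argmax (ord : ℕ → ℕ) (ℓ : ℕ) (hord : Set.InjOn ord (Set.Iio ℓ)) (a b : ℕ)
    (hab : a < b) (hb : b ≤ ℓ) : ∃ k, a ≤ k ∧ k < b ∧ ∀ j, a ≤ j → j < b → j ≠ k → ord j < ord k := by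
  obtain ⟨k, hk, hmax⟩ := Finset.exists_max_image (Ico a b) ord (Finset.nonempty_Ico.2 hab)
  rw [Finset.mem_Ico] at hk
  refine ⟨k, hk.1, hk.2, fun j h1 h2 hne => ?_⟩
  refine lt_of_le_of_ne (hmax j (Finset.mem_Ico.2 ⟨h1, h2⟩)) fun e => hne ?_
  exact hord (Set.mem_Iio.2 (by omega)) (Set.mem_Iio.2 (by omega)) e

end RST.P
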