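import Pool.Agent.Lib.MP_7946c7_pr.DefsW
import Pool.Agent.Lib.MP_7946c7_pr.H.HDefs
import Pool.Agent.Lib.MP_7946c7_pr.Params

/-!
# Stream P: definitions

A family of nested graphs `Rels`: `m = G(-h)`, `A = G(A h)`, `y i = G(x_i)`, `z i = G(1.1 x_i)`
where `x_i = XS n h i`, `0 ≤ i ≤ J`. In the notes the depth levels are `-1, 0, …, J`; here they are
`0, 1, …, J` (shift by one; `x_0` here is `x_{-1}` of the notes).
-/

open Finset

namespace RST.P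

/-- Nested graphs. -/
structure Rels (V : Type) where
  m : V → V → Prop
  A : V → V → Prop
  y : ℕ → V → V → Prop
  z : ℕ → V → V → Prop

/-- Compatibility. -/
structure Rels.Ok {V : Type} (ρ : Rels V) (J : ℕ) : Prop where
  sm : ∀ u v, ρ.m u v → ρ.m v u
  sA : ∀ u v, ρ.A u v → ρ.A v u
  sy : ∀ i ≤ J, ∀ u v, ρ.y i u v → ρ.y i v u
  sz : ∀ i ≤ J, ∀ u v, ρ.z i u v → ρ.z i v u
  my : ∀ i ≤ J, ∀ u v, ρ.m u v → ρ.y i u v
  yy : ∀ i j, i ≤ j → j ≤ J → ∀ u v, ρ.y i u v → ρ.y j u v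

/-- The family given by labels. -/
noncomputable def relsL {V : Type} (n : ℕ) (h : ℝ) (J : ℕ) (lab : Sym2 V → ℝ) : Rels V where
  m := gr lab (-h)
  A := gr lab (C1 * Real.log n * h)
  y i := gr lab (XS n h (min i J))
  z i := gr lab (11 / 10 * XS n h (min i J))

/-- Sets of bins. -/
structure BinS (B : Type) where
  m : Finset B
  A : Finset B
  y : ℕ → Finset B
  z : ℕ → Finset B

/-- The family given by bins. -/
def relsB {V B : Type} (S : BinS B) (b : Sym2 V → B) : Rels V where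
  m := adj S.m b
  A := adj S.A b
  y i := adj (S.y i) b
  z i := adj (S.z i) b

/-- Compatibility of the bins and their probabilities. -/
structure BinS.Ok {B : Type} [Fintype B] (S : BinS B) (q : B → ℝ) (n : ℕ) (h : ℝ) (J : ℕ) :
    Prop where
  law : IsLaw q
  mA : S.m ⊆ S.A
  my : ∀ i ≤ J, S.m ⊆ S.y i
  mz : ∀ i ≤ J, S.m ⊆ S.z i
  yy : ∀ i j, i ≤ j → j ≤ J → S.y i ⊆ S.y j
  zz : ∀ i ≤ J, S.z i ⊆ S.z J
  qm : qs q S.m = (1 - h) / n
  qA : qs q S.A = (1 + C1 * Real.log n * h) / n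
  qy : ∀ i ≤ J, qs q (S.y i) = (1 + XS n h i) / n
  qz : ∀ i ≤ J, qs q (S.z i) = (1 + 11 / 10 * XS n h i) / n

section

variable {V : Type} [Fintype V]

/-- The giant at level `i`. -/
noncomputable def GG (ρ : Rels V) (k i : ℕ) : Finset V := gg (ρ.y i) univ k

/-- `[a,b]` is an `i`-step: consecutive visits to `GG (i+1)`. -/
def Step (ρ : Rels V) (k : ℕ) (γ : ℕ → V) (i a b : ℕ) : Prop :=
  a < b ∧ γ a ∈ GG ρ k (i + 1) ∧ γ b ∈ GG ρ k (i + 1) ∧
    ∀ j, a < j → j < b → γ j ∉ GG ρ k (i + 1)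

/-- Costly steps. -/
def Costly (ρ : Rels V) (k : ℕ) (γ : ℕ → V) (i a b : ℕ) : Prop :=
  Step ρ k γ i a b ∧ ∃ j, a ≤ j ∧ j < b ∧ ¬ ρ.z i (γ j) (γ (j + 1))

open Classical in
/-- The set of the costly steps `(i, a, b)`, `i < J`, `b ≤ ℓ`. -/
noncomputable def CS (ρ : Rels V) (k : ℕ) (γ : ℕ → V) (J ℓ : ℕ) : Finset (ℕ × ℕ × ℕ) :=
  (range J ×ˢ range (ℓ + 1) ×ˢ range (ℓ + 1)).filter fun p => Costly ρ k γ p.1 p.2.1 p.2.2

/-- `t` has depth at most `i`: it is in `GG (i+1)` or inside a non costly `i`-step. -/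
def DepSet (ρ : Rels V) (k : ℕ) (γ : ℕ → V) (ℓ t i : ℕ) : Prop :=
  γ t ∈ GG ρ k (i + 1) ∨
    ∃ a b, a < t ∧ t < b ∧ b ≤ ℓ ∧ Step ρ k γ i a b ∧ ¬ Costly ρ k γ i a b

/-- The depth of `γ t`. -/
noncomputable def dep (ρ : Rels V) (k : ℕ) (γ : ℕ → V) (J ℓ t : ℕ) : ℕ :=
  sInf {i | i = J ∨ (i < J ∧ DepSet ρ k γ ℓ t i)}

open Classical in
/-- Indices where the sequence `d` changes. -/
noncomputable def chg (d : ℕ → ℕ) (ℓ : ℕ) : Finset ℕ := (range ℓ).filter fun t => d t ≠ d (t + 1)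

open Classical in
/-- Completed excursions of `d` above the level `i < J`. -/
noncomputable def exc (d : ℕ → ℕ) (J ℓ : ℕ) : Finset (ℕ × ℕ) :=
  (range J ×ˢ range ℓ).filter fun p => d p.2 ≤ p.1 ∧ p.1 < d (p.2 + 1) ∧
    ∃ s, p.2 < s ∧ s < ℓ ∧ p.1 < d s ∧ d (s + 1) ≤ p.1

open Classical in
/-- Edges without change of depth and label too large. -/
noncomputable def flat (ρ : Rels V) (γ : ℕ → V) (d : ℕ → ℕ) (ℓ : ℕ) : Finset ℕ :=
  (range ℓ).filter fun t => d t = d (t + 1) ∧ ¬ ρ.z (d t) (γ t) (γ (t + 1))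

open Classical in
/-- The explored set `C(Y₁; V \ Y)` in `G(-h)`, `Y₁` = the vertices of level `0` of `Y`. -/
noncomputable def TT (ρ : Rels V) (Y : Finset V) (lev : V → ℕ) : Finset V :=
  expl ρ.m (Y.filter fun v => lev v = 0) Yᶜ

open Classical in
/-- The rest. -/
noncomputable def Vp (ρ : Rels V) (Y : Finset V) (lev : V → ℕ) : Finset V := Yᶜ \ TT ρ Y lev

/-- The event AVOID. -/
def Avoid (ρ : Rels V) (k km : ℕ) (Y : Finset V) (lev : V → ℕ) : Prop :=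
  (∀ u ∈ TT ρ Y lev, ∀ w ∈ gg ρ.m (Vp ρ Y lev) km, ¬ ρ.A u w) ∧
    ∀ v ∈ Y, lev v ≠ 0 → ∀ w ∈ gg (ρ.y (lev v)) (Vp ρ Y lev) k, ¬ ρ.y (lev v) v w

open Classical in
/-- Weight of an edge of the walk between vertices of depths `i`, `j`. -/
noncomputable def wt (ρ : Rels V) (κ' : ℝ) (J i j : ℕ) (u v : V) : ℝ :=
  if i = j then (if ρ.z i u v then 1 else if ρ.z J u v then κ' ^ 2 else 0)
  else (if ρ.z J u v ∧ ¬ ρ.m u v then κ' else 0)

/-- Extension of a finite sequence. -/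
def exN {ℓ : ℕ} (γ : Fin (ℓ + 1) → V) (i : ℕ) : V := γ ⟨min i ℓ, by omega⟩

open Classical in
/-- The level of a vertex of the walk `γ` when the depth sequence is `d`. -/
noncomputable def levOf {ℓ J : ℕ} (γ : Fin (ℓ + 1) → V) (d : Fin (ℓ + 1) → Fin (J + 1)) (v : V) :
    ℕ := ∑ t, if γ t = v then (d t : ℕ) else 0

open Classical in
/-- The sum over the walks without `A`-good vertices. -/
noncomputable def Sm (ρ : Rels V) (κ' : ℝ) (k km J ℓ : ℕ) : ℝ :=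
  ∑ γ : Fin (ℓ + 1) → V,
    if Function.Injective γ ∧ (∀ i < ℓ, ρ.z J (exN γ i) (exN γ (i + 1))) ∧
      ∀ t, ¬ AGood ρ.m ρ.A km (γ t) then κ' ^ (2 * (CS ρ k (exN γ) J ℓ).card) else 0

end

/-- Expected weight of an edge (times `n`). -/
noncomputable def wh (n : ℕ) (h κ' : ℝ) (J i j : ℕ) : ℝ :=
  if i = j then 1 + 11 / 10 * XS n h i + κ' ^ 2 * (11 / 10 * XS n h J)
  else κ' * (11 / 10 * XS n h J + h)

/-- `κ = (log n)^M exp (-(79/2000) c₀ (log n)^{1/4})`. -/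
noncomputable def kap (c₀ : ℝ) (M n : ℕ) : ℝ :=
  (Real.log n) ^ M * Real.exp (-(79 / 2000 * c₀ * (Real.log n) ^ (1 / 4 : ℝ)))

end RST.P
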