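import Pool.Agent.Lib.MP_7946c7_pr.N.Main
import Pool.Agent.Lib.MP_7946c7_pr.P.CostA
import Pool.Agent.Lib.MP_7946c7_pr.P.Defs

/-!
# JOB P/CostC: cost of a walk (the inequality COST of the notes)

STATEMENT. `κ = M exp (-(79/2000) (c₀/h) x_0) ≤ 1`, `x_i = XS n h i = (21/20)^i x_0`. Suppose that for
`i < J` any two vertices of `GG (i+1)` are joined by a walk with `∑ 1/c ≤ M exp ((c₀/h) 1.01 x_{i+1})`.
Then `P_T (γ ⊆ T) ≤ κ ^ #CS`.

PROOF. Write `f j = lab s(γ j, γ (j+1))`. Take `ord` from `exists_ord f ℓ`. For a costly step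
`(i,a,b) ∈ CS` let `k(i,a,b) ∈ [a,b)` be the argmax of `ord` on `[a,b)` (`exists_argmax`; choice).
For `j ∈ [a,b)`: `f j ≤ f k` (otherwise `f k < f j` would give `ord k < ord j`). Let
`K = image of CS under k(·)`. For `k ∈ K` let `F_k ⊆ CS` be the fiber; it contains at most one
element for each level `i`: if `(i,a,b), (i,a',b')` are two `i`-steps with `k ∈ [a,b) ∩ [a',b')` then
`a = a'` (if `a < a'` then `a < a' ≤ k < b`, contradicting that there is no visit of `GG (i+1)`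
strictly between `a` and `b`) and `b = b'` (same argument).
Let `i₀ ≤ i₁` be the smallest and the largest level in `F_k`, so `#F_k ≤ i₁ - i₀ + 1`
(injection of `F_k` into `Icc i₀ i₁` by the level). Use for `k` the interval `[a_k,b_k)` of the
element of level `i₀`, and `R_k = M exp ((c₀/h) 1.01 x_{i₀+1})` (hypothesis `hres`, because
`γ a_k, γ b_k ∈ GG (i₀+1)`). As the step of level `i₁` is costly, some edge of it has label
`> 1.1 x_{i₁}` (the negation of `gr`; the two endpoints are distinct because `γ` is injective), so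
`f k > 1.1 x_{i₁}` and with `m = i₁ - i₀`
 `c(e_k) R_k ≤ M exp (-(c₀/h) x_{i₀} (1.1 * 1.05^m - 1.01 * 1.05))`
 and `1.1 * 1.05^m - 1.0605 ≥ 1.1 (1 + m/20) - 1.0605 ≥ 0.0395 (m+1)`  (Bernoulli),
 so `c(e_k) R_k ≤ (M exp (-(79/2000) (c₀/h) x_0))^{m+1} = κ^{m+1} ≤ κ^{#F_k}` (use `1 ≤ M`, `x_0 ≤ x_{i₀}`,
 `κ ≤ 1`).
`cost_product` (file `IfN.lean`) gives `P_T(γ ⊆ T) ≤ ∏_{k ∈ K} min 1 (c(e_k) R_k) ≤ ∏_{k ∈ K} κ^{#F_k}
= κ^{#CS}` (`Finset.card_eq_sum_card_image`, `Finset.prod_pow_eq_pow_sum`). Here `relsL n h J lab` has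
`z i = gr lab (11/10 * XS n h (min i J))` and `GG ρ k (i+1) = gg (gr lab (XS n h (min (i+1) J))) univ k`.
-/

open Finset

namespace RST.P

private theorem CostC_XS_mul (n : ℕ) (h : ℝ) (i m : ℕ) :
    XS n h (i + m) = (21 / 20) ^ m * XS n h i := by
  unfold XS
  rw [pow_add]
  ring

private theorem CostC_XS_nonneg {n : ℕ} {h : ℝ} (hn : 1 ≤ n) (hh : 0 < h) (i : ℕ) :
    0 ≤ XS n h i := by
  unfold XS
  have h1 : 0 ≤ Real.log n := Real.log_nonneg (by exact_mod_cast hn)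
  have h2 : 0 ≤ (Real.log n) ^ (1 / 4 : ℝ) := Real.rpow_nonneg h1 _
  positivity

private theorem CostC_XS_zero_le {n : ℕ} {h : ℝ} (hn : 1 ≤ n) (hh : 0 < h) (i : ℕ) :
    XS n h 0 ≤ XS n h i := by
  have h1 := CostC_XS_mul n h 0 i
  rw [zero_add] at h1
  rw [h1]
  have h2 : (1 : ℝ) ≤ (21 / 20) ^ i := one_le_pow₀ (by norm_num)
  have h3 := CostC_XS_nonneg hn hh 0
  nlinarith

private theorem CostC_arith {n : ℕ} {h : ℝ} (hn : 1 ≤ n) (hh : 0 < h) (β M : ℝ) (hβ : 0 < β)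
    (hM : 1 ≤ M) (i m : ℕ) (y : ℝ) (hy : 11 / 10 * XS n h (i + m) < y) :
    Real.exp (-β * y) * (M * Real.exp (β * (101 / 100 * XS n h (i + 1)))) ≤
      (M * Real.exp (-(79 / 2000 * β * XS n h 0))) ^ (m + 1) := by
  have hx := CostC_XS_nonneg hn hh i
  have hx0 := CostC_XS_zero_le hn hh i
  have hx00 := CostC_XS_nonneg hn hh 0
  rw [CostC_XS_mul] at hy
  have e1 : XS n h (i + 1) = 21 / 20 * XS n h i := by
    rw [CostC_XS_mul]; ring
  rw [e1, mul_pow, ← Real.exp_nat_mul]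
  have hB : 1 + (m : ℝ) * (1 / 20) ≤ (1 + 1 / 20) ^ m := one_add_mul_le_pow (by norm_num) m
  have hB' : 1 + (m : ℝ) * (1 / 20) ≤ (21 / 20) ^ m := by
    have : (1 + 1 / 20 : ℝ) = 21 / 20 := by norm_num
    rwa [this] at hB
  have hMp : M ≤ M ^ (m + 1) := by
    calc M = M ^ 1 := (pow_one M).symm
      _ ≤ M ^ (m + 1) := pow_le_pow_right₀ hM (by omega)
  have hexp : Real.exp (-β * y) * Real.exp (β * (101 / 100 * (21 / 20 * XS n h i))) ≤
      Real.exp (((m + 1 : ℕ) : ℝ) * -(79 / 2000 * β * XS n h 0)) := by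
    rw [← Real.exp_add]
    apply Real.exp_le_exp.2
    have k1 : (79 / 2000 : ℝ) * (m + 1) * XS n h 0 ≤ (79 / 2000 : ℝ) * (m + 1) * XS n h i :=
      mul_le_mul_of_nonneg_left hx0 (by positivity)
    have k2 : (79 / 2000 : ℝ) * (m + 1) * XS n h i ≤
        y - 101 / 100 * (21 / 20 * XS n h i) := by
      have k3 : 11 / 10 * ((1 + (m : ℝ) * (1 / 20)) * XS n h i) ≤
          11 / 10 * ((21 / 20) ^ m * XS n h i) := by
        apply mul_le_mul_of_nonneg_left _ (by norm_num)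
        exact mul_le_mul_of_nonneg_right hB' hx
      have k4 : 0 ≤ (m : ℝ) * XS n h i := by positivity
      nlinarith
    have k5 : β * ((79 / 2000 : ℝ) * (m + 1) * XS n h 0) ≤
        β * (y - 101 / 100 * (21 / 20 * XS n h i)) :=
      mul_le_mul_of_nonneg_left (k1.trans k2) hβ.le
    push_cast
    linarith
  calc Real.exp (-β * y) * (M * Real.exp (β * (101 / 100 * (21 / 20 * XS n h i))))
      = M * (Real.exp (-β * y) * Real.exp (β * (101 / 100 * (21 / 20 * XS n h i)))) := by ring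
    _ ≤ M ^ (m + 1) * Real.exp (((m + 1 : ℕ) : ℝ) * -(79 / 2000 * β * XS n h 0)) :=
        mul_le_mul hMp hexp (by positivity) (by positivity)

theorem cost {V : Type} [Fintype V] [DecidableEq V] (lab : Sym2 V → ℝ) (n : ℕ) (h c₀ M : ℝ)
    (k J : ℕ) (hn : 1 ≤ n) (hh : 0 < h) (hc : 0 < c₀) (hM : 1 ≤ M)
    (hκ : M * Real.exp (-(79 / 2000 * (c₀ / h) * XS n h 0)) ≤ 1)
    (hres : ∀ i < J, ∀ u ∈ GG (relsL n h J lab) k (i + 1), ∀ v ∈ GG (relsL n h J lab) k (i + 1),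
      ∃ (ρ : ℕ → V) (len : ℕ), ρ 0 = u ∧ ρ len = v ∧ (∀ j < len, ρ j ≠ ρ (j + 1)) ∧
        ∑ j ∈ range len, 1 / Real.exp (-(c₀ / h) * lab s(ρ j, ρ (j + 1))) ≤
          M * Real.exp (c₀ / h * (101 / 100 * XS n h (i + 1))))
    (γ : ℕ → V) (ℓ : ℕ) (hγ : ∀ i ≤ ℓ, ∀ j ≤ ℓ, γ i = γ j → i = j) :
    PT (fun e => Real.exp (-(c₀ / h) * lab e)) {T | ∀ i < ℓ, T.Adj (γ i) (γ (i + 1))} ≤
      (M * Real.exp (-(79 / 2000 * (c₀ / h) * XS n h 0))) ^
        (CS (relsL n h J lab) k γ J ℓ).card := by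
  classical
  obtain ⟨β, hβdef⟩ : ∃ β, β = c₀ / h := ⟨_, rfl⟩
  have hβ : 0 < β := by rw [hβdef]; positivity
  rw [← hβdef] at hκ hres ⊢
  obtain ⟨S, hS⟩ : ∃ S, S = CS (relsL n h J lab) k γ J ℓ := ⟨_, rfl⟩
  rw [← hS]
  obtain ⟨f, hf⟩ : ∃ f : ℕ → ℝ, f = fun j => lab s(γ j, γ (j + 1)) := ⟨_, rfl⟩
  obtain ⟨ord, hinj, hord⟩ := exists_ord f ℓ
  have hmem : ∀ p ∈ S, p.1 < J ∧ p.2.2 ≤ ℓ ∧
      Costly (relsL n h J lab) k γ p.1 p.2.1 p.2.2 := by
    intro p hp
    rw [hS] at hp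
    unfold CS at hp
    simp only [Finset.mem_filter, Finset.mem_product, Finset.mem_range] at hp
    exact ⟨hp.1.1, by omega, hp.2⟩
  have harg : ∀ p ∈ S, ∃ m, p.2.1 ≤ m ∧ m < p.2.2 ∧
      ∀ j, p.2.1 ≤ j → j < p.2.2 → j ≠ m → ord j < ord m := by
    intro p hp
    obtain ⟨_, h2, h3⟩ := hmem p hp
    exact exists_argmax ord ℓ hinj p.2.1 p.2.2 h3.1.1 h2
  choose! kk hk1 hk2 hk3 using harg
  -- the label at the argmax is large
  have hbig : ∀ p ∈ S, 11 / 10 * XS n h p.1 < f (kk p) := by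
    intro p hp
    obtain ⟨h1, h2, h3⟩ := hmem p hp
    obtain ⟨j, hj1, hj2, hj3⟩ := h3.2
    have hne : γ j ≠ γ (j + 1) := by
      intro e
      have := hγ j (by omega) (j + 1) (by omega) e
      omega
    have hz : (relsL n h J lab).z p.1 (γ j) (γ (j + 1)) ↔
        (γ j ≠ γ (j + 1) ∧ lab s(γ j, γ (j + 1)) ≤ 11 / 10 * XS n h (min p.1 J)) := Iff.rfl
    rw [hz, min_eq_left h1.le] at hj3
    have hlt : 11 / 10 * XS n h p.1 < f j := by
      rw [hf]
      by_contra hcon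
      exact hj3 ⟨hne, not_lt.1 hcon⟩
    have hle : f j ≤ f (kk p) := by
      by_cases hjk : j = kk p
      · rw [hjk]
      · by_contra hcon
        have l1 := hord (kk p) (lt_of_lt_of_le (hk2 p hp) h2) j (by omega) (not_le.1 hcon)
        have l2 := hk3 p hp j hj1 hj2 hjk
        omega
    exact lt_of_lt_of_le hlt hle
  -- at most one step per level in a fiber
  have huniq : ∀ p ∈ S, ∀ p' ∈ S, kk p = kk p' → p.1 = p'.1 → p = p' := by
    rintro ⟨i, a, b⟩ hp ⟨i', a', b'⟩ hp' hkk hi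
    simp only at hi
    subst hi
    obtain ⟨_, _, h3⟩ := hmem _ hp
    obtain ⟨_, _, h3'⟩ := hmem _ hp'
    simp only at h3 h3'
    have q1 := hk1 _ hp
    have q2 := hk2 _ hp
    have q1' := hk1 _ hp'
    have q2' := hk2 _ hp'
    rw [← hkk] at q1' q2'
    simp only at q1 q2 q1' q2'
    obtain ⟨⟨s1, s2, s3, s4⟩, _⟩ := h3
    obtain ⟨⟨t1, t2, t3, t4⟩, _⟩ := h3'
    have ha : a = a' := by
      rcases lt_trichotomy a a' with hlt | heq | hgt
      · exact absurd t2 (s4 a' hlt (by omega))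
      · exact heq
      · exact absurd s2 (t4 a hgt (by omega))
    have hb : b = b' := by
      rcases lt_trichotomy b b' with hlt | heq | hgt
      · exact absurd s3 (t4 b (by omega) hlt)
      · exact heq
      · exact absurd t3 (s4 b' (by omega) hgt)
    rw [ha, hb]
  obtain ⟨K, hK⟩ : ∃ K, K = S.image kk := ⟨_, rfl⟩
  have hp0 : ∀ m ∈ K, ∃ p ∈ S, kk p = m ∧ ∀ p' ∈ S, kk p' = m → p.1 ≤ p'.1 := by
    intro m hm
    have hne : (S.filter fun p => kk p = m).Nonempty := by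
      rw [hK, Finset.mem_image] at hm
      obtain ⟨p, hp, e⟩ := hm
      exact ⟨p, Finset.mem_filter.2 ⟨hp, e⟩⟩
    obtain ⟨p, hp, hmin⟩ := Finset.exists_min_image _ (fun p : ℕ × ℕ × ℕ => p.1) hne
    rw [Finset.mem_filter] at hp
    exact ⟨p, hp.1, hp.2, fun p' hp' e => hmin p' (Finset.mem_filter.2 ⟨hp', e⟩)⟩
  have hp1 : ∀ m ∈ K, ∃ p ∈ S, kk p = m ∧ ∀ p' ∈ S, kk p' = m → p'.1 ≤ p.1 := by
    intro m hm
    have hne : (S.filter fun p => kk p = m).Nonempty := by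
      rw [hK, Finset.mem_image] at hm
      obtain ⟨p, hp, e⟩ := hm
      exact ⟨p, Finset.mem_filter.2 ⟨hp, e⟩⟩
    obtain ⟨p, hp, hmax⟩ := Finset.exists_max_image _ (fun p : ℕ × ℕ × ℕ => p.1) hne
    rw [Finset.mem_filter] at hp
    exact ⟨p, hp.1, hp.2, fun p' hp' e => hmax p' (Finset.mem_filter.2 ⟨hp', e⟩)⟩
  choose! p0 h0S h0k h0min using hp0
  choose! p1 h1S h1k h1max using hp1
  have hcp := cost_product (fun e => Real.exp (-β * lab e)) (fun e => Real.exp_pos _) γ ℓ hγ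
    ord hinj K (fun m => (p0 m).2.1) (fun m => (p0 m).2.2)
    (fun m => M * Real.exp (β * (101 / 100 * XS n h ((p0 m).1 + 1)))) (by
      intro m hm
      have hS0 := h0S m hm
      obtain ⟨g1, g2, g3⟩ := hmem _ hS0
      have e := h0k m hm
      have q1 := hk1 _ hS0
      have q2 := hk2 _ hS0
      have q3 := hk3 _ hS0
      rw [e] at q1 q2 q3
      exact ⟨q1, q2, g2, q3, hres (p0 m).1 g1 _ g3.1.2.1 _ g3.1.2.2.1⟩)
  refine hcp.trans ?_
  have hκpos : 0 < M * Real.exp (-(79 / 2000 * β * XS n h 0)) := by positivity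
  have hprod : ∏ m ∈ K, min 1 ((fun e => Real.exp (-β * lab e)) s(γ m, γ (m + 1)) *
      (fun m => M * Real.exp (β * (101 / 100 * XS n h ((p0 m).1 + 1)))) m) ≤
      ∏ m ∈ K, (M * Real.exp (-(79 / 2000 * β * XS n h 0))) ^
        (S.filter fun p => kk p = m).card := by
    apply Finset.prod_le_prod
    · intro m _
      apply le_min zero_le_one
      positivity
    · intro m hm
      refine (min_le_right _ _).trans ?_
      have hle : (p0 m).1 ≤ (p1 m).1 := h0min m hm _ (h1S m hm) (h1k m hm)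
      obtain ⟨w, hw⟩ : ∃ w, (p1 m).1 = (p0 m).1 + w := ⟨(p1 m).1 - (p0 m).1, by omega⟩
      have hb := hbig _ (h1S m hm)
      rw [h1k m hm, hw, hf] at hb
      refine (CostC_arith hn hh β M hβ hM (p0 m).1 w _ hb).trans ?_
      apply pow_le_pow_of_le_one hκpos.le hκ
      have hcard : (S.filter fun p => kk p = m).card ≤
          (Finset.Icc (p0 m).1 (p1 m).1).card := by
        apply Finset.card_le_card_of_injOn (fun p => p.1)
        · intro p hp
          have hp' := Finset.mem_filter.1 (Finset.mem_coe.1 hp)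
          exact Finset.mem_coe.2 (Finset.mem_Icc.2 ⟨h0min m hm p hp'.1 hp'.2,
            h1max m hm p hp'.1 hp'.2⟩)
        · intro p hp p' hp' e
          have g := Finset.mem_filter.1 (Finset.mem_coe.1 hp)
          have g' := Finset.mem_filter.1 (Finset.mem_coe.1 hp')
          exact huniq p g.1 p' g'.1 (g.2.trans g'.2.symm) e
      rw [Nat.card_Icc] at hcard
      omega
  refine hprod.trans ?_
  rw [Finset.prod_pow_eq_pow_sum, hK, ← Finset.card_eq_sum_card_image]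

end RST.P
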