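import Pool.Agent.Lib.MP_7946c7_pr.Defs

/-!
# JOB P/CostR: resistance of a self-avoiding walk with few recent edges

`c e = exp (-(c₀/h) lab e)`, so `1 / c e = exp ((c₀/h) lab e)`.

PROOF. Let `ρ` be a self-avoiding walk of length `len ≤ n²` in `gr lab x` (so all its labels are
`≤ x`), with at most `M` edges of label `> x - (2/c₀) log n h`. An edge of the second kind
(`label > x - …`) contributes `≤ exp ((c₀/h) x)`. The others contribute
`≤ exp ((c₀/h) (x - (2/c₀) log n h)) = exp ((c₀/h) x) * exp (-2 log n) = exp ((c₀/h) x) / n²`, and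
there are at most `len ≤ n²` of them: total `≤ (M + 1) exp ((c₀/h) x)`.
-/

open Finset

namespace RST.P

open Classical in
theorem resist {V : Type} (lab : Sym2 V → ℝ) (c₀ h x : ℝ) (n M : ℕ) (hn : 1 ≤ n) (hc : 0 < c₀)
    (hh : 0 < h) (ρ : ℕ → V) (len : ℕ) (hρ : IsSAW (gr lab x) ρ len) (hlen : len ≤ n ^ 2)
    (hM : ((range len).filter fun i =>
      x - 2 / c₀ * Real.log n * h < lab s(ρ i, ρ (i + 1))).card ≤ M) :
    ∑ i ∈ range len, 1 / Real.exp (-(c₀ / h) * lab s(ρ i, ρ (i + 1))) ≤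
      (M + 1) * Real.exp (c₀ / h * x) := by
  have hb : 0 < c₀ / h := by positivity
  have hn' : (1 : ℝ) ≤ n := by exact_mod_cast hn
  have hn0 : (0 : ℝ) < n := by linarith
  have h1 : ∀ i ∈ range len, 1 / Real.exp (-(c₀ / h) * lab s(ρ i, ρ (i + 1))) ≤
      (if x - 2 / c₀ * Real.log n * h < lab s(ρ i, ρ (i + 1)) then Real.exp (c₀ / h * x) else 0) +
        Real.exp (c₀ / h * x) / (n : ℝ) ^ 2 := by
    intro i hi
    have hlab : lab s(ρ i, ρ (i + 1)) ≤ x := (hρ.1 i (mem_range.1 hi)).2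
    have e : 1 / Real.exp (-(c₀ / h) * lab s(ρ i, ρ (i + 1))) =
        Real.exp (c₀ / h * lab s(ρ i, ρ (i + 1))) := by
      rw [one_div, ← Real.exp_neg]
      congr 1
      ring
    rw [e]
    split_ifs with hcc
    · have h2 := Real.exp_le_exp.2 (mul_le_mul_of_nonneg_left hlab hb.le)
      have h3 : 0 ≤ Real.exp (c₀ / h * x) / (n : ℝ) ^ 2 := by positivity
      linarith
    · rw [zero_add, le_div_iff₀ (by positivity)]
      have h4 : (n : ℝ) ^ 2 = Real.exp (2 * Real.log n) := by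
        rw [two_mul, Real.exp_add, Real.exp_log hn0, sq]
      rw [h4, ← Real.exp_add]
      apply Real.exp_le_exp.2
      have h5 := mul_le_mul_of_nonneg_left (not_lt.1 hcc) hb.le
      have e2 : c₀ / h * (x - 2 / c₀ * Real.log n * h) = c₀ / h * x - 2 * Real.log n := by
        field_simp
      linarith
  refine (Finset.sum_le_sum h1).trans ?_
  rw [Finset.sum_add_distrib, ← Finset.sum_filter, Finset.sum_const, Finset.sum_const,
    nsmul_eq_mul, nsmul_eq_mul, Finset.card_range]
  have hE : 0 < Real.exp (c₀ / h * x) := Real.exp_pos _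
  have hM' : ((((range len).filter fun i =>
      x - 2 / c₀ * Real.log n * h < lab s(ρ i, ρ (i + 1))).card : ℕ) : ℝ) ≤ M := by
    exact_mod_cast hM
  have hlen' : (len : ℝ) ≤ (n : ℝ) ^ 2 := by exact_mod_cast hlen
  have h6 : (len : ℝ) * (Real.exp (c₀ / h * x) / (n : ℝ) ^ 2) ≤ Real.exp (c₀ / h * x) := by
    rw [mul_div_assoc', div_le_iff₀ (by positivity), mul_comm]
    exact mul_le_mul_of_nonneg_left hlen' hE.le
  have h7 := mul_le_mul_of_nonneg_right hM' hE.le
  linarith

end RST.P
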