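import Pool.Agent.Lib.MP_7946c7_pr.P.NumA

/-!
# JOB P/NumB: the numerical hypotheses of `moment` and the final estimate

Notation `lg = log n`, `J = JN c₀ n`, `x_i = XS n h i`, `x_0 = lg^{1/4} h`,
`x_J = (21/20)^J lg^{1/4} h ≤ (160/c₀) lg h` (`num_J`), `κ' = √(kap c₀ M n)`, `ℓ = l1N n h = ⌈8 lg/h⌉₊`.

`num_small`. `κ'^2 (1.1 x_J) + J κ' (1.1 x_J + h) ≤ κ' h ((176/c₀) lg + lg^{1/8} ((176/c₀) lg + 1))
≤ κ' h (400/c₀) lg^2 ≤ h/20 ≤ x_0/20` (`κ' ≤ 1`, `lg ≥ 1`, `num_kap`: `κ' lg² ≤ c₀/8000`).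

`num_range`: `h ≤ n^{-δ}`, `h ≥ n^{-1/3+δ}`: `x_J ≤ (160/c₀) lg n^{-δ} → 0`, `J ≤ lg^{1/8} ≤ n`,
`ℓ + 1 ≤ 8 lg/h + 2 ≤ h² n/1000` because `h³ n ≥ n^{3δ}` dominates `lg`;
`C1 lg h ≤ C1 lg ≤ n - 1`; `1.1 x_J ≤ n - 1`; `h ≤ 1/100`;
`lg^Cr/h ≤ lg^Cr n^{1/3} ≤ n²`; `(3 J + 3)/n ≤ ε`.

`num_final`. `x_0 ℓ/20 ≥ lg^{1/4} h (8 lg/h)/20 = (2/5) lg^{5/4} ≥ 10 lg` (large `n`), so
`exp (-x_0/20)^ℓ ≤ n^{-10}`; `2 x_J ℓ ≤ 2 (160/c₀) lg h (8 lg/h + 1) ≤ (3200/c₀) lg²`, so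
`exp (-n^{δ/20}) exp (2 x_J)^ℓ ≤ exp (-n^{δ/20} + (3200/c₀) lg²) ≤ n^{-10}` (large `n`);
so the left side is `≤ n (J+1) 2 n^{-10} ≤ n^{-3} ≤ κ'^{2J}/n²` with `num_kap_lower`
(`κ'^{2J} = kap^J ≥ 1/n`).
-/

open Finset

namespace RST.P

/-- Powers of `log n` are small compared to powers of `n`. -/
theorem numB_dom (k : ℕ) (b C : ℝ) (hb : 0 < b) : ∀ᶠ n : ℕ in Filter.atTop,
    C * (Real.log (n : ℝ)) ^ k ≤ (n : ℝ) ^ b := by
  have h1 := (numA_exp k b hb).comp numA_log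
  have h2 : ∀ᶠ n : ℕ in Filter.atTop, (Real.log (n : ℝ)) ^ k *
      Real.exp (-(b * Real.log (n : ℝ))) < 1 / (|C| + 1) :=
    h1.eventually_lt_const (by positivity)
  filter_upwards [h2, Filter.eventually_ge_atTop (1 : ℕ)] with n h3 h4
  have hn : (0 : ℝ) < n := by exact_mod_cast h4
  have hL : 0 ≤ Real.log (n : ℝ) := Real.log_nonneg (by exact_mod_cast h4)
  rw [Real.exp_neg, ← div_eq_mul_inv, div_lt_div_iff₀ (Real.exp_pos _) (by positivity), one_mul,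
    mul_comm b, ← Real.rpow_def_of_pos hn] at h3
  have h5 : 0 ≤ (Real.log (n : ℝ)) ^ k := pow_nonneg hL k
  have h6 : C * (Real.log (n : ℝ)) ^ k ≤ |C| * (Real.log (n : ℝ)) ^ k :=
    mul_le_mul_of_nonneg_right (le_abs_self C) h5
  nlinarith

theorem numB_XS (c₀ : ℝ) (hc : 0 < c₀) (hc1 : c₀ ≤ 1) : ∀ᶠ n : ℕ in Filter.atTop, ∀ h : ℝ, 0 < h →
    1 ≤ Real.log (n : ℝ) ∧ (JN c₀ n : ℝ) + 1 ≤ Real.log (n : ℝ) ∧ h ≤ XS n h 0 ∧
    0 ≤ XS n h (JN c₀ n) ∧ XS n h (JN c₀ n) ≤ 160 / c₀ * (Real.log n * h) := by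
  obtain ⟨n₁, hn₁⟩ := num_J c₀ hc hc1
  filter_upwards [numA_log.eventually (Filter.eventually_ge_atTop (1 : ℝ)),
    Filter.eventually_ge_atTop n₁] with n hL hn h hh
  obtain ⟨h1, h2⟩ := hn₁ n hn
  have hL0 : 0 < Real.log (n : ℝ) := by linarith
  refine ⟨hL, ?_, ?_, ?_, ?_⟩
  · refine h1.trans ?_
    calc (Real.log (n : ℝ)) ^ (1 / 8 : ℝ) ≤ (Real.log n) ^ (1 : ℝ) :=
          Real.rpow_le_rpow_of_exponent_le hL (by norm_num)
      _ = Real.log n := Real.rpow_one _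
  · unfold XS
    rw [pow_zero, one_mul]
    exact le_mul_of_one_le_left hh.le (Real.one_le_rpow hL (by norm_num))
  · unfold XS
    positivity
  · unfold XS
    have h3 : (21 / 20 : ℝ) ^ JN c₀ n * ((Real.log n) ^ (1 / 4 : ℝ) * h) ≤
        160 / c₀ * (Real.log n) ^ (3 / 4 : ℝ) * ((Real.log n) ^ (1 / 4 : ℝ) * h) :=
      mul_le_mul_of_nonneg_right h2 (by positivity)
    refine h3.trans (le_of_eq ?_)
    have h4 : (Real.log (n : ℝ)) ^ (3 / 4 : ℝ) * (Real.log (n : ℝ)) ^ (1 / 4 : ℝ) = Real.log n := by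
      rw [← Real.rpow_add hL0]
      norm_num
    calc 160 / c₀ * (Real.log n) ^ (3 / 4 : ℝ) * ((Real.log n) ^ (1 / 4 : ℝ) * h)
        = 160 / c₀ * (((Real.log n) ^ (3 / 4 : ℝ) * (Real.log n) ^ (1 / 4 : ℝ)) * h) := by ring
      _ = _ := by rw [h4]

theorem num_small (c₀ : ℝ) (hc : 0 < c₀) (hc1 : c₀ ≤ 1) (M : ℕ) : ∃ n₀ : ℕ, ∀ n : ℕ, n₀ ≤ n →
    ∀ h : ℝ, 0 < h →
    Real.sqrt (kap c₀ M n) ^ 2 * (11 / 10 * XS n h (JN c₀ n)) +
      JN c₀ n * (Real.sqrt (kap c₀ M n) * (11 / 10 * XS n h (JN c₀ n) + h)) ≤ XS n h 0 / 20 := by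
  obtain ⟨n₁, hn₁⟩ := Filter.eventually_atTop.1 (numB_XS c₀ hc hc1)
  obtain ⟨n₂, hn₂⟩ := num_kap c₀ hc M
  refine ⟨max n₁ n₂, fun n hn h hh => ?_⟩
  obtain ⟨hL, hJ, hx0, hxJ0, hxJ⟩ := hn₁ n ((le_max_left _ _).trans hn) h hh
  obtain ⟨hk0, hk1, hk2⟩ := hn₂ n ((le_max_right _ _).trans hn)
  set L := Real.log (n : ℝ) with hLdef
  set κ := Real.sqrt (kap c₀ M n) with hκ
  set x := XS n h (JN c₀ n) with hx
  have hκ0 : 0 ≤ κ := Real.sqrt_nonneg _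
  have hκ1 : κ ≤ 1 := by
    rw [hκ]
    exact Real.sqrt_le_one.2 hk1
  have hJ0 : (0 : ℝ) ≤ JN c₀ n := Nat.cast_nonneg _
  -- bounds
  have e1 : κ ^ 2 * (11 / 10 * x) ≤ κ * (176 / c₀ * (L * h)) := by
    have h1 : κ ^ 2 ≤ κ := by nlinarith
    have h2 : 11 / 10 * x ≤ 176 / c₀ * (L * h) := by
      have : 176 / c₀ * (L * h) = 11 / 10 * (160 / c₀ * (L * h)) := by ring
      rw [this]; linarith
    exact mul_le_mul h1 h2 (by linarith) hκ0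
  have e2 : (JN c₀ n : ℝ) * (κ * (11 / 10 * x + h)) ≤ (L - 1) * (κ * (177 / c₀ * (L * h))) := by
    have h2 : 11 / 10 * x + h ≤ 177 / c₀ * (L * h) := by
      have h3 : 177 / c₀ * (L * h) = 11 / 10 * (160 / c₀ * (L * h)) + 1 / c₀ * (L * h) := by ring
      have h4 : h ≤ 1 / c₀ * (L * h) := by
        have h5 : 1 ≤ 1 / c₀ := by rw [le_div_iff₀ hc]; linarith
        have h6 : h ≤ L * h := le_mul_of_one_le_left hh.le hL
        nlinarith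
      rw [h3]; linarith
    refine mul_le_mul (by linarith) (mul_le_mul_of_nonneg_left h2 hκ0) (by positivity) (by linarith)
  have e3 : κ * (176 / c₀ * (L * h)) + (L - 1) * (κ * (177 / c₀ * (L * h))) ≤
      177 / c₀ * h * (κ * L ^ 2) := by
    have h1 : κ * (176 / c₀ * (L * h)) ≤ κ * (177 / c₀ * (L * h)) := by
      refine mul_le_mul_of_nonneg_left ?_ hκ0
      refine mul_le_mul_of_nonneg_right ?_ (by positivity)
      exact div_le_div_of_nonneg_right (by norm_num) hc.le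
    have h2 : 177 / c₀ * h * (κ * L ^ 2) =
        κ * (177 / c₀ * (L * h)) + (L - 1) * (κ * (177 / c₀ * (L * h))) := by ring
    rw [h2]
    linarith
  have e4 : 177 / c₀ * h * (κ * L ^ 2) ≤ 177 / c₀ * h * (c₀ / 8000) :=
    mul_le_mul_of_nonneg_left hk2 (by positivity)
  have e5 : 177 / c₀ * h * (c₀ / 8000) = 177 / 8000 * h := by
    field_simp
  have e6 : 177 / 8000 * h ≤ XS n h 0 / 20 := by linarith
  linarith

theorem numB_par (δ : ℝ) (hδ : 0 < δ) (hδ1 : δ ≤ 1 / 10) : ∀ᶠ n : ℕ in Filter.atTop,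
    ∀ h : ℝ, R2Par δ n h → (n : ℝ) ^ (3 * δ) ≤ h ^ 3 * n ∧ 0 < h ∧ h ≤ (n : ℝ) ^ (-δ) ∧
      h ≤ 1 / 100 ∧ 1 / h ≤ n := by
  have h1 : ∀ᶠ n : ℕ in Filter.atTop, (n : ℝ) ^ (-δ) < 1 / 100 :=
    ((tendsto_rpow_neg_atTop hδ).comp tendsto_natCast_atTop_atTop).eventually_lt_const (by norm_num)
  filter_upwards [h1, Filter.eventually_ge_atTop (1 : ℕ)] with n h2 h3 h hp
  have hn1 : (1 : ℝ) ≤ n := by exact_mod_cast h3
  have hn : (0 : ℝ) < n := by linarith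
  have hlo := hp.lo
  have hpos : 0 < (n : ℝ) ^ (-(1 / 3 : ℝ) + δ) := Real.rpow_pos_of_pos hn _
  have hh : 0 < h := lt_of_lt_of_le hpos hlo
  refine ⟨?_, hh, hp.hi, hp.hi.trans h2.le, ?_⟩
  · have h4 : ((n : ℝ) ^ (-(1 / 3 : ℝ) + δ)) ^ 3 ≤ h ^ 3 := pow_le_pow_left₀ hpos.le hlo 3
    have h5 : ((n : ℝ) ^ (-(1 / 3 : ℝ) + δ)) ^ 3 * n = (n : ℝ) ^ (3 * δ) := by
      rw [← Real.rpow_natCast, ← Real.rpow_mul hn.le]
      nth_rewrite 2 [← Real.rpow_one (n : ℝ)]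
      rw [← Real.rpow_add hn]
      congr 1
      push_cast
      ring
    rw [← h5]
    exact mul_le_mul_of_nonneg_right h4 hn.le
  · rw [one_div]
    have h6 : h⁻¹ ≤ ((n : ℝ) ^ (-(1 / 3 : ℝ) + δ))⁻¹ := inv_anti₀ hpos hlo
    refine h6.trans ?_
    rw [← Real.rpow_neg hn.le]
    calc (n : ℝ) ^ (-(-(1 / 3 : ℝ) + δ)) ≤ (n : ℝ) ^ (1 : ℝ) :=
          Real.rpow_le_rpow_of_exponent_le hn1 (by linarith)
      _ = n := Real.rpow_one _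

theorem num_range (δ c₀ ε : ℝ) (hδ : 0 < δ) (hδ1 : δ ≤ 1 / 10) (hc : 0 < c₀) (hc1 : c₀ ≤ 1)
    (hε : 0 < ε) (Cr : ℕ) : ∃ n₀ : ℕ, ∀ n : ℕ, n₀ ≤ n → ∀ h : ℝ, R2Par δ n h →
    3 ≤ n ∧ 0 < h ∧ h ≤ 1 / 100 ∧ 1 ≤ (Real.log n) ^ (1 / 4 : ℝ) ∧ XS n h (JN c₀ n) ≤ 1 / 4 ∧
    JN c₀ n ≤ n ∧ (l1N n h : ℝ) + 1 ≤ h ^ 2 * n / 1000 ∧ C1 * Real.log n * h ≤ n - 1 ∧
    11 / 10 * XS n h (JN c₀ n) ≤ n - 1 ∧ (Real.log n) ^ Cr / h ≤ (n : ℝ) ^ 2 ∧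
    (3 * (JN c₀ n : ℝ) + 3) / n ≤ ε := by
  obtain ⟨n₀, hn₀⟩ := Filter.eventually_atTop.1 ((numB_XS c₀ hc hc1).and
    ((numB_par δ hδ hδ1).and ((Filter.eventually_ge_atTop (3 : ℕ)).and
    ((numB_dom 1 δ (640 / c₀) hδ).and ((numB_dom 1 (3 * δ) 10000 (by positivity)).and
    ((numB_dom 1 1 (C1 + 1) one_pos).and ((numB_dom Cr 1 1 one_pos).and
    (numB_dom 1 1 (3 / ε) one_pos))))))))
  refine ⟨n₀, fun n hn h hp => ?_⟩
  obtain ⟨a1, a2, a3, a4, a5, a6, a7, a8⟩ := hn₀ n hn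
  obtain ⟨p1, hh, p3, p4, p5⟩ := a2 h hp
  obtain ⟨hL, hJ, hx0, hxJ0, hxJ⟩ := a1 h hh
  rw [pow_one] at a4 a5 a6 a8
  rw [Real.rpow_one] at a6 a7 a8
  have hn3 : (3 : ℝ) ≤ n := by exact_mod_cast a3
  have hn0 : (0 : ℝ) < n := by linarith
  have hxq : XS n h (JN c₀ n) ≤ 1 / 4 := by
    have h1 : 160 / c₀ * (Real.log n * h) ≤ 160 / c₀ * (Real.log n * (n : ℝ) ^ (-δ)) := by
      have : Real.log n * h ≤ Real.log n * (n : ℝ) ^ (-δ) :=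
        mul_le_mul_of_nonneg_left p3 (by linarith)
      exact mul_le_mul_of_nonneg_left this (by positivity)
    have h2 : 640 / c₀ * Real.log n * (n : ℝ) ^ (-δ) ≤ (n : ℝ) ^ δ * (n : ℝ) ^ (-δ) :=
      mul_le_mul_of_nonneg_right a4 (by positivity)
    rw [← Real.rpow_add hn0, add_neg_cancel, Real.rpow_zero] at h2
    have h3 : 640 / c₀ * Real.log n * (n : ℝ) ^ (-δ) =
        4 * (160 / c₀ * (Real.log n * (n : ℝ) ^ (-δ))) := by ring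
    rw [h3] at h2
    linarith
  have hLn : Real.log (n : ℝ) ≤ n := by
    have := Real.log_le_sub_one_of_pos hn0
    linarith
  refine ⟨a3, hh, p4, Real.one_le_rpow hL (by norm_num), hxq, ?_, ?_, ?_, ?_, ?_, ?_⟩
  · have : (JN c₀ n : ℝ) ≤ n := by linarith
    exact_mod_cast this
  · have h1 : (l1N n h : ℝ) ≤ 8 * Real.log n / h + 1 := by
      unfold l1N
      exact (Nat.ceil_lt_add_one (by positivity)).le
    have h2 : 8 * Real.log n / h + 2 ≤ h ^ 2 * n / 1000 := by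
      have h3 : (8 * Real.log n / h + 2) * h ≤ h ^ 2 * n / 1000 * h := by
        have h4 : (8 * Real.log n / h + 2) * h = 8 * Real.log n + 2 * h := by
          field_simp
        have h5 : h ^ 2 * n / 1000 * h = h ^ 3 * n / 1000 := by ring
        rw [h4, h5]
        nlinarith
      exact le_of_mul_le_mul_right h3 hh
    linarith
  · have hC1 : 0 ≤ C1 := by unfold C1; norm_num
    have h1 : C1 * Real.log n * h ≤ C1 * Real.log n := by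
      have : 0 ≤ C1 * Real.log n := mul_nonneg hC1 (by linarith)
      nlinarith
    have h2 : (C1 + 1) * Real.log n = C1 * Real.log n + Real.log n := by ring
    rw [h2] at a6
    linarith
  · linarith
  · rw [div_eq_mul_one_div, sq]
    refine mul_le_mul (by linarith) p5 (by positivity) hn0.le
  · rw [div_le_iff₀ hn0]
    have h1 : 3 * (JN c₀ n : ℝ) + 3 ≤ 3 * Real.log n := by linarith
    refine h1.trans ?_
    have h2 : ε * (3 / ε * Real.log n) ≤ ε * n := mul_le_mul_of_nonneg_left a8 hε.le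
    have h3 : ε * (3 / ε * Real.log n) = 3 * Real.log n := by field_simp
    rw [h3] at h2
    exact h2

theorem num_final (δ c₀ : ℝ) (hδ : 0 < δ) (hδ1 : δ ≤ 1 / 10) (hc : 0 < c₀) (hc1 : c₀ ≤ 1)
    (M : ℕ) : ∃ n₀ : ℕ, ∀ n : ℕ, n₀ ≤ n → ∀ h : ℝ, R2Par δ n h →
    n * ((JN c₀ n + 1) * (Real.exp (-(XS n h 0 / 20)) ^ l1N n h +
      Real.exp (-(n : ℝ) ^ (δ / 20)) * Real.exp (2 * XS n h (JN c₀ n)) ^ l1N n h)) ≤
      Real.sqrt (kap c₀ M n) ^ (2 * JN c₀ n) / (n : ℝ) ^ 2 := by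
  obtain ⟨n₂, hn₂⟩ := num_kap c₀ hc M
  obtain ⟨n₃, hn₃⟩ := num_kap_lower c₀ hc hc1 M
  have hs : ∀ᶠ n : ℕ in Filter.atTop, (25 : ℝ) ≤ (Real.log (n : ℝ)) ^ (1 / 4 : ℝ) :=
    ((tendsto_rpow_atTop (by norm_num)).comp numA_log).eventually_ge_atTop 25
  obtain ⟨n₀, hn₀⟩ := Filter.eventually_atTop.1 ((numB_XS c₀ hc hc1).and
    ((numB_par δ hδ hδ1).and ((Filter.eventually_ge_atTop (3 : ℕ)).and
    (hs.and (numB_dom 2 (δ / 20) (2880 / c₀ + 10) (by positivity))))))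
  refine ⟨max n₀ (max n₂ n₃), fun n hn h hp => ?_⟩
  obtain ⟨a1, a2, a3, a4, a5⟩ := hn₀ n ((le_max_left _ _).trans hn)
  obtain ⟨hk0, hk1, hk2⟩ := hn₂ n ((le_max_left _ _).trans ((le_max_right _ _).trans hn))
  have hk3 := hn₃ n ((le_max_right _ _).trans ((le_max_right _ _).trans hn))
  obtain ⟨p1, hh, p3, p4, p5⟩ := a2 h hp
  obtain ⟨hL, hJ, hx0, hxJ0, hxJ⟩ := a1 h hh
  have hn3 : (3 : ℝ) ≤ n := by exact_mod_cast a3
  have hn0 : (0 : ℝ) < n := by linarith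
  have hLn : Real.log (n : ℝ) ≤ n := by
    have := Real.log_le_sub_one_of_pos hn0
    linarith
  set L := Real.log (n : ℝ) with hLdef
  have hl1 : (l1N n h : ℝ) ≤ 8 * L / h + 1 := by
    unfold l1N
    exact (Nat.ceil_lt_add_one (by positivity)).le
  have hl2 : 8 * L / h ≤ (l1N n h : ℝ) := by
    unfold l1N
    exact Nat.le_ceil _
  have hexp10 : Real.exp (-(10 * L)) = 1 / (n : ℝ) ^ 10 := by
    rw [Real.exp_neg, one_div, hLdef, mul_comm (10 : ℝ), Real.exp_mul, Real.exp_log hn0]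
    congr 1
    exact_mod_cast Real.rpow_natCast (n : ℝ) 10
  have e1 : Real.exp (-(XS n h 0 / 20)) ^ l1N n h ≤ 1 / (n : ℝ) ^ 10 := by
    rw [← Real.exp_nat_mul, ← hexp10]
    apply Real.exp_le_exp.2
    have h1 : XS n h 0 = L ^ (1 / 4 : ℝ) * h := by
      unfold XS; rw [pow_zero, one_mul]
    have h2 : 25 * h ≤ XS n h 0 := by
      rw [h1]
      exact mul_le_mul_of_nonneg_right a4 hh.le
    have h3 : 8 * L / h * (25 * h) ≤ (l1N n h : ℝ) * XS n h 0 :=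
      mul_le_mul hl2 h2 (by positivity) (by positivity)
    have h4 : 8 * L / h * (25 * h) = 200 * L := by
      field_simp
      ring
    rw [h4] at h3
    have h5 : (l1N n h : ℝ) * -(XS n h 0 / 20) = -((l1N n h : ℝ) * XS n h 0) / 20 := by ring
    rw [h5]
    linarith
  have e2 : Real.exp (-(n : ℝ) ^ (δ / 20)) * Real.exp (2 * XS n h (JN c₀ n)) ^ l1N n h ≤
      1 / (n : ℝ) ^ 10 := by
    rw [← Real.exp_nat_mul, ← Real.exp_add, ← hexp10]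
    apply Real.exp_le_exp.2
    have h1 : (l1N n h : ℝ) * (2 * XS n h (JN c₀ n)) ≤
        (8 * L / h + 1) * (2 * (160 / c₀ * (L * h))) :=
      mul_le_mul hl1 (by linarith) (by positivity) (by positivity)
    have h2 : (8 * L / h + 1) * (2 * (160 / c₀ * (L * h))) =
        320 / c₀ * (8 * L ^ 2 + L * h) := by
      field_simp
      ring
    have h3 : L * h ≤ L ^ 2 := by nlinarith
    have h4 : 320 / c₀ * (8 * L ^ 2 + L * h) ≤ 320 / c₀ * (9 * L ^ 2) :=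
      mul_le_mul_of_nonneg_left (by linarith) (by positivity)
    have h5 : 320 / c₀ * (9 * L ^ 2) = 2880 / c₀ * L ^ 2 := by ring
    have h6 : (2880 / c₀ + 10) * L ^ 2 = 2880 / c₀ * L ^ 2 + 10 * L ^ 2 := by ring
    have h7 : L ≤ L ^ 2 := by nlinarith
    rw [h6] at a5
    rw [h2] at h1
    linarith
  have e3 : (n : ℝ) * ((JN c₀ n + 1) * (Real.exp (-(XS n h 0 / 20)) ^ l1N n h +
      Real.exp (-(n : ℝ) ^ (δ / 20)) * Real.exp (2 * XS n h (JN c₀ n)) ^ l1N n h)) ≤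
      n * (n * (1 / (n : ℝ) ^ 10 + 1 / (n : ℝ) ^ 10)) := by
    refine mul_le_mul_of_nonneg_left ?_ hn0.le
    refine mul_le_mul (by linarith) (add_le_add e1 e2) (by positivity) hn0.le
  have e4 : Real.sqrt (kap c₀ M n) ^ (2 * JN c₀ n) = kap c₀ M n ^ JN c₀ n := by
    rw [pow_mul, Real.sq_sqrt hk0.le]
  rw [e4]
  have e5 : 1 / (n : ℝ) / (n : ℝ) ^ 2 ≤ kap c₀ M n ^ JN c₀ n / (n : ℝ) ^ 2 :=
    div_le_div_of_nonneg_right hk3 (by positivity)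
  refine e3.trans (le_trans ?_ e5)
  have h1 : (n : ℝ) * (n * (1 / (n : ℝ) ^ 10 + 1 / (n : ℝ) ^ 10)) = 2 / (n : ℝ) ^ 8 := by
    field_simp
    ring
  have h2 : 1 / (n : ℝ) / (n : ℝ) ^ 2 = 1 / (n : ℝ) ^ 3 := by
    field_simp
  rw [h1, h2, div_le_div_iff₀ (by positivity) (by positivity)]
  have h3 : (n : ℝ) ^ 8 = (n : ℝ) ^ 3 * (n : ℝ) ^ 5 := by ring
  have h4 : (2 : ℝ) ≤ (n : ℝ) ^ 5 := by
    have : (3 : ℝ) ^ 5 ≤ (n : ℝ) ^ 5 := pow_le_pow_left₀ (by norm_num) hn3 5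
    linarith
  rw [h3]
  have h5 : 0 < (n : ℝ) ^ 3 := by positivity
  nlinarith

end RST.P
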