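import Pool.Agent.Lib.MP_7946c7_pr.IfB

/-!
# JOB P/TrG: transfer to bins for a family of thresholds which is not sorted

PROOF. Let `N = Fintype.card κ`, `f : Fin N ≃ κ` (`(Fintype.equivFin κ).symm`) and
`σ = Tuple.sort (x ∘ f)`, a permutation of `Fin N` with `x ∘ f ∘ σ` monotone
(`Tuple.monotone_sort`). Apply `transfer n hn N (x ∘ f ∘ σ)` (file `IfB.lean`): it gives `q`.
Put `A k := lowBins (σ⁻¹ (f⁻¹ k))`. Then `qs q (A k) = (1 + x (f (σ (σ⁻¹ (f⁻¹ k))))) / n = (1+x k)/n`.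
If `x j < x k` then `σ⁻¹ (f⁻¹ j) < σ⁻¹ (f⁻¹ k)` (otherwise monotonicity would give `x k ≤ x j`), so
`A j ⊆ A k` (`lowBins` is monotone). For `Φ : Set (κ → Fin n → Fin n → Prop)` apply the third
conclusion of `transfer` to `Φ' = {R | (fun k => R (σ⁻¹ (f⁻¹ k))) ∈ Φ}`: both sets are equal to the
sets of the statement because `x (f (σ (σ⁻¹ (f⁻¹ k)))) = x k`.
-/

open Finset MeasureTheory

namespace RST.P

theorem transferGen (n : ℕ) (hn : 0 < n) {κ : Type} [Fintype κ] (x : κ → ℝ)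
    (h0 : ∀ k, -1 ≤ x k) (h1 : ∀ k, x k ≤ n - 1) :
    ∃ (N : ℕ) (q : Fin N → ℝ) (A : κ → Finset (Fin N)), IsLaw q ∧
      (∀ k, qs q (A k) = (1 + x k) / n) ∧ (∀ j k, x j < x k → A j ⊆ A k) ∧
      ∀ Φ : Set (κ → Fin n → Fin n → Prop),
        MeasurableSet {ω | (fun k => gr (xlab n ω) (x k)) ∈ Φ} ∧
        (labLaw n {ω | (fun k => gr (xlab n ω) (x k)) ∈ Φ}).toReal =
          PP q {b : Sym2 (Fin n) → Fin N | (fun k => adj (A k) b) ∈ Φ} := by
  classical
  set N := Fintype.card κ with hN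
  set f : Fin N ≃ κ := (Fintype.equivFin κ).symm with hf
  set σ : Equiv.Perm (Fin N) := Tuple.sort (x ∘ f) with hσ
  have hmono : Monotone ((x ∘ f) ∘ σ) := Tuple.monotone_sort (x ∘ f)
  set g : κ → Fin N := fun k => σ.symm (f.symm k) with hg
  have hxg : ∀ k, ((x ∘ f) ∘ σ) (g k) = x k := by
    intro k
    simp [hg]
  obtain ⟨q, hq, hqs, hΦ⟩ := transfer n hn N ((x ∘ f) ∘ σ) hmono (fun k => h0 _) (fun k => h1 _)
  refine ⟨N + 1, q, fun k => lowBins (g k), hq, ?_, ?_, ?_⟩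
  · intro k
    rw [hqs, hxg]
  · intro j k hjk
    have hlt : g j < g k := by
      by_contra hcon
      push Not at hcon
      have := hmono hcon
      rw [hxg, hxg] at this
      linarith
    intro b hb
    unfold lowBins at hb ⊢
    rw [Finset.mem_filter] at hb ⊢
    refine ⟨hb.1, hb.2.trans ?_⟩
    exact_mod_cast hlt.le
  · intro Φ
    have h := hΦ {R | (fun k => R (g k)) ∈ Φ}
    have e1 : {ω : Sym2 (Fin n) → ℝ | (fun k => gr (xlab n ω) (x k)) ∈ Φ} =
        {ω | (fun k => gr (xlab n ω) (((x ∘ f) ∘ σ) k)) ∈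
          ({R | (fun k => R (g k)) ∈ Φ} : Set (Fin N → Fin n → Fin n → Prop))} := by
      ext ω
      rw [Set.mem_ofPred_eq, Set.mem_ofPred_eq, Set.mem_ofPred_eq]
      have : (fun k => gr (xlab n ω) (((x ∘ f) ∘ σ) (g k))) = fun k => gr (xlab n ω) (x k) := by
        funext k
        rw [hxg]
      rw [this]
    rw [e1]
    exact h

end RST.P
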