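import Pool.Agent.Lib.MP_7946c7_pr.P.Mom
import Pool.Agent.Lib.MP_7946c7_pr.P.NumB
import Pool.Agent.Lib.MP_7946c7_pr.P.TrG

/-!
# Stream P: main theorem T2
-/

open Finset MeasureTheory

namespace RST.P

/-- The index set of the thresholds. -/
abbrev Idx (J : ℕ) : Type := Option (Option (Bool × Fin (J + 1)))

/-- The thresholds. -/
noncomputable def thr (n : ℕ) (h : ℝ) (J : ℕ) : Idx J → ℝ
  | none => -h
  | some none => C1 * Real.log n * h
  | some (some (false, i)) => XS n h i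
  | some (some (true, i)) => 11 / 10 * XS n h i

/-- The family of relations from an indexed family. -/
def relsI {V : Type} (J : ℕ) (R : Idx J → V → V → Prop) : Rels V where
  m := R none
  A := R (some none)
  y i := R (some (some (false, ⟨min i J, by omega⟩)))
  z i := R (some (some (true, ⟨min i J, by omega⟩)))

/-- The sets of bins from an indexed family. -/
def binI {B : Type} (J : ℕ) (A : Idx J → Finset B) : BinS B where
  m := A none
  A := A (some none)
  y i := A (some (some (false, ⟨min i J, by omega⟩)))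
  z i := A (some (some (true, ⟨min i J, by omega⟩)))

theorem relsI_gr {V : Type} (n : ℕ) (h : ℝ) (J : ℕ) (lab : Sym2 V → ℝ) :
    relsI J (fun k => gr lab (thr n h J k)) = relsL n h J lab := rfl

theorem relsI_adj {V B : Type} (J : ℕ) (A : Idx J → Finset B) (b : Sym2 V → B) :
    relsI J (fun k => adj (A k) b) = relsB (binI J A) b := rfl

theorem XS_pos {n : ℕ} {h : ℝ} (hn : 1 ≤ (Real.log n) ^ (1 / 4 : ℝ)) (hh : 0 < h) (i : ℕ) :
    0 < XS n h i := by
  unfold XS
  positivity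

theorem XS_lt {n : ℕ} {h : ℝ} (hn : 1 ≤ (Real.log n) ^ (1 / 4 : ℝ)) (hh : 0 < h) {i j : ℕ}
    (hij : i < j) : XS n h i < XS n h j := by
  unfold XS
  have h1 : (0 : ℝ) < (Real.log n) ^ (1 / 4 : ℝ) * h := by positivity
  have h2 : ((21 / 20 : ℝ)) ^ i < (21 / 20) ^ j := pow_lt_pow_right₀ (by norm_num) hij
  exact mul_lt_mul_of_pos_right h2 h1

theorem XS_le {n : ℕ} {h : ℝ} (hn : 1 ≤ (Real.log n) ^ (1 / 4 : ℝ)) (hh : 0 < h) {i j : ℕ}
    (hij : i ≤ j) : XS n h i ≤ XS n h j := by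
  rcases hij.eq_or_lt with rfl | hlt
  · exact le_rfl
  · exact (XS_lt hn hh hlt).le

theorem XS_ge {n : ℕ} {h : ℝ} (hn : 1 ≤ (Real.log n) ^ (1 / 4 : ℝ)) (hh : 0 < h) (i : ℕ) :
    h ≤ XS n h i := by
  refine le_trans ?_ (XS_le hn hh (Nat.zero_le i))
  unfold XS
  simp only [pow_zero, one_mul]
  nlinarith

theorem LL_eq (c₀ : ℝ) (n : ℕ) (h : ℝ) : LL c₀ n * h = 11 / 10 * XS n h (JN c₀ n) := by
  unfold LL XS
  ring

/-- Compatibility of the bins. -/
theorem binI_ok {N : ℕ} {q : Fin N → ℝ} (n : ℕ) (h : ℝ) (J : ℕ) (A : Idx J → Finset (Fin N))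
    (hn : 1 ≤ (Real.log n) ^ (1 / 4 : ℝ)) (hh : 0 < h) (hq : IsLaw q)
    (hA : ∀ k, qs q (A k) = (1 + thr n h J k) / n)
    (hm : ∀ j k, thr n h J j < thr n h J k → A j ⊆ A k) : (binI J A).Ok q n h J where
  law := hq
  mA := hm _ _ (by
    have : (0 : ℝ) ≤ C1 * Real.log n * h := by unfold C1; positivity
    simp only [thr]; linarith)
  my := fun i _ => hm _ _ (by
    have := XS_pos hn hh (min i J)
    simp only [thr]; linarith)
  mz := fun i _ => hm _ _ (by
    have := XS_pos hn hh (min i J)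
    simp only [thr]; linarith)
  yy := fun i j hij hj => by
    rcases hij.eq_or_lt with rfl | hlt
    · exact subset_rfl
    · refine hm _ _ ?_
      simp only [thr]
      have h1 : min i J < min j J := by omega
      exact XS_lt hn hh h1
  zz := fun i hi => by
    rcases hi.eq_or_lt with rfl | hlt
    · exact subset_rfl
    · refine hm _ _ ?_
      simp only [thr]
      have h1 : min i J < min J J := by omega
      have := XS_lt hn hh h1
      linarith
  qm := by
    have := hA none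
    simp only [thr] at this
    rw [show (binI J A).m = A none from rfl, this]
    ring
  qA := by
    have := hA (some none)
    simp only [thr] at this
    rw [show (binI J A).A = A (some none) from rfl, this]
  qy := fun i hi => by
    have := hA (some (some (false, ⟨min i J, by omega⟩)))
    simp only [thr] at this
    rw [show (binI J A).y i = A (some (some (false, ⟨min i J, by omega⟩))) from rfl, this]
    simp only [min_eq_left hi]
  qz := fun i hi => by
    have := hA (some (some (true, ⟨min i J, by omega⟩)))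
    simp only [thr] at this
    rw [show (binI J A).z i = A (some (some (true, ⟨min i J, by omega⟩))) from rfl, this]
    simp only [min_eq_left hi]

/-- The good event for the labels coming from the moment bound. -/
theorem moment_event (δ c₀ : ℝ) (hδ : 0 < δ) (hδ1 : δ ≤ 1 / 10) (hc : 0 < c₀) (hc1 : c₀ ≤ 1)
    (M : ℕ) : ∃ n₀ : ℕ, ∀ n : ℕ, n₀ ≤ n → ∀ h : ℝ, R2Par δ n h →
    ∃ A : Set (Sym2 (Fin n) → ℝ), MeasurableSet A ∧ (labLaw n Aᶜ).toReal ≤ 1 / n ∧
    ∀ ω ∈ A, Sm (relsL n h (JN c₀ n) (xlab n ω)) (Real.sqrt (kap c₀ M n)) (kst δ n h) (kh h)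
      (JN c₀ n) (l1N n h) ≤ 1 / n := by
  obtain ⟨n₁, hn₁⟩ := moment δ hδ hδ1
  obtain ⟨n₂, hn₂⟩ := num_range δ c₀ 1 hδ hδ1 hc hc1 one_pos 0
  obtain ⟨n₃, hn₃⟩ := num_kap c₀ hc M
  obtain ⟨n₄, hn₄⟩ := num_small c₀ hc hc1 M
  obtain ⟨n₅, hn₅⟩ := num_final δ c₀ hδ hδ1 hc hc1 M
  refine ⟨max n₁ (max n₂ (max n₃ (max n₄ n₅))), fun n hn h hR => ?_⟩
  simp only [max_le_iff] at hn
  obtain ⟨hN1, hN2, hN3, hN4, hN5⟩ := hn
  obtain ⟨h3, hh, hh1, hlg, hXJ, hJn, hl1, hCA, hXn, -, -⟩ := hn₂ n hN2 h hR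
  obtain ⟨hk0, hk1, -⟩ := hn₃ n hN3
  set J := JN c₀ n with hJdef
  have hn0 : 0 < n := by omega
  have hnR : (0 : ℝ) < n := by exact_mod_cast hn0
  have hκ0 : 0 < Real.sqrt (kap c₀ M n) := Real.sqrt_pos.mpr hk0
  have hκ1 : Real.sqrt (kap c₀ M n) ≤ 1 := by
    rw [show (1 : ℝ) = Real.sqrt 1 from Real.sqrt_one.symm]
    exact Real.sqrt_le_sqrt hk1
  -- thresholds
  have hlow : ∀ k, -1 ≤ thr n h J k := by
    intro k
    rcases k with _ | _ | ⟨⟨⟩, i⟩ <;> simp only [thr]
    · linarith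
    · have : (0 : ℝ) ≤ C1 * Real.log n * h := by unfold C1; positivity
      linarith
    · have := XS_pos hlg hh i; linarith
    · have := XS_pos hlg hh i; linarith
  have hn3 : (3 : ℝ) ≤ n := by exact_mod_cast h3
  have hup : ∀ k, thr n h J k ≤ n - 1 := by
    intro k
    rcases k with _ | _ | ⟨⟨⟩, i⟩ <;> simp only [thr]
    · linarith
    · exact hCA
    · have h1 := XS_pos hlg hh i
      have h2 : XS n h i ≤ XS n h J := XS_le hlg hh (Nat.lt_succ_iff.mp i.2)
      linarith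
    · have h2 : XS n h i ≤ XS n h J := XS_le hlg hh (Nat.lt_succ_iff.mp i.2)
      linarith
  obtain ⟨N, q, A, hq, hqA, hmono, hΦ⟩ := transferGen n hn0 (thr n h J) hlow hup
  have hok := binI_ok n h J A hlg hh hq hqA hmono
  set κ' := Real.sqrt (kap c₀ M n) with hκ'
  set Φ : Set (Idx J → Fin n → Fin n → Prop) :=
    {R | Sm (relsI J R) κ' (kst δ n h) (kh h) J (l1N n h) ≤ 1 / n} with hΦdef
  refine ⟨{ω | (fun k => gr (xlab n ω) (thr n h J k)) ∈ Φ}, (hΦ Φ).1, ?_, ?_⟩
  · have e1 : {ω : Sym2 (Fin n) → ℝ | (fun k => gr (xlab n ω) (thr n h J k)) ∈ Φ}ᶜ =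
        {ω | (fun k => gr (xlab n ω) (thr n h J k)) ∈ Φᶜ} := rfl
    rw [e1, (hΦ Φᶜ).2]
    have hSm0 : ∀ b : Sym2 (Fin n) → Fin N,
        0 ≤ Sm (relsB (binI J A) b) κ' (kst δ n h) (kh h) J (l1N n h) := by
      intro b
      unfold Sm
      refine Finset.sum_nonneg fun γ _ => ?_
      split_ifs
      · positivity
      · exact le_rfl
    have h5 : PP q {b : Sym2 (Fin n) → Fin N | (fun k => adj (A k) b) ∈ Φᶜ} ≤
        PP q {b : Sym2 (Fin n) → Fin N |
          1 / (n : ℝ) ≤ Sm (relsB (binI J A) b) κ' (kst δ n h) (kh h) J (l1N n h)} := by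
      refine PP_mono hq fun b hb => ?_
      have hb' : ¬ Sm (relsI J (fun k => adj (A k) b)) κ' (kst δ n h) (kh h) J (l1N n h) ≤
        1 / n := hb
      rw [relsI_adj] at hb'
      exact (not_le.mp hb').le
    refine h5.trans ((PP_markov hq hSm0 (by positivity)).trans ?_)
    have hcard : Fintype.card (Fin n) = n := Fintype.card_fin n
    have h6 := hn₁ (Fin n) (by rw [hcard]; exact hN1) h (by rw [hcard]; exact hR) J
      (by rw [hcard]; exact hXJ) (by rw [hcard]; exact hJn) (Fin N) q (binI J A)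
      (by rw [hcard]; exact hok) κ' hκ0 hκ1
      (by rw [hcard]; exact hn₄ n hN4 h hh) (l1N n h) (by rw [hcard]; exact hl1)
    rw [hcard] at h6
    have h7 := hn₅ n hN5 h hR
    have h8 : κ' ^ (2 * J) * EE q (fun b : Sym2 (Fin n) → Fin N =>
        Sm (relsB (binI J A) b) κ' (kst δ n h) (kh h) J (l1N n h)) ≤
        κ' ^ (2 * J) * (1 / (n : ℝ) ^ 2) := by
      refine h6.trans (h7.trans (le_of_eq ?_))
      ring
    have h9 := le_of_mul_le_mul_left h8 (by positivity)
    calc EE q (fun b : Sym2 (Fin n) → Fin N =>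
          Sm (relsB (binI J A) b) κ' (kst δ n h) (kh h) J (l1N n h)) / (1 / (n : ℝ))
        ≤ (1 / (n : ℝ) ^ 2) / (1 / (n : ℝ)) := by gcongr
      _ = 1 / n := by field_simp
  · intro ω hω
    exact hω

end RST.P
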