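import Pool.Agent.Lib.MP_7946c7_pr.IfB
import Pool.Agent.Lib.MP_7946c7_pr.P.Defs

/-!
# JOB P/TreeS: from the sum over the walks to the tree

PROOF. If `T` (a tree) contains a walk `γ : ℕ → V` with `IsSAW T.Adj γ ℓ`, all edges in `ρ.z J` and no
`A`-good vertex among `γ 0, …, γ ℓ`, then `γ' : Fin (ℓ+1) → V`, `γ' t = γ t` is injective, `exN γ' i = γ i`
for `i ≤ ℓ`, so `T` is in the event `{T | ∀ i < ℓ, T.Adj (exN γ' i) (exN γ' (i+1))}` of a `γ'` counted in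
`Sm`. By `PT_mono` and `PT_exists_le` (file `IfB.lean`; `κ := Fin (ℓ+1) → V`,
`s := univ.filter (the condition in Sm)`) the probability is at most
`∑_{γ'} P_T (…) ≤ ∑_{γ'} κ'^(2 #CS) = Sm` by the hypothesis `hcost`.
-/

open Finset

namespace RST.P

open Classical in
theorem tree_sum {V : Type} [Fintype V] [Nonempty V] (c : Sym2 V → ℝ) (hc : ∀ e, 0 < c e)
    (ρ : Rels V) (κ' : ℝ) (h0 : 0 ≤ κ') (k km J ℓ : ℕ)
    (hcost : ∀ γ : ℕ → V, (∀ i ≤ ℓ, ∀ j ≤ ℓ, γ i = γ j → i = j) →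
      PT c {T | ∀ i < ℓ, T.Adj (γ i) (γ (i + 1))} ≤ κ' ^ (2 * (CS ρ k γ J ℓ).card)) :
    PT c {T | ∃ γ : ℕ → V, IsSAW T.Adj γ ℓ ∧ (∀ i < ℓ, ρ.z J (γ i) (γ (i + 1))) ∧
      ∀ i ≤ ℓ, ¬ AGood ρ.m ρ.A km (γ i)} ≤ Sm ρ κ' k km J ℓ := by
  have hex : ∀ (γ : Fin (ℓ + 1) → V) (t : ℕ) (ht : t ≤ ℓ), exN γ t = γ ⟨t, by omega⟩ := by
    intro γ t ht
    unfold exN
    congr 1
    simp [min_eq_left ht]
  set s : Finset (Fin (ℓ + 1) → V) := univ.filter fun γ => Function.Injective γ ∧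
    (∀ i < ℓ, ρ.z J (exN γ i) (exN γ (i + 1))) ∧ ∀ t, ¬ AGood ρ.m ρ.A km (γ t) with hs
  have h1 : PT c {T | ∃ γ : ℕ → V, IsSAW T.Adj γ ℓ ∧ (∀ i < ℓ, ρ.z J (γ i) (γ (i + 1))) ∧
      ∀ i ≤ ℓ, ¬ AGood ρ.m ρ.A km (γ i)} ≤
      PT c {T | ∃ γ ∈ s, T ∈ {T : SimpleGraph V | ∀ i < ℓ, T.Adj (exN γ i) (exN γ (i + 1))}} := by
    refine PT_mono hc ?_
    rintro T - ⟨γ, hγ, hz, hA⟩
    have hγ' : ∀ t ≤ ℓ, exN (fun t : Fin (ℓ + 1) => γ t) t = γ t := by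
      intro t ht
      rw [hex _ t ht]
    refine ⟨fun t => γ t, ?_, ?_⟩
    · rw [hs, Finset.mem_filter]
      refine ⟨Finset.mem_univ _, ?_, ?_, ?_⟩
      · intro a b hab
        exact Fin.ext (hγ.2 a (Nat.lt_succ_iff.mp a.2) b (Nat.lt_succ_iff.mp b.2) hab)
      · intro i hi
        rw [hγ' i hi.le, hγ' (i + 1) hi]
        exact hz i hi
      · intro t
        exact hA t (Nat.lt_succ_iff.mp t.2)
    · intro i hi
      rw [hγ' i hi.le, hγ' (i + 1) hi]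
      exact hγ.1 i hi
  refine h1.trans ((PT_exists_le hc s _).trans ?_)
  unfold Sm
  rw [← Finset.sum_filter]
  refine Finset.sum_le_sum fun γ hγ => ?_
  rw [hs, Finset.mem_filter] at hγ
  refine hcost (exN γ) ?_
  intro i hi j hj hij
  rw [hex γ i hi, hex γ j hj] at hij
  have := hγ.2.1 hij
  simpa using this

end RST.P
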