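import Pool.Agent.Lib.MP_7946c7_pr.D.Main
import Pool.Agent.Lib.MP_7946c7_pr.P.CostC
import Pool.Agent.Lib.MP_7946c7_pr.P.CostR
import Pool.Agent.Lib.MP_7946c7_pr.P.MainA
import Pool.Agent.Lib.MP_7946c7_pr.P.TreeS

/-!
# Stream P: proof of T2
-/

open Finset MeasureTheory

namespace RST.P

/-- Union bound for measurable sets, with `toReal`. -/
theorem compl_inter_toReal {α : Type} [MeasurableSpace α] (μ : Measure α) [IsFiniteMeasure μ]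
    (A B : Set α) (a b : ℝ) (hA : (μ Aᶜ).toReal ≤ a) (hB : (μ Bᶜ).toReal ≤ b) :
    (μ (A ∩ B)ᶜ).toReal ≤ a + b := by
  rw [Set.compl_inter]
  have h1 : μ (Aᶜ ∪ Bᶜ) ≤ μ Aᶜ + μ Bᶜ := measure_union_le _ _
  have h2 : (μ (Aᶜ ∪ Bᶜ)).toReal ≤ (μ Aᶜ + μ Bᶜ).toReal :=
    ENNReal.toReal_mono (by finiteness) h1
  rw [ENNReal.toReal_add (by finiteness) (by finiteness)] at h2
  linarith

theorem compl_iInter_toReal {α : Type} [MeasurableSpace α] (μ : Measure α) [IsFiniteMeasure μ]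
    (J : ℕ) (A : ℕ → Set α) (a : ℝ) (hA : ∀ i < J, MeasurableSet (A i) ∧ (μ (A i)ᶜ).toReal ≤ a) :
    ∃ B : Set α, MeasurableSet B ∧ (μ Bᶜ).toReal ≤ J * a ∧ ∀ ω ∈ B, ∀ i < J, ω ∈ A i := by
  induction J with
  | zero =>
    refine ⟨Set.univ, MeasurableSet.univ, by simp, fun ω _ i hi => absurd hi (Nat.not_lt_zero i)⟩
  | succ J ih =>
    obtain ⟨B, hB1, hB2, hB3⟩ := ih fun i hi => hA i (hi.trans (Nat.lt_succ_self J))
    obtain ⟨hJ1, hJ2⟩ := hA J (Nat.lt_succ_self J)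
    refine ⟨B ∩ A J, hB1.inter hJ1, ?_, ?_⟩
    · refine (compl_inter_toReal μ B (A J) _ _ hB2 hJ2).trans (le_of_eq ?_)
      push_cast
      ring
    · intro ω hω i hi
      rcases Nat.lt_succ_iff_lt_or_eq.mp hi with h | h
      · exact hB3 ω hω.1 i h
      · rw [h]; exact hω.2

instance labLaw_finite (n : ℕ) : IsFiniteMeasure (labLaw n) := by
  unfold labLaw
  infer_instance

/-- Cost of the walks, for labels with the graph facts. -/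
theorem cost_kap (c₀ : ℝ) (hc : 0 < c₀) (n : ℕ) (h : ℝ) (J k M' Cr Cr' : ℕ) (hn : 3 ≤ n)
    (hh : 0 < h) (hlg2 : (Real.log n) ^ Cr' + 1 ≤ (Real.log n) ^ M') (hκ : kap c₀ M' n ≤ 1)
    (hM1 : 1 ≤ (Real.log n) ^ M')
    (hlen : (Real.log n) ^ Cr / h ≤ (n : ℝ) ^ 2) (lab : Sym2 (Fin n) → ℝ)
    (hdiam : ∀ i < J, ∀ u ∈ gg (gr lab (XS n h (i + 1))) univ k,
      ∀ v ∈ gg (gr lab (XS n h (i + 1))) univ k, ∃ (γ : ℕ → Fin n) (ℓ : ℕ),
        IsSAW (gr lab (101 / 100 * XS n h (i + 1))) γ ℓ ∧ γ 0 = u ∧ γ ℓ = v ∧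
          (ℓ : ℝ) ≤ (Real.log n) ^ Cr / h)
    (hrec : ∀ i < J, ∀ (γ : ℕ → Fin n) (ℓ : ℕ),
      IsSAW (gr lab (101 / 100 * XS n h (i + 1))) γ ℓ → (ℓ : ℝ) ≤ (Real.log n) ^ Cr / h →
        ((((range ℓ).filter fun i' => 101 / 100 * XS n h (i + 1) - 2 / c₀ * Real.log n * h <
          lab s(γ i', γ (i' + 1))).card : ℕ) : ℝ) ≤ (Real.log n) ^ Cr')
    (γ : ℕ → Fin n) (ℓ : ℕ) (hγ : ∀ i ≤ ℓ, ∀ j ≤ ℓ, γ i = γ j → i = j) :
    PT (fun e => Real.exp (-(c₀ / h) * lab e)) {T | ∀ i < ℓ, T.Adj (γ i) (γ (i + 1))} ≤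
      Real.sqrt (kap c₀ M' n) ^ (2 * (CS (relsL n h J lab) k γ J ℓ).card) := by
  have hexp : 79 / 2000 * (c₀ / h) * XS n h 0 =
      79 / 2000 * c₀ * (Real.log n) ^ (1 / 4 : ℝ) := by
    unfold XS
    field_simp
  have hkap : (Real.log n) ^ M' * Real.exp (-(79 / 2000 * (c₀ / h) * XS n h 0)) =
      kap c₀ M' n := by
    rw [hexp]; rfl
  have hkap0 : 0 ≤ kap c₀ M' n := by
    unfold kap
    positivity
  have hmain := cost lab n h c₀ ((Real.log n) ^ M') k J (by omega) hh hc hM1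
    (by rw [hkap]; exact hκ) ?_ γ ℓ hγ
  · rw [hkap] at hmain
    refine hmain.trans (le_of_eq ?_)
    rw [pow_mul, Real.sq_sqrt hkap0]
  · intro i hi u hu v hv
    have hmin : min (i + 1) J = i + 1 := min_eq_left (by omega)
    have hGG : GG (relsL n h J lab) k (i + 1) = gg (gr lab (XS n h (i + 1))) univ k := by
      unfold GG relsL
      simp only [hmin]
    rw [hGG] at hu hv
    obtain ⟨ρ, len, hρ, h0, hl, hlen'⟩ := hdiam i hi u hu v hv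
    have hcard := hrec i hi ρ len hρ hlen'
    refine ⟨ρ, len, h0, hl, fun j hj => (hρ.1 j hj).1, ?_⟩
    have hlenN : len ≤ n ^ 2 := by
      have : (len : ℝ) ≤ ((n ^ 2 : ℕ) : ℝ) := by push_cast; exact hlen'.trans hlen
      exact_mod_cast this
    have hcardN : ((range len).filter fun i' =>
        101 / 100 * XS n h (i + 1) - 2 / c₀ * Real.log n * h < lab s(ρ i', ρ (i' + 1))).card ≤
        ⌊(Real.log n) ^ Cr'⌋₊ := Nat.le_floor (by convert hcard)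
    have h1 := resist lab c₀ h (101 / 100 * XS n h (i + 1)) n ⌊(Real.log n) ^ Cr'⌋₊ (by omega) hc hh
      ρ len hρ hlenN (by convert hcardN)
    refine h1.trans ?_
    have h2 : ((⌊(Real.log n) ^ Cr'⌋₊ : ℕ) : ℝ) ≤ (Real.log n) ^ Cr' := by
      refine Nat.floor_le ?_
      positivity
    have h3 : ((⌊(Real.log n) ^ Cr'⌋₊ : ℕ) : ℝ) + 1 ≤ (Real.log n) ^ M' := by linarith
    gcongr

end RST.P

namespace RST

open RST.P in
/-- (T2). With high probability for the labels, with high probability for the tree: every path of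
length `l1N n h` of the tree with labels at most `L h` contains an `A`-good vertex. -/
theorem T2 (δ c₀ ε : ℝ) (hδ : 0 < δ) (hδ1 : δ ≤ 1 / 10) (hc : 0 < c₀) (hc1 : c₀ ≤ 1)
    (hε : 0 < ε) : ∃ n₀ : ℕ, ∀ n : ℕ, n₀ ≤ n → ∀ h : ℝ, R2Par δ n h →
    ∃ A : Set (Sym2 (Fin n) → ℝ), MeasurableSet A ∧ (labLaw n Aᶜ).toReal ≤ ε ∧
    ∀ ω ∈ A, PT (fun e => Real.exp (-(c₀ / h) * xlab n ω e)) {T | ∃ γ : ℕ → Fin n,
      IsSAW T.Adj γ (l1N n h) ∧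
      (∀ i < l1N n h, gr (xlab n ω) (LL c₀ n * h) (γ i) (γ (i + 1))) ∧
      ∀ i ≤ l1N n h, ¬ AGood (gr (xlab n ω) (-h)) (gr (xlab n ω) (C1 * Real.log n * h)) (kh h)
        (γ i)} ≤ 1 / n := by
  obtain ⟨Cr, n₁, hn₁⟩ := giant_diam δ c₀ hδ hδ1 hc hc1
  obtain ⟨Cr', n₂, hn₂⟩ := recent_edges δ c₀ hδ hδ1 hc hc1 Cr
  obtain ⟨n₃, hn₃⟩ := moment_event δ c₀ hδ hδ1 hc hc1 (Cr' + 1)
  obtain ⟨n₄, hn₄⟩ := num_range δ c₀ ε hδ hδ1 hc hc1 hε Cr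
  obtain ⟨n₅, hn₅⟩ := num_kap c₀ hc (Cr' + 1)
  obtain ⟨n₆, hn₆⟩ : ∃ n₆ : ℕ, ∀ n : ℕ, n₆ ≤ n → 2 ≤ Real.log n := by
    obtain ⟨m, hm⟩ := exists_nat_ge (Real.exp 2)
    refine ⟨m, fun n hn => ?_⟩
    have h1 : Real.exp 2 ≤ n := hm.trans (by exact_mod_cast hn)
    rw [Real.le_log_iff_exp_le (lt_of_lt_of_le (Real.exp_pos 2) h1)]
    exact h1
  refine ⟨max n₁ (max n₂ (max n₃ (max n₄ (max n₅ n₆)))), fun n hn h hR => ?_⟩
  simp only [max_le_iff] at hn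
  obtain ⟨hN1, hN2, hN3, hN4, hN5, hN6⟩ := hn
  obtain ⟨h3, hh, hh1, hlg, hXJ, hJn, hl1, hCA, hXn, hlen, heps⟩ := hn₄ n hN4 h hR
  obtain ⟨hk0, hk1, -⟩ := hn₅ n hN5
  have hlog2 := hn₆ n hN6
  set J := JN c₀ n with hJdef
  have hnR : (0 : ℝ) < n := by
    have : 0 < n := by omega
    exact_mod_cast this
  obtain ⟨A₀, hA₀m, hA₀p, hA₀⟩ := hn₃ n hN3 h hR
  have hXle : ∀ i, i < J → XS n h (i + 1) ≤ XS n h J := fun i hi => XS_le hlg hh hi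
  have hLL : 2 * LL c₀ n * h = 22 / 10 * XS n h J := by
    have := LL_eq c₀ n h
    rw [mul_assoc, this]; ring
  -- the sets for the diameters
  have hD : ∀ i : ℕ, ∃ A : Set (Sym2 (Fin n) → ℝ), i < J → (MeasurableSet A ∧
      (labLaw n Aᶜ).toReal ≤ 1 / n) ∧
      ∀ ω ∈ A, ∀ u ∈ gg (gr (xlab n ω) (XS n h (i + 1))) univ (kst δ n h),
        ∀ v ∈ gg (gr (xlab n ω) (XS n h (i + 1))) univ (kst δ n h), ∃ (γ : ℕ → Fin n) (ℓ : ℕ),
          IsSAW (gr (xlab n ω) (101 / 100 * XS n h (i + 1))) γ ℓ ∧ γ 0 = u ∧ γ ℓ = v ∧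
          (ℓ : ℝ) ≤ (Real.log n) ^ Cr / h := by
    intro i
    by_cases hi : i < J
    · have hpos := XS_pos hlg hh J
      obtain ⟨A, h1, h2, h3'⟩ := hn₁ n hN1 h hR (XS n h (i + 1)) (XS_ge hlg hh _)
        (by rw [hLL]; have := hXle i hi; linarith)
      exact ⟨A, fun _ => ⟨⟨h1, h2⟩, h3'⟩⟩
    · exact ⟨Set.univ, fun h' => absurd h' hi⟩
  choose AD hAD using hD
  have hE : ∀ i : ℕ, ∃ A : Set (Sym2 (Fin n) → ℝ), i < J → (MeasurableSet A ∧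
      (labLaw n Aᶜ).toReal ≤ 1 / n) ∧
      ∀ ω ∈ A, ∀ (γ : ℕ → Fin n) (ℓ : ℕ),
        IsSAW (gr (xlab n ω) (101 / 100 * XS n h (i + 1))) γ ℓ →
        (ℓ : ℝ) ≤ (Real.log n) ^ Cr / h →
        ((((range ℓ).filter fun i' => 101 / 100 * XS n h (i + 1) - 2 / c₀ * Real.log n * h <
          xlab n ω s(γ i', γ (i' + 1))).card : ℕ) : ℝ) ≤ (Real.log n) ^ Cr' := by
    intro i
    by_cases hi : i < J
    · have hpos := XS_pos hlg hh J
      have hpos' := XS_pos hlg hh (i + 1)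
      obtain ⟨A, h1, h2, h3'⟩ := hn₂ n hN2 h hR (101 / 100 * XS n h (i + 1)) (by linarith)
        (by rw [hLL]; have := hXle i hi; linarith)
      refine ⟨A, fun _ => ⟨⟨h1, h2⟩, fun ω hω γ ℓ hγ hl => ?_⟩⟩
      convert h3' ω hω γ ℓ hγ hl
    · exact ⟨Set.univ, fun h' => absurd h' hi⟩
  choose AE hAE using hE
  obtain ⟨B₁, hB₁m, hB₁p, hB₁⟩ := compl_iInter_toReal (labLaw n) J AD (1 / n)
    fun i hi => (hAD i hi).1
  obtain ⟨B₂, hB₂m, hB₂p, hB₂⟩ := compl_iInter_toReal (labLaw n) J AE (1 / n)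
    fun i hi => (hAE i hi).1
  refine ⟨A₀ ∩ (B₁ ∩ B₂), hA₀m.inter (hB₁m.inter hB₂m), ?_, ?_⟩
  · refine (compl_inter_toReal (labLaw n) A₀ (B₁ ∩ B₂) _ _ hA₀p
      (compl_inter_toReal (labLaw n) B₁ B₂ _ _ hB₁p hB₂p)).trans (le_trans ?_ heps)
    rw [← sub_nonneg]
    have : (3 * (J : ℝ) + 3) / n - (1 / n + (J * (1 / n) + J * (1 / n))) = (J + 2) / n := by
      field_simp
      ring
    rw [this]
    positivity
  · rintro ω ⟨hω0, hω1, hω2⟩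
    have : Nonempty (Fin n) := ⟨⟨0, by omega⟩⟩
    have hlog1 : (1 : ℝ) ≤ Real.log n := by linarith
    have hlg2 : (Real.log n) ^ Cr' + 1 ≤ (Real.log n) ^ (Cr' + 1) := by
      have h1 : (1 : ℝ) ≤ (Real.log n) ^ Cr' := one_le_pow₀ hlog1
      rw [pow_succ]
      nlinarith
    have hcost := cost_kap c₀ hc n h J (kst δ n h) (Cr' + 1) Cr Cr' h3 hh hlg2 hk1
      (one_le_pow₀ hlog1) hlen (xlab n ω)
      (fun i hi => (hAD i hi).2 ω (hB₁ ω hω1 i hi))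
      (fun i hi => (hAE i hi).2 ω (hB₂ ω hω2 i hi))
    have hts := tree_sum (V := Fin n) (fun e => Real.exp (-(c₀ / h) * xlab n ω e))
      (fun e => Real.exp_pos _) (relsL n h J (xlab n ω)) (Real.sqrt (kap c₀ (Cr' + 1) n))
      (Real.sqrt_nonneg _) (kst δ n h) (kh h) J (l1N n h)
      (fun γ hγ => hcost γ (l1N n h) hγ)
    refine le_trans (le_trans (le_of_eq ?_) hts) (hA₀ ω hω0)
    have hz : (relsL n h J (xlab n ω)).z J = gr (xlab n ω) (LL c₀ n * h) := by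
      unfold relsL
      simp only [min_self]
      rw [LL_eq c₀ n h]
    rw [hz]
    rfl

end RST
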