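import Pool.Agent.Lib.MP_7946c7_pr.P.Cross
import Pool.Agent.Lib.MP_7946c7_pr.P.Defs

/-!
# JOB P/AvA: probability of AVOID and {explored set = D}

Notation: `ρ = relsB S b`, `Y₁ = {v ∈ Y : lev v = 0}`, `Y₂ = {v ∈ Y : lev v ≠ 0}`, `V' = Yᶜ \ D`,
`pm = qs q S.m < 1`, `pA = qs q S.A`, `S.m ⊆ S.A`.

PROOF. If `Y₁ ⊆ D ⊆ Y₁ ∪ Yᶜ` fails, the event `TT = D` is empty (`expl_eq_iff`, file `IfG.lean`, with
`Q = Y₁`, `W = Yᶜ`), the left side is `0` and the right side is `≥ 0`. Otherwise `D`, `Y₂`, `V'` are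
pairwise disjoint. By `expl_eq_iff`
 `TT = D ⟺ E_D ∧ ∀ u ∈ D, ∀ w ∈ V', ¬ adj S.m b u w`, `E_D : expl (adj S.m b) Y₁ (D \ Y₁) = D`
(`W \ D = Yᶜ \ D = V'`); `E_D` depends only on the edges inside `D`. On `TT = D`, `Vp = V'`, so
`Avoid ∧ TT = D` is `E_D ∧ ∀ u ∈ D ∪ Y₂, ∀ w ∈ V', b s(u,w) ∉ bad u w b`, where
 `bad u w b = S.A` if `u ∈ D`, `w ∈ gg (adj S.m b) V' km`;  `= S.m` if `u ∈ D`, `w ∉ gg ..`;
 `bad u w b = S.y (lev u)` if `u ∈ Y₂` and `w ∈ gg (adj (S.y (lev u)) b) V' k`, `= ∅` otherwise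
(use `S.m ⊆ S.A`, and `u ≠ w`). `bad u w` depends only on the edges inside `V'` (`gg R V' k` depends on
`R` on pairs of vertices of `V'` only). `cross_prob` with `U = D ∪ Y₂`, `W = V'`, `F = 1`, `G = 1(E_D)`
gives `P(Avoid ∧ TT = D) = P(E_D) * EE (∏_{u∈D} (1-pm)^{|V'|-g} (1-pA)^g ∏_{v ∈ Y₂} (1-p_{lev v})^{g_v})`
with `g = |gg (adj S.m b) V' km|`, `g_v = |gg (adj (S.y (lev v)) b) V' k|`, and with `U = D`,
`bad = S.m`: `P(TT = D) = P(E_D) (1-pm)^{|D||V'|}`. Finally
`(1-pm)^{|V'|-g} (1-pA)^g ≤ (1-pm)^{|V'|} exp (-(pA-pm) g)` because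
`1-pA ≤ (1-pm)(1-(pA-pm)) ≤ (1-pm) exp (-(pA-pm))` (first: `(1-pm)(1-pA+pm) - (1-pA) = pm (pA-pm) ≥ 0`),
and `(1-p)^g ≤ exp (-p g)`.
-/

open Finset

namespace RST.P

section AvAaux

variable {V B : Type}

lemma AvA_rch_congr {R R' : V → V → Prop} {W : Finset V}
    (h : ∀ u ∈ W, ∀ v ∈ W, (R u v ↔ R' u v)) (u v : V) : Rch R W u v ↔ Rch R' W u v := by
  have e : (fun x y => R x y ∧ x ∈ W ∧ y ∈ W) = (fun x y => R' x y ∧ x ∈ W ∧ y ∈ W) := by
    funext x y
    apply propext
    constructor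
    · rintro ⟨h1, h2, h3⟩
      exact ⟨(h x h2 y h3).1 h1, h2, h3⟩
    · rintro ⟨h1, h2, h3⟩
      exact ⟨(h x h2 y h3).2 h1, h2, h3⟩
  unfold Rch
  rw [e]

lemma AvA_cmp_congr {R R' : V → V → Prop} {W : Finset V}
    (h : ∀ u ∈ W, ∀ v ∈ W, (R u v ↔ R' u v)) (v : V) : cmp R W v = cmp R' W v := by
  unfold cmp
  ext w
  simp only [mem_filter, AvA_rch_congr h]

lemma AvA_gg_congr {R R' : V → V → Prop} {W : Finset V}
    (h : ∀ u ∈ W, ∀ v ∈ W, (R u v ↔ R' u v)) (k : ℕ) : gg R W k = gg R' W k := by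
  unfold gg
  ext v
  simp only [mem_filter, AvA_cmp_congr h]

lemma AvA_expl_congr {R R' : V → V → Prop} {Q W : Finset V}
    (h : ∀ u, (u ∈ Q ∨ u ∈ W) → ∀ v, (v ∈ Q ∨ v ∈ W) → (R u v ↔ R' u v)) :
    expl R Q W = expl R' Q W := by
  have h' : ∀ u ∈ W, ∀ v ∈ W, (R u v ↔ R' u v) :=
    fun u hu v hv => h u (Or.inr hu) v (Or.inr hv)
  unfold expl
  ext w
  simp only [mem_union, mem_filter]
  constructor
  · rintro (h1 | ⟨h1, q, hq, u, hu, h2, h3⟩)
    · exact Or.inl h1
    · exact Or.inr ⟨h1, q, hq, u, hu, (h q (Or.inl hq) u (Or.inr hu)).1 h2,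
        (AvA_rch_congr h' u w).1 h3⟩
  · rintro (h1 | ⟨h1, q, hq, u, hu, h2, h3⟩)
    · exact Or.inl h1
    · exact Or.inr ⟨h1, q, hq, u, hu, (h q (Or.inl hq) u (Or.inr hu)).2 h2,
        (AvA_rch_congr h' u w).2 h3⟩

lemma AvA_gg_dep (A : Finset B) (W : Finset V) (k : ℕ) :
    DependsOn (fun b : Sym2 V → B => gg (adj A b) W k) {e : Sym2 V | ∀ v ∈ e, v ∈ W} := by
  intro b b' hb
  apply AvA_gg_congr
  intro u hu v hv
  unfold adj
  rw [hb s(u, v) (by
    intro x hx
    rcases Sym2.mem_iff.1 hx with rfl | rfl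
    · exact hu
    · exact hv)]

lemma AvA_expl_dep (A : Finset B) (Q W : Finset V) (U : Finset V) (hQ : Q ⊆ U) (hW : W ⊆ U) :
    DependsOn (fun b : Sym2 V → B => expl (adj A b) Q W) {e : Sym2 V | ∀ v ∈ e, v ∈ U} := by
  intro b b' hb
  apply AvA_expl_congr
  intro u hu v hv
  unfold adj
  have hu' : u ∈ U := hu.elim (fun h => hQ h) (fun h => hW h)
  have hv' : v ∈ U := hv.elim (fun h => hQ h) (fun h => hW h)
  rw [hb s(u, v) (by
    intro x hx
    rcases Sym2.mem_iff.1 hx with rfl | rfl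
    · exact hu'
    · exact hv')]

lemma AvA_gg_sub (R : V → V → Prop) (W : Finset V) (k : ℕ) : gg R W k ⊆ W := by
  unfold gg
  exact Finset.filter_subset _ _

lemma AvA_qs_nonneg [Fintype B] {q : B → ℝ} (hq : IsLaw q) (A : Finset B) : 0 ≤ qs q A :=
  Finset.sum_nonneg fun x _ => hq.nonneg x

lemma AvA_qs_le_one [Fintype B] {q : B → ℝ} (hq : IsLaw q) (A : Finset B) : qs q A ≤ 1 := by
  rw [← hq.sum_one]
  exact Finset.sum_le_univ_sum_of_nonneg fun x => hq.nonneg x

lemma AvA_qs_mono [Fintype B] {q : B → ℝ} (hq : IsLaw q) {A A' : Finset B} (h : A ⊆ A') :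
    qs q A ≤ qs q A' :=
  Finset.sum_le_sum_of_subset_of_nonneg h fun x _ _ => hq.nonneg x

/-- the elementary inequality `1 - a ≤ (1 - m) exp (-(a - m))` -/
lemma AvA_ineq {a m : ℝ} (hm : 0 ≤ m) (hm1 : m ≤ 1) (ha : m ≤ a) :
    1 - a ≤ (1 - m) * Real.exp (-(a - m)) := by
  have h1 : 1 - (a - m) ≤ Real.exp (-(a - m)) := by
    have := Real.add_one_le_exp (-(a - m))
    linarith
  have h2 : 1 - a ≤ (1 - m) * (1 - (a - m)) := by
    have : 0 ≤ m * (a - m) := mul_nonneg hm (by linarith)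
    nlinarith
  exact h2.trans (mul_le_mul_of_nonneg_left h1 (by linarith))

/-- product over `W` of an expression which differs on a subset `g` -/
lemma AvA_prod_if [DecidableEq V] (W g : Finset V) (hg : g ⊆ W) (x y : ℝ) :
    ∏ w ∈ W, (if w ∈ g then x * y else x) = x ^ W.card * y ^ g.card := by
  have h1 : ∀ w ∈ W, (if w ∈ g then x * y else x) = x * (if w ∈ g then y else 1) := by
    intro w _
    split_ifs <;> simp
  rw [Finset.prod_congr rfl h1, Finset.prod_mul_distrib, Finset.prod_const,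
    Finset.prod_ite_mem, Finset.prod_const, Finset.inter_eq_right.2 hg]

end AvAaux

variable {V B : Type} [Fintype V] [DecidableEq V] [Fintype B] [DecidableEq B]

open Classical in
/-- forbidden sets of bins -/
noncomputable def AvAbad (S : BinS B) (k km : ℕ) (D V' : Finset V) (lev : V → ℕ) (u w : V)
    (b : Sym2 V → B) : Finset B :=
  if u ∈ D then (if w ∈ gg (adj S.m b) V' km then S.A else S.m)
  else (if w ∈ gg (adj (S.y (lev u)) b) V' k then S.y (lev u) else ∅)

lemma AvAbad_dep (S : BinS B) (k km : ℕ) (D V' : Finset V) (lev : V → ℕ) (u w : V) :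
    DependsOn (AvAbad S k km D V' lev u w) {e : Sym2 V | ∀ v ∈ e, v ∈ V'} := by
  intro b b' hb
  have h1 : gg (adj S.m b) V' km = gg (adj S.m b') V' km := AvA_gg_dep S.m V' km hb
  have h2 : gg (adj (S.y (lev u)) b) V' k = gg (adj (S.y (lev u)) b') V' k :=
    AvA_gg_dep (S.y (lev u)) V' k hb
  unfold AvAbad
  rw [h1, h2]

lemma AvA_TT (S : BinS B) (Y : Finset V) (lev : V → ℕ) (b : Sym2 V → B) :
    TT (relsB S b) Y lev = expl (adj S.m b) (Y.filter fun v => lev v = 0) Yᶜ := by
  unfold TT relsB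
  congr 1
  ext v
  simp

/-- the event is a crossing event -/
lemma AvA_event (S : BinS B) (hS : S.m ⊆ S.A) (k km : ℕ) (Y D : Finset V) (lev : V → ℕ)
    (hD1 : (Y.filter fun v => lev v = 0) ⊆ D) (hD2 : D ⊆ (Y.filter fun v => lev v = 0) ∪ Yᶜ)
    (b : Sym2 V → B) :
    (Avoid (relsB S b) k km Y lev ∧ TT (relsB S b) Y lev = D) ↔
      (expl (adj S.m b) (Y.filter fun v => lev v = 0) (D \ (Y.filter fun v => lev v = 0)) = D ∧
        ∀ u ∈ D ∪ (Y.filter fun v => lev v ≠ 0), ∀ w ∈ Yᶜ \ D,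
          b s(u, w) ∉ AvAbad S k km D (Yᶜ \ D) lev u w b) := by
  have hdis : Disjoint (Y.filter fun v => lev v = 0) Yᶜ := by
    rw [Finset.disjoint_left]
    intro v hv hv'
    exact (Finset.mem_compl.1 hv') (Finset.mem_filter.1 hv).1
  have hVp : TT (relsB S b) Y lev = D → Vp (relsB S b) Y lev = Yᶜ \ D := by
    intro h
    unfold Vp
    rw [h]
    ext v
    simp
  have hiff := expl_eq_iff (adj S.m b) (Y.filter fun v => lev v = 0) Yᶜ D hdis
  rw [← AvA_TT] at hiff
  constructor
  · rintro ⟨⟨hA1, hA2⟩, hT⟩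
    rw [hT, hVp hT] at hA1
    rw [hVp hT] at hA2
    obtain ⟨_, _, h3, h4⟩ := hiff.1 hT
    refine ⟨h3, fun u hu w hw => ?_⟩
    have hwD : w ∉ D := (Finset.mem_sdiff.1 hw).2
    have hwY : w ∉ Y := Finset.mem_compl.1 (Finset.mem_sdiff.1 hw).1
    unfold AvAbad
    by_cases huD : u ∈ D
    · have hne : u ≠ w := fun h => hwD (h ▸ huD)
      rw [if_pos huD]
      split_ifs with hg
      · intro hb
        exact hA1 u huD w hg ⟨hne, hb⟩
      · intro hb
        exact h4 u huD w hw ⟨hne, hb⟩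
    · rw [if_neg huD]
      have huY : u ∈ Y ∧ lev u ≠ 0 := by
        rcases Finset.mem_union.1 hu with h | h
        · exact absurd h huD
        · exact Finset.mem_filter.1 h
      have hne : u ≠ w := fun h => hwY (h ▸ huY.1)
      split_ifs with hg
      · intro hb
        exact hA2 u huY.1 huY.2 w hg ⟨hne, hb⟩
      · simp
  · rintro ⟨h3, h4⟩
    have hT : TT (relsB S b) Y lev = D := by
      rw [hiff]
      refine ⟨hD1, hD2, h3, fun u hu w hw hadj => ?_⟩
      have h5 := h4 u (Finset.mem_union_left _ hu) w hw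
      unfold AvAbad at h5
      rw [if_pos hu] at h5
      split_ifs at h5 with hg
      · exact h5 (hS hadj.2)
      · exact h5 hadj.2
    refine ⟨⟨?_, ?_⟩, hT⟩
    · rw [hT, hVp hT]
      intro u hu w hw hadj
      have hwV := AvA_gg_sub _ _ _ hw
      have h5 := h4 u (Finset.mem_union_left _ hu) w hwV
      unfold AvAbad at h5
      have hw' : w ∈ gg (adj S.m b) (Yᶜ \ D) km := hw
      rw [if_pos hu, if_pos hw'] at h5
      exact h5 hadj.2
    · rw [hVp hT]
      intro v hv hlev w hw hadj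
      have hwV := AvA_gg_sub _ _ _ hw
      have hvD : v ∉ D := by
        intro h
        rcases Finset.mem_union.1 (hD2 h) with h' | h'
        · exact hlev (Finset.mem_filter.1 h').2
        · exact (Finset.mem_compl.1 h') hv
      have h5 := h4 v (Finset.mem_union_right _ (Finset.mem_filter.2 ⟨hv, hlev⟩)) w hwV
      unfold AvAbad at h5
      rw [if_neg hvD] at h5
      have hw' : w ∈ gg (adj (S.y (lev v)) b) (Yᶜ \ D) k := hw
      rw [if_pos hw'] at h5
      exact h5 hadj.2

/-- the event `TT = D` is a crossing event -/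
lemma AvA_event0 (S : BinS B) (Y D : Finset V) (lev : V → ℕ)
    (hD1 : (Y.filter fun v => lev v = 0) ⊆ D) (hD2 : D ⊆ (Y.filter fun v => lev v = 0) ∪ Yᶜ)
    (b : Sym2 V → B) :
    TT (relsB S b) Y lev = D ↔
      (expl (adj S.m b) (Y.filter fun v => lev v = 0) (D \ (Y.filter fun v => lev v = 0)) = D ∧
        ∀ u ∈ D, ∀ w ∈ Yᶜ \ D, b s(u, w) ∉ S.m) := by
  have hdis : Disjoint (Y.filter fun v => lev v = 0) Yᶜ := by
    rw [Finset.disjoint_left]
    intro v hv hv'
    exact (Finset.mem_compl.1 hv') (Finset.mem_filter.1 hv).1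
  have hiff := expl_eq_iff (adj S.m b) (Y.filter fun v => lev v = 0) Yᶜ D hdis
  rw [← AvA_TT] at hiff
  rw [hiff]
  constructor
  · rintro ⟨_, _, h3, h4⟩
    refine ⟨h3, fun u hu w hw hb => ?_⟩
    have hne : u ≠ w := fun h => (Finset.mem_sdiff.1 hw).2 (h ▸ hu)
    exact h4 u hu w hw ⟨hne, hb⟩
  · rintro ⟨h3, h4⟩
    exact ⟨hD1, hD2, h3, fun u hu w hw hadj => h4 u hu w hw hadj.2⟩

open Classical in
theorem avoid_decomp {q : B → ℝ} (hq : IsLaw q) (S : BinS B) (hS : S.m ⊆ S.A)
    (k km : ℕ) (Y D : Finset V) (lev : V → ℕ) :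
    PP q {b : Sym2 V → B | Avoid (relsB S b) k km Y lev ∧ TT (relsB S b) Y lev = D} ≤
      PP q {b : Sym2 V → B | TT (relsB S b) Y lev = D} *
      EE q (fun b : Sym2 V → B =>
        Real.exp (-((qs q S.A - qs q S.m) * D.card * (gg (adj S.m b) (Yᶜ \ D) km).card)) *
          ∏ v ∈ Y.filter (fun v => lev v ≠ 0),
            Real.exp (-(qs q (S.y (lev v)) * (gg (adj (S.y (lev v)) b) (Yᶜ \ D) k).card))) := by
  by_cases hD : (Y.filter fun v => lev v = 0) ⊆ D ∧ D ⊆ (Y.filter fun v => lev v = 0) ∪ Yᶜ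
  · obtain ⟨hD1, hD2⟩ := hD
    set V' : Finset V := Yᶜ \ D with hV'
    set Y2 : Finset V := Y.filter (fun v => lev v ≠ 0) with hY2
    set G : (Sym2 V → B) → ℝ := fun b =>
      if expl (adj S.m b) (Y.filter fun v => lev v = 0) (D \ (Y.filter fun v => lev v = 0)) = D
      then 1 else 0 with hG
    have hY2D : Disjoint D Y2 := by
      rw [Finset.disjoint_left]
      intro v hv hv'
      rcases Finset.mem_union.1 (hD2 hv) with h' | h'
      · exact (Finset.mem_filter.1 hv').2 (Finset.mem_filter.1 h').2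
      · exact (Finset.mem_compl.1 h') (Finset.mem_filter.1 hv').1
    have hDV' : Disjoint D V' := by
      rw [Finset.disjoint_left]
      intro v hv hv'
      exact (Finset.mem_sdiff.1 hv').2 hv
    have hUV' : Disjoint (D ∪ Y2) V' := by
      rw [Finset.disjoint_union_left]
      refine ⟨hDV', ?_⟩
      rw [Finset.disjoint_left]
      intro v hv hv'
      exact (Finset.mem_compl.1 (Finset.mem_sdiff.1 hv').1) (Finset.mem_filter.1 hv).1
    have hGdep : ∀ U : Finset V, D ⊆ U → DependsOn G {e : Sym2 V | ∀ v ∈ e, v ∈ U} := by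
      intro U hU b b' hb
      have := AvA_expl_dep S.m (Y.filter fun v => lev v = 0)
        (D \ (Y.filter fun v => lev v = 0)) U (hD1.trans hU)
        (Finset.sdiff_subset.trans hU) hb
      simp only at this
      rw [hG]
      simp only
      rw [this]
    have hG0 : ∀ b, 0 ≤ G b := by
      intro b
      rw [hG]
      simp only
      split_ifs <;> norm_num
    -- first probability
    have e1 : PP q {b : Sym2 V → B | Avoid (relsB S b) k km Y lev ∧ TT (relsB S b) Y lev = D} =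
        EE q G * EE q (fun b => (fun _ => (1 : ℝ)) b *
          ∏ u ∈ D ∪ Y2, ∏ w ∈ V', (1 - qs q (AvAbad S k km D V' lev u w b))) := by
      rw [← cross_prob hq (D ∪ Y2) V' hUV' (AvAbad S k km D V' lev)
        (fun u _ w _ => AvAbad_dep S k km D V' lev u w) (fun _ => 1) G
        (by intro b b' _; rfl) (hGdep _ Finset.subset_union_left)]
      unfold PP
      congr 1
      funext b
      have hev := AvA_event S hS k km Y D lev hD1 hD2 b
      rw [Set.mem_ofPred_eq]
      by_cases h : Avoid (relsB S b) k km Y lev ∧ TT (relsB S b) Y lev = D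
      · rw [if_pos h]
        obtain ⟨h1, h2⟩ := hev.1 h
        have h2' : ∀ u ∈ D ∪ Y2, ∀ w ∈ V', b s(u, w) ∉ AvAbad S k km D V' lev u w b := h2
        rw [hG]
        simp only
        rw [if_pos h1, if_pos h2']
        norm_num
      · rw [if_neg h]
        rw [hG]
        simp only
        by_cases h1 : expl (adj S.m b) (Y.filter fun v => lev v = 0)
            (D \ (Y.filter fun v => lev v = 0)) = D
        · have h2' : ¬ ∀ u ∈ D ∪ Y2, ∀ w ∈ V', b s(u, w) ∉ AvAbad S k km D V' lev u w b :=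
            fun h2 => h (hev.2 ⟨h1, h2⟩)
          rw [if_neg h2']
          norm_num
        · rw [if_neg h1]
          norm_num
    have e2 : PP q {b : Sym2 V → B | TT (relsB S b) Y lev = D} =
        EE q G * ((1 - qs q S.m) ^ V'.card) ^ D.card := by
      have e3 : EE q (fun b : Sym2 V → B => (fun _ => (1 : ℝ)) b *
          ∏ u ∈ D, ∏ w ∈ V', (1 - qs q ((fun _ _ _ => S.m : V → V → (Sym2 V → B) → Finset B)
            u w b))) = ((1 - qs q S.m) ^ V'.card) ^ D.card := by
        have : (fun b : Sym2 V → B => (fun _ => (1 : ℝ)) b *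
          ∏ u ∈ D, ∏ w ∈ V', (1 - qs q ((fun _ _ _ => S.m : V → V → (Sym2 V → B) → Finset B)
            u w b))) = fun _ => ((1 - qs q S.m) ^ V'.card) ^ D.card := by
          funext b
          simp only [one_mul, Finset.prod_const]
        rw [this, EE_const hq]
      rw [← e3, ← cross_prob hq D V' hDV' (fun _ _ _ => S.m)
        (fun u _ w _ => by intro b b' _; rfl) (fun _ => 1) G
        (by intro b b' _; rfl) (hGdep _ (Finset.Subset.refl D))]
      unfold PP
      congr 1
      funext b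
      have hev := AvA_event0 S Y D lev hD1 hD2 b
      rw [Set.mem_ofPred_eq]
      by_cases h : TT (relsB S b) Y lev = D
      · rw [if_pos h]
        obtain ⟨h1, h2⟩ := hev.1 h
        have h2' : ∀ u ∈ D, ∀ w ∈ V', b s(u, w) ∉ S.m := h2
        rw [hG]
        simp only
        rw [if_pos h1, if_pos h2']
        norm_num
      · rw [if_neg h]
        rw [hG]
        simp only
        by_cases h1 : expl (adj S.m b) (Y.filter fun v => lev v = 0)
            (D \ (Y.filter fun v => lev v = 0)) = D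
        · have h2' : ¬ ∀ u ∈ D, ∀ w ∈ V', b s(u, w) ∉ S.m := fun h2 => h (hev.2 ⟨h1, h2⟩)
          rw [if_neg h2']
          norm_num
        · rw [if_neg h1]
          norm_num
    rw [e1, e2, mul_assoc]
    refine mul_le_mul_of_nonneg_left ?_ (EE_nonneg hq hG0)
    rw [← EE_mul_left]
    refine EE_mono hq fun b => ?_
    rw [one_mul, Finset.prod_union hY2D]
    have hpm0 := AvA_qs_nonneg hq S.m
    have hpm1 := AvA_qs_le_one hq S.m
    have hpA1 := AvA_qs_le_one hq S.A
    have hmA := AvA_qs_mono hq hS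
    have f1 : ∏ u ∈ D, ∏ w ∈ V', (1 - qs q (AvAbad S k km D V' lev u w b)) ≤
        ((1 - qs q S.m) ^ V'.card) ^ D.card *
        Real.exp (-((qs q S.A - qs q S.m) * D.card * (gg (adj S.m b) V' km).card)) := by
      have g1 : ∀ u ∈ D, ∏ w ∈ V', (1 - qs q (AvAbad S k km D V' lev u w b)) ≤
          (1 - qs q S.m) ^ V'.card *
            Real.exp (-(qs q S.A - qs q S.m)) ^ (gg (adj S.m b) V' km).card := by
        intro u hu
        rw [← AvA_prod_if V' (gg (adj S.m b) V' km) (AvA_gg_sub _ _ _)]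
        refine Finset.prod_le_prod (fun w _ => ?_) (fun w _ => ?_)
        · have := AvA_qs_le_one hq (AvAbad S k km D V' lev u w b)
          linarith
        · unfold AvAbad
          rw [if_pos hu]
          by_cases hw : w ∈ gg (adj S.m b) V' km
          · rw [if_pos hw, if_pos hw]
            exact AvA_ineq hpm0 hpm1 hmA
          · rw [if_neg hw, if_neg hw]
      calc ∏ u ∈ D, ∏ w ∈ V', (1 - qs q (AvAbad S k km D V' lev u w b))
          ≤ ∏ u ∈ D, ((1 - qs q S.m) ^ V'.card *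
            Real.exp (-(qs q S.A - qs q S.m)) ^ (gg (adj S.m b) V' km).card) := by
            refine Finset.prod_le_prod (fun u _ => Finset.prod_nonneg fun w _ => ?_) g1
            have := AvA_qs_le_one hq (AvAbad S k km D V' lev u w b)
            linarith
        _ = _ := by
            rw [Finset.prod_const, mul_pow, ← Real.exp_nat_mul, ← Real.exp_nat_mul]
            congr 2
            ring
    have f2 : ∏ u ∈ Y2, ∏ w ∈ V', (1 - qs q (AvAbad S k km D V' lev u w b)) ≤
        ∏ v ∈ Y2, Real.exp (-(qs q (S.y (lev v)) * (gg (adj (S.y (lev v)) b) V' k).card)) := by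
      refine Finset.prod_le_prod (fun u _ => Finset.prod_nonneg fun w _ => ?_) (fun u hu => ?_)
      · have := AvA_qs_le_one hq (AvAbad S k km D V' lev u w b)
        linarith
      · have huD : u ∉ D := fun h => (Finset.disjoint_left.1 hY2D h) hu
        have g2 : Real.exp (-(qs q (S.y (lev u)) * (gg (adj (S.y (lev u)) b) V' k).card)) =
            1 ^ V'.card * Real.exp (-(qs q (S.y (lev u)))) ^
              (gg (adj (S.y (lev u)) b) V' k).card := by
          rw [one_pow, one_mul, ← Real.exp_nat_mul]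
          congr 1
          ring
        rw [g2, ← AvA_prod_if V' (gg (adj (S.y (lev u)) b) V' k) (AvA_gg_sub _ _ _)]
        refine Finset.prod_le_prod (fun w _ => ?_) (fun w _ => ?_)
        · have := AvA_qs_le_one hq (AvAbad S k km D V' lev u w b)
          linarith
        · unfold AvAbad
          rw [if_neg huD]
          by_cases hw : w ∈ gg (adj (S.y (lev u)) b) V' k
          · rw [if_pos hw, if_pos hw, one_mul]
            have := Real.add_one_le_exp (-(qs q (S.y (lev u))))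
            linarith
          · rw [if_neg hw, if_neg hw]
            have h9 : (0 : ℝ) ≤ qs q (∅ : Finset B) := AvA_qs_nonneg hq (∅ : Finset B)
            linarith
    have f3 : 0 ≤ ∏ u ∈ Y2, ∏ w ∈ V', (1 - qs q (AvAbad S k km D V' lev u w b)) := by
      refine Finset.prod_nonneg fun u _ => Finset.prod_nonneg fun w _ => ?_
      have := AvA_qs_le_one hq (AvAbad S k km D V' lev u w b)
      linarith
    calc _ ≤ (((1 - qs q S.m) ^ V'.card) ^ D.card *
        Real.exp (-((qs q S.A - qs q S.m) * D.card * (gg (adj S.m b) V' km).card))) *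
        ∏ v ∈ Y2, Real.exp (-(qs q (S.y (lev v)) * (gg (adj (S.y (lev v)) b) V' k).card)) :=
          mul_le_mul f1 f2 f3 (mul_nonneg (pow_nonneg (pow_nonneg (by linarith) _) _)
            (Real.exp_pos _).le)
      _ = _ := by ring
  · have hempty : {b : Sym2 V → B | Avoid (relsB S b) k km Y lev ∧
        TT (relsB S b) Y lev = D} = ∅ := by
      rw [Set.eq_empty_iff_forall_notMem]
      rintro b ⟨_, hT⟩
      apply hD
      have hdis : Disjoint (Y.filter fun v => lev v = 0) Yᶜ := by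
        rw [Finset.disjoint_left]
        intro v hv hv'
        exact (Finset.mem_compl.1 hv') (Finset.mem_filter.1 hv).1
      have hiff := expl_eq_iff (adj S.m b) (Y.filter fun v => lev v = 0) Yᶜ D hdis
      rw [← AvA_TT] at hiff
      exact ⟨(hiff.1 hT).1, (hiff.1 hT).2.1⟩
    rw [hempty]
    have h0 : PP q (∅ : Set (Sym2 V → B)) = 0 := by
      unfold PP
      simp only [Set.mem_empty_iff_false, if_false]
      exact EE_const hq 0
    rw [h0]
    refine mul_nonneg (PP_nonneg hq _) (EE_nonneg hq fun b => ?_)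
    exact mul_nonneg (Real.exp_pos _).le (Finset.prod_nonneg fun v _ => (Real.exp_pos _).le)

end RST.P
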