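import Pool.Agent.Lib.MP_7946c7_pr.H.Main
import Pool.Agent.Lib.MP_7946c7_pr.P.Defs

/-!
# JOB P/AvB: parameters (`HPar`) and masses

`hpar_of_R2`: `XS n h 0 = (log n)^{1/4} h`, `kst δ n h = ⌈n^{δ/2}/h²⌉₊`, `a = δ/2`:
 lo: `n^{-1/3+δ/2} ≤ n^{-1/3+δ} ≤ h ≤ XS n h 0` (`log n ≥ 1`);
 hi: `(log n)^{1/4} h ≤ (log n)^{1/4} n^{-δ} ≤ n^{-δ/2}` for large `n`;
 klo: `n^{δ/4}/XS² ≤ n^{δ/2}/h² ≤ kst` (`XS ≥ h`);
 khi: `kst ≤ n^{δ/2}/h² + 1 ≤ h n/1000 ≤ XS n / 1000`: `h³ n ≥ n^{3δ}`, so `n^{δ/2} ≤ h³ n/2000` and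
 `1 ≤ h n/2000` for large `n`.

`masses`: apply `macro_comps` (G10, file `IfG.lean`) with this `W` through `marginal` (file
`IfG.lean`) for the set of bins `S.m` (`qs q S.m = (1-h)/n`; `decide (b e ∈ S.m)` is the Bernoulli
configuration, `bg (fun e => decide (b e ∈ S.m)) = adj S.m b`), and `gg_mass` (file `IfH.lean`) with
`a = δ/2`, `xs = XS n h 0`, `x = XS n h i` (`qs q (S.y i) = (1+XS n h i)/n`, `Mx x = 6/5 x` as
`x ≤ 1/4`; `XS n h 0 ≤ XS n h i`).
 * `n (1 - h/40) ≤ |W|` and `n (1 - XS n h 0/1000) ≤ |W|` follow from `n (1 - h/190) ≤ |W|`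
   (`(log n)^{1/4} ≥ 1000/190`).
 * `|gg (adj S.m b) W (kh h)| ≥ kh h * #bigs ≥ (10⁻⁴/h²) (h³ n/100) = 10⁻⁶ h n`: the components in `bigs`
   are pairwise disjoint subsets of `gg` with at least `kh h` elements (two components that meet are
   equal: needs the symmetry of `adj`).
 * total error `≤ exp (-h³n/500) + J exp (-n^{δ/16}) ≤ exp (-n^{δ/17})` for large `n` (`J ≤ n`,
   `h³ n ≥ n^{3δ}`).
-/

open Finset

namespace RST.P

private theorem AvB_PP_mono {ι B : Type*} [Fintype ι] [Fintype B] {q : B → ℝ} (hq : IsLaw q)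
    {S T : Set (ι → B)} (h : S ⊆ T) : PP q S ≤ PP q T := by
  unfold PP EE
  apply Finset.sum_le_sum
  intro b _
  apply mul_le_mul_of_nonneg_left
  · by_cases hS : b ∈ S
    · simp [hS, h hS]
    · by_cases hT : b ∈ T <;> simp [hS, hT]
  · exact Finset.prod_nonneg fun e _ => hq.nonneg _

private theorem AvB_PP_union {ι B : Type*} [Fintype ι] [Fintype B] {q : B → ℝ} (hq : IsLaw q)
    (S T : Set (ι → B)) : PP q (S ∪ T) ≤ PP q S + PP q T := by
  unfold PP EE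
  rw [← Finset.sum_add_distrib]
  apply Finset.sum_le_sum
  intro b _
  rw [← mul_add]
  apply mul_le_mul_of_nonneg_left
  · by_cases hS : b ∈ S
    · by_cases hT : b ∈ T <;> simp [hS, hT]
    · by_cases hT : b ∈ T <;> simp [hS, hT]
  · exact Finset.prod_nonneg fun e _ => hq.nonneg _

private theorem AvB_PP_exists {ι B : Type*} [Fintype ι] [Fintype B] {q : B → ℝ} (hq : IsLaw q)
    (P : ℕ → (ι → B) → Prop) (ε : ℝ) (J : ℕ) (h : ∀ i ≤ J, PP q {b | P i b} ≤ ε) :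
    PP q {b | ∃ i ≤ J, P i b} ≤ (J + 1) * ε := by
  induction J with
  | zero =>
    have h0 := h 0 le_rfl
    have : {b : ι → B | ∃ i ≤ 0, P i b} = {b | P 0 b} := by
      ext b
      constructor
      · rintro ⟨i, hi, hb⟩
        obtain rfl : i = 0 := by omega
        exact hb
      · intro hb
        exact ⟨0, le_rfl, hb⟩
    rw [this]
    simpa using h0
  | succ J ih =>
    have h1 := ih (fun i hi => h i (by omega))
    have h2 := h (J + 1) le_rfl
    have : {b : ι → B | ∃ i ≤ J + 1, P i b} ⊆ {b | ∃ i ≤ J, P i b} ∪ {b | P (J + 1) b} := by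
      rintro b ⟨i, hi, hb⟩
      by_cases hi' : i ≤ J
      · exact Or.inl ⟨i, hi', hb⟩
      · obtain rfl : i = J + 1 := by omega
        exact Or.inr hb
    refine ((AvB_PP_mono hq this).trans (AvB_PP_union hq _ _)).trans ?_
    push_cast
    nlinarith

private theorem AvB_cmp_eq {V : Type} {R : V → V → Prop} (hR : ∀ u v, R u v → R v u)
    {W : Finset V} {v w : V} (hw : w ∈ cmp R W v) : cmp R W w = cmp R W v := by
  classical
  have hsym : ∀ {x y : V}, Rch R W x y → Rch R W y x := by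
    intro x y hxy
    haveI : Std.Symm (fun x y => R x y ∧ x ∈ W ∧ y ∈ W) :=
      ⟨fun x y h => ⟨hR _ _ h.1, h.2.2, h.2.1⟩⟩
    exact (Relation.ReflTransGen.stdSymm (r := fun x y => R x y ∧ x ∈ W ∧ y ∈ W)).symm _ _ hxy
  unfold cmp at hw ⊢
  rw [Finset.mem_filter] at hw
  obtain ⟨hwW, hvW, hvw⟩ := hw
  ext u
  simp only [Finset.mem_filter]
  constructor
  · rintro ⟨hu, _, h2⟩
    exact ⟨hu, hvW, Relation.ReflTransGen.trans hvw h2⟩
  · rintro ⟨hu, _, h2⟩
    exact ⟨hu, hwW, Relation.ReflTransGen.trans (hsym hvw) h2⟩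

private theorem AvB_bigs_card {V : Type} {R : V → V → Prop} (hR : ∀ u v, R u v → R v u)
    (W : Finset V) (k : ℕ) : k * (bigs R W k).card ≤ (gg R W k).card := by
  classical
  have hmap : ∀ w ∈ gg R W k, cmp R W w ∈ bigs R W k := by
    intro w hw
    unfold gg at hw
    rw [Finset.mem_filter] at hw
    unfold bigs
    rw [Finset.mem_filter, Finset.mem_image]
    exact ⟨⟨w, hw.1, rfl⟩, hw.2⟩
  rw [Finset.card_eq_sum_card_fiberwise (f := fun w => cmp R W w) (t := bigs R W k) hmap]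
  have hle : ∀ D ∈ bigs R W k, k ≤ ((gg R W k).filter fun w => cmp R W w = D).card := by
    intro D hD
    unfold bigs at hD
    rw [Finset.mem_filter, Finset.mem_image] at hD
    obtain ⟨⟨v, hv, rfl⟩, hk⟩ := hD
    refine hk.trans (Finset.card_le_card ?_)
    intro w hw
    have he := AvB_cmp_eq hR hw
    rw [Finset.mem_filter]
    refine ⟨?_, he⟩
    unfold gg
    rw [Finset.mem_filter]
    have hwW : w ∈ W := by
      unfold cmp at hw
      exact (Finset.mem_filter.mp hw).1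
    exact ⟨hwW, by rw [he]; exact hk⟩
  calc k * (bigs R W k).card = ∑ D ∈ bigs R W k, k := by
        rw [Finset.sum_const, smul_eq_mul, mul_comm]
    _ ≤ _ := Finset.sum_le_sum hle

private theorem AvB_adj {V B : Type} [DecidableEq B] (A : Finset B) (b : Sym2 V → B) :
    adj A b = bg (fun e => decide (b e ∈ A)) := by
  funext u v
  unfold adj bg
  simp

private theorem AvB_marg {ι B : Type} [Fintype ι] [DecidableEq ι] [Fintype B] [DecidableEq B]
    {q : B → ℝ} (hq : IsLaw q) (A : Finset B) (S : Set (ι → Bool)) :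
    PP q {b : ι → B | (fun e => decide (b e ∈ A)) ∈ S} = PP (bern (qs q A)) S := by
  classical
  have := marginal (ι := ι) hq A (fun ξ => if ξ ∈ S then 1 else 0)
  unfold PP
  simp only [Set.mem_ofPred_eq]
  convert this using 3

/-- Everything that is asked from `n`. -/
private structure AvB_Num (δ C₀ : ℝ) (n : ℕ) : Prop where
  n1 : 1 ≤ n
  l1 : 1 ≤ Real.log n
  l2 : (Real.log n) ^ (1 / 4 : ℝ) ≤ (n : ℝ) ^ (δ / 2)
  l3 : 1000 / 190 ≤ (Real.log n) ^ (1 / 4 : ℝ)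
  p1 : 2000 ≤ (n : ℝ) ^ (5 * δ / 2)
  p2 : 2000 ≤ (n : ℝ) ^ (2 / 3 + δ)
  p3 : 100 ≤ (n : ℝ) ^ δ
  p4 : C₀ ≤ (n : ℝ) ^ (3 * δ)
  e1 : Real.exp (-((n : ℝ) ^ (3 * δ) / 500)) + (n + 1) * Real.exp (-(n : ℝ) ^ (δ / 16)) ≤
    Real.exp (-(n : ℝ) ^ (δ / 17))

private theorem AvB_pow (c C : ℝ) (hc : 0 < c) : ∀ᶠ n : ℕ in Filter.atTop, C ≤ (n : ℝ) ^ c :=
  ((tendsto_rpow_atTop hc).comp tendsto_natCast_atTop_atTop).eventually_ge_atTop C

private theorem AvB_log (c C : ℝ) (hc : 0 < c) (hC : 0 < C) :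
    ∀ᶠ n : ℕ in Filter.atTop, Real.log n ≤ C * (n : ℝ) ^ c := by
  have h := (isLittleO_log_rpow_atTop hc).bound hC
  have h2 := tendsto_natCast_atTop_atTop (R := ℝ) |>.eventually h
  filter_upwards [h2] with n hn
  have h0 : (0 : ℝ) ≤ (n : ℝ) ^ c := Real.rpow_nonneg (Nat.cast_nonneg n) c
  rw [Real.norm_eq_abs, Real.norm_eq_abs, abs_of_nonneg h0] at hn
  exact (le_abs_self _).trans hn

private theorem AvB_num (δ C₀ : ℝ) (hδ : 0 < δ) : ∃ n₀ : ℕ, ∀ n : ℕ, n₀ ≤ n → AvB_Num δ C₀ n := by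
  rw [← Filter.eventually_atTop]
  have hlog : Filter.Tendsto (fun n : ℕ => Real.log (n : ℝ)) Filter.atTop Filter.atTop :=
    Real.tendsto_log_atTop.comp tendsto_natCast_atTop_atTop
  have hlog4 : Filter.Tendsto (fun n : ℕ => (Real.log (n : ℝ)) ^ (1 / 4 : ℝ)) Filter.atTop
      Filter.atTop := (tendsto_rpow_atTop (by norm_num)).comp hlog
  filter_upwards [Filter.eventually_ge_atTop 1, hlog.eventually_ge_atTop 1,
    AvB_log (2 * δ) 1 (by positivity) one_pos, hlog4.eventually_ge_atTop (1000 / 190),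
    AvB_pow (5 * δ / 2) 2000 (by positivity), AvB_pow (2 / 3 + δ) 2000 (by positivity),
    AvB_pow δ 100 hδ, AvB_pow (3 * δ) C₀ (by positivity),
    AvB_pow (3 * δ - δ / 17) 1000 (by linarith), AvB_pow (δ / 16 - δ / 17) 3 (by linarith),
    AvB_log (δ / 16) (1 / 9) (by positivity) (by norm_num)] with n h1 h2 h3 h4 h5 h6 h7 h8 h9 h10 h11
  have hn0 : (0 : ℝ) < n := by exact_mod_cast h1
  have hn1 : (1 : ℝ) ≤ n := by exact_mod_cast h1
  refine ⟨h1, h2, ?_, h4, h5, h6, h7, h8, ?_⟩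
  · calc (Real.log n) ^ (1 / 4 : ℝ) ≤ ((n : ℝ) ^ (2 * δ)) ^ (1 / 4 : ℝ) := by
          apply Real.rpow_le_rpow (by linarith) (by linarith) (by norm_num)
      _ = (n : ℝ) ^ (δ / 2) := by
          rw [← Real.rpow_mul hn0.le]
          congr 1
          ring
  · set a := (n : ℝ) ^ (δ / 17) with ha
    have ha1 : 1 ≤ a := Real.one_le_rpow hn1 (by positivity)
    have hb : (n : ℝ) ^ (3 * δ) = a * (n : ℝ) ^ (3 * δ - δ / 17) := by
      rw [ha, ← Real.rpow_add hn0]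
      congr 1
      ring
    have hc : (n : ℝ) ^ (δ / 16) = a * (n : ℝ) ^ (δ / 16 - δ / 17) := by
      rw [ha, ← Real.rpow_add hn0]
      congr 1
      ring
    have hlog2 : Real.log 2 ≤ 1 := by
      have := Real.log_two_lt_d9
      linarith
    have e1 : a + Real.log 2 ≤ (n : ℝ) ^ (3 * δ) / 500 := by
      rw [hb]
      nlinarith
    have e2 : a + Real.log (2 * (n + 1)) ≤ (n : ℝ) ^ (δ / 16) := by
      have h12 : Real.log (2 * ((n : ℝ) + 1)) ≤ Real.log (4 * n) := by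
        apply Real.log_le_log (by positivity)
        linarith
      have h13 : Real.log (4 * (n : ℝ)) = 2 * Real.log 2 + Real.log n := by
        rw [Real.log_mul (by norm_num) hn0.ne', show (4 : ℝ) = 2 ^ (2 : ℕ) by norm_num, Real.log_pow]
        push_cast
        ring
      have h14 : a ≤ (n : ℝ) ^ (δ / 16) / 3 := by
        rw [hc]
        nlinarith
      linarith
    have e3 : Real.exp (-((n : ℝ) ^ (3 * δ) / 500)) ≤ 1 / 2 * Real.exp (-a) := by
      have : (1 / 2 : ℝ) = Real.exp (-Real.log 2) := by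
        rw [Real.exp_neg, Real.exp_log (by norm_num)]
        norm_num
      rw [this, ← Real.exp_add]
      apply Real.exp_le_exp.mpr
      linarith
    have e4 : ((n : ℝ) + 1) * Real.exp (-(n : ℝ) ^ (δ / 16)) ≤ 1 / 2 * Real.exp (-a) := by
      have h15 : Real.exp (-(n : ℝ) ^ (δ / 16)) ≤ Real.exp (-(a + Real.log (2 * (n + 1)))) := by
        apply Real.exp_le_exp.mpr
        linarith
      have h16 : Real.exp (-(a + Real.log (2 * ((n : ℝ) + 1)))) =
          Real.exp (-a) / (2 * (n + 1)) := by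
        rw [neg_add, Real.exp_add, Real.exp_neg (Real.log _), Real.exp_log (by positivity)]
        ring
      rw [h16] at h15
      calc ((n : ℝ) + 1) * Real.exp (-(n : ℝ) ^ (δ / 16)) ≤
          ((n : ℝ) + 1) * (Real.exp (-a) / (2 * (n + 1))) := by
            apply mul_le_mul_of_nonneg_left h15 (by positivity)
        _ = 1 / 2 * Real.exp (-a) := by
            field_simp
    linarith

private theorem AvB_XS (n : ℕ) (h : ℝ) (hn : 1 ≤ Real.log n) (hh : 0 < h) (i : ℕ) :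
    XS n h 0 ≤ XS n h i ∧ h ≤ XS n h 0 ∧ 0 < XS n h i := by
  have h1 : (1 : ℝ) ≤ (Real.log n) ^ (1 / 4 : ℝ) := Real.one_le_rpow hn (by norm_num)
  have h2 : (1 : ℝ) ≤ (21 / 20) ^ i := one_le_pow₀ (by norm_num)
  have h3 : 0 < (Real.log n) ^ (1 / 4 : ℝ) * h := by positivity
  unfold XS
  refine ⟨?_, ?_, ?_⟩
  · rw [pow_zero, one_mul]
    nlinarith
  · rw [pow_zero, one_mul]
    nlinarith
  · positivity

private theorem AvB_h {δ C₀ : ℝ} {n : ℕ} {h : ℝ} (hn : AvB_Num δ C₀ n) (hR : R2Par δ n h) :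
    0 < h ∧ h ≤ 1 / 100 ∧ (n : ℝ) ^ (3 * δ) ≤ h ^ 3 * n := by
  have hn0 : (0 : ℝ) < n := by exact_mod_cast hn.n1
  have h0 : 0 < (n : ℝ) ^ (-(1 / 3 : ℝ) + δ) := Real.rpow_pos_of_pos hn0 _
  have hh : 0 < h := h0.trans_le hR.lo
  refine ⟨hh, ?_, ?_⟩
  · refine hR.hi.trans ?_
    rw [Real.rpow_neg hn0.le, one_div]
    exact inv_anti₀ (by norm_num) hn.p3
  · have h1 : ((n : ℝ) ^ (-(1 / 3 : ℝ) + δ)) ^ 3 ≤ h ^ 3 := pow_le_pow_left₀ h0.le hR.lo 3
    have h2 : ((n : ℝ) ^ (-(1 / 3 : ℝ) + δ)) ^ 3 * n = (n : ℝ) ^ (3 * δ) := by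
      rw [← Real.rpow_natCast, ← Real.rpow_mul hn0.le]
      nth_rewrite 2 [← Real.rpow_one (n : ℝ)]
      rw [← Real.rpow_add hn0]
      congr 1
      push_cast
      ring
    rw [← h2]
    exact mul_le_mul_of_nonneg_right h1 hn0.le

private theorem AvB_hpar {δ C₀ : ℝ} (hδ : 0 < δ) {n : ℕ} {h : ℝ} (hn : AvB_Num δ C₀ n)
    (hR : R2Par δ n h) : HPar (δ / 2) n (XS n h 0) (kst δ n h) := by
  have hn0 : (0 : ℝ) < n := by exact_mod_cast hn.n1
  have hn1 : (1 : ℝ) ≤ n := by exact_mod_cast hn.n1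
  obtain ⟨hh, hh1, hh3⟩ := AvB_h hn hR
  obtain ⟨_, hX1, hX0⟩ := AvB_XS n h hn.l1 hh 0
  have hpos : 0 < (n : ℝ) ^ (δ / 2) := Real.rpow_pos_of_pos hn0 _
  refine ⟨?_, ?_, ?_, ?_⟩
  · calc (n : ℝ) ^ (-(1 / 3 : ℝ) + δ / 2) ≤ (n : ℝ) ^ (-(1 / 3 : ℝ) + δ) :=
          Real.rpow_le_rpow_of_exponent_le hn1 (by linarith)
      _ ≤ h := hR.lo
      _ ≤ XS n h 0 := hX1
  · have h1 : XS n h 0 = (Real.log n) ^ (1 / 4 : ℝ) * h := by
      unfold XS
      rw [pow_zero, one_mul]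
    rw [h1]
    calc (Real.log n) ^ (1 / 4 : ℝ) * h ≤ (n : ℝ) ^ (δ / 2) * (n : ℝ) ^ (-δ) := by
          apply mul_le_mul hn.l2 hR.hi hh.le hpos.le
      _ = (n : ℝ) ^ (-(δ / 2)) := by
          rw [← Real.rpow_add hn0]
          congr 1
          ring
  · calc (n : ℝ) ^ (δ / 2 / 2) / XS n h 0 ^ 2 ≤ (n : ℝ) ^ (δ / 2) / h ^ 2 := by
          apply div_le_div₀ hpos.le
          · exact Real.rpow_le_rpow_of_exponent_le hn1 (by linarith)
          · positivity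
          · exact pow_le_pow_left₀ hh.le hX1 2
      _ ≤ (kst δ n h : ℝ) := Nat.le_ceil _
  · have h1 : (kst δ n h : ℝ) ≤ (n : ℝ) ^ (δ / 2) / h ^ 2 + 1 :=
      (Nat.ceil_lt_add_one (by positivity)).le
    have h2 : (n : ℝ) ^ (δ / 2) ≤ h ^ 3 * n / 2000 := by
      have h3 : (n : ℝ) ^ (3 * δ) = (n : ℝ) ^ (δ / 2) * (n : ℝ) ^ (5 * δ / 2) := by
        rw [← Real.rpow_add hn0]
        congr 1
        ring
      have h4 := hn.p1
      rw [h3] at hh3
      nlinarith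
    have h3 : (n : ℝ) ^ (δ / 2) / h ^ 2 ≤ h * n / 2000 := by
      rw [div_le_iff₀ (by positivity)]
      calc (n : ℝ) ^ (δ / 2) ≤ h ^ 3 * n / 2000 := h2
        _ = h * n / 2000 * h ^ 2 := by ring
    have h4 : 2000 ≤ h * n := by
      calc (2000 : ℝ) ≤ (n : ℝ) ^ (2 / 3 + δ) := hn.p2
        _ = (n : ℝ) ^ (-(1 / 3 : ℝ) + δ) * n := by
            nth_rewrite 3 [← Real.rpow_one (n : ℝ)]
            rw [← Real.rpow_add hn0]
            congr 1
            ring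
        _ ≤ h * n := mul_le_mul_of_nonneg_right hR.lo hn0.le
    have h5 : h * n ≤ XS n h 0 * n := mul_le_mul_of_nonneg_right hX1 hn0.le
    linarith

theorem hpar_of_R2 (δ : ℝ) (hδ : 0 < δ) (hδ1 : δ ≤ 1 / 10) : ∃ n₀ : ℕ, ∀ n : ℕ, n₀ ≤ n → ∀ h : ℝ,
    R2Par δ n h → HPar (δ / 2) n (XS n h 0) (kst δ n h) := by
  obtain ⟨n₀, hn₀⟩ := AvB_num δ 0 hδ
  exact ⟨n₀, fun n hn h hR => AvB_hpar hδ (hn₀ n hn) hR⟩

theorem masses (δ : ℝ) (hδ : 0 < δ) (hδ1 : δ ≤ 1 / 10) : ∃ n₀ : ℕ, ∀ (V : Type) [Fintype V]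
    [DecidableEq V], n₀ ≤ Fintype.card V → ∀ h : ℝ, R2Par δ (Fintype.card V) h → ∀ J : ℕ,
    XS (Fintype.card V) h J ≤ 1 / 4 → J ≤ Fintype.card V →
    ∀ (B : Type) [Fintype B] [DecidableEq B] (q : B → ℝ) (S : BinS B),
    S.Ok q (Fintype.card V) h J → ∀ W : Finset V,
    Fintype.card V * (1 - h / 190) ≤ W.card →
    PP q {b : Sym2 V → B |
      ((gg (adj S.m b) W (kh h)).card : ℝ) < h * Fintype.card V / 10 ^ 6 ∨
      ∃ i ≤ J, ((gg (adj (S.y i) b) W (kst δ (Fintype.card V) h)).card : ℝ) <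
        6 / 5 * XS (Fintype.card V) h i * Fintype.card V} ≤
      Real.exp (-(Fintype.card V : ℝ) ^ (δ / 17)) := by
  obtain ⟨C₀, hC₀⟩ := macro_comps
  obtain ⟨n₀, hn₀⟩ := AvB_num δ C₀ hδ
  obtain ⟨n₁, hn₁⟩ := gg_mass (δ / 2) (by linarith) (by linarith)
  refine ⟨max n₀ n₁, ?_⟩
  intro V _ _ hV h hR J hJ hJn B _ _ q S hS W hW
  have hn := hn₀ _ ((le_max_left _ _).trans hV)
  have hpar := AvB_hpar hδ hn hR
  obtain ⟨hh, hh1, hh3⟩ := AvB_h hn hR
  have hcard0 : (0 : ℝ) < Fintype.card V := by exact_mod_cast hn.n1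
  have hq := hS.law
  set n := Fintype.card V with hndef
  -- macroscopic components
  have hA : PP q {b : Sym2 V → B |
      ((gg (adj S.m b) W (kh h)).card : ℝ) < h * n / 10 ^ 6} ≤
      Real.exp (-((n : ℝ) ^ (3 * δ) / 500)) := by
    have h1 := hC₀ V h W hh hh1 (hn.p4.trans hh3) (by linarith) (by
      refine le_trans ?_ hW
      apply mul_le_mul_of_nonneg_left _ hcard0.le
      linarith)
    have h2 := AvB_marg (ι := Sym2 V) hq S.m {ξ : Sym2 V → Bool |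
      ((bigs (bg ξ) W (kh h)).card : ℝ) ≤ h ^ 3 * n / 100}
    rw [hS.qm] at h2
    have h3 : {b : Sym2 V → B | ((gg (adj S.m b) W (kh h)).card : ℝ) < h * n / 10 ^ 6} ⊆
        {b : Sym2 V → B | (fun e => decide (b e ∈ S.m)) ∈ {ξ : Sym2 V → Bool |
          ((bigs (bg ξ) W (kh h)).card : ℝ) ≤ h ^ 3 * n / 100}} := by
      intro b hb
      simp only [Set.mem_ofPred_eq] at hb ⊢
      rw [← AvB_adj]
      by_contra hcon
      rw [not_le] at hcon
      have hsym : ∀ u v, adj S.m b u v → adj S.m b v u := by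
        rintro u v ⟨h4, h5⟩
        exact ⟨h4.symm, by rw [Sym2.eq_swap]; exact h5⟩
      have h4 : ((kh h * (bigs (adj S.m b) W (kh h)).card : ℕ) : ℝ) ≤
          ((gg (adj S.m b) W (kh h)).card : ℝ) := by
        exact_mod_cast AvB_bigs_card hsym W (kh h)
      push_cast at h4
      have h5 : (1 / 10 ^ 4 : ℝ) / h ^ 2 ≤ kh h := Nat.le_ceil _
      have h6 : (1 / 10 ^ 4 : ℝ) / h ^ 2 * (h ^ 3 * n / 100) ≤
          kh h * (bigs (adj S.m b) W (kh h)).card := by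
        apply mul_le_mul h5 hcon.le (by positivity) (by positivity)
      have h7 : (1 / 10 ^ 4 : ℝ) / h ^ 2 * (h ^ 3 * n / 100) = h * n / 10 ^ 6 := by
        field_simp
        norm_num
      linarith
    refine (AvB_PP_mono hq h3).trans ?_
    rw [h2]
    refine h1.trans ?_
    apply Real.exp_le_exp.mpr
    have : (n : ℝ) ^ (3 * δ) / 500 ≤ h ^ 3 * n / 500 := by linarith
    linarith
  -- giants
  have hB : PP q {b : Sym2 V → B |
      ∃ i ≤ J, ((gg (adj (S.y i) b) W (kst δ n h)).card : ℝ) < 6 / 5 * XS n h i * n} ≤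
      (J + 1) * Real.exp (-(n : ℝ) ^ (δ / 16)) := by
    apply AvB_PP_exists hq
    intro i hi
    obtain ⟨hX0, hXh, hXp⟩ := AvB_XS n h hn.l1 hh i
    have hXJ : XS n h i ≤ XS n h J := by
      unfold XS
      apply mul_le_mul_of_nonneg_right
      · exact pow_le_pow_right₀ (by norm_num) hi
      · have : 0 ≤ Real.log n := by linarith [hn.l1]
        positivity
    have hx4 : XS n h i ≤ 1 / 4 := hXJ.trans hJ
    have h1 := hn₁ V ((le_max_right _ _).trans hV) (XS n h 0) (XS n h i) (kst δ n h) hpar hX0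
      (by linarith [hn.l1]) W (by
        refine le_trans ?_ hW
        apply mul_le_mul_of_nonneg_left _ hcard0.le
        have h2 : XS n h 0 = (Real.log n) ^ (1 / 4 : ℝ) * h := by
          unfold XS
          rw [pow_zero, one_mul]
        have h3 := hn.l3
        rw [h2]
        nlinarith)
    have h2 := AvB_marg (ι := Sym2 V) hq (S.y i) {ξ : Sym2 V → Bool |
      ((gg (bg ξ) W (kst δ n h)).card : ℝ) < Mx (XS n h i) * n}
    rw [hS.qy i hi] at h2
    have h3 : {b : Sym2 V → B |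
        ((gg (adj (S.y i) b) W (kst δ n h)).card : ℝ) < 6 / 5 * XS n h i * n} =
        {b : Sym2 V → B | (fun e => decide (b e ∈ S.y i)) ∈ {ξ : Sym2 V → Bool |
          ((gg (bg ξ) W (kst δ n h)).card : ℝ) < Mx (XS n h i) * n}} := by
      ext b
      simp only [Set.mem_ofPred_eq]
      rw [← AvB_adj]
      have : Mx (XS n h i) = 6 / 5 * XS n h i := by
        unfold Mx
        rw [if_pos hx4]
      rw [this]
    rw [h3, h2]
    refine h1.trans (le_of_eq ?_)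
    congr 3
    ring
  have hunion : {b : Sym2 V → B |
      ((gg (adj S.m b) W (kh h)).card : ℝ) < h * n / 10 ^ 6 ∨
      ∃ i ≤ J, ((gg (adj (S.y i) b) W (kst δ n h)).card : ℝ) < 6 / 5 * XS n h i * n} =
      {b : Sym2 V → B | ((gg (adj S.m b) W (kh h)).card : ℝ) < h * n / 10 ^ 6} ∪
      {b : Sym2 V → B |
      ∃ i ≤ J, ((gg (adj (S.y i) b) W (kst δ n h)).card : ℝ) < 6 / 5 * XS n h i * n} := rfl
  rw [hunion]
  refine (AvB_PP_union hq _ _).trans ((add_le_add hA hB).trans ?_)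
  refine le_trans ?_ hn.e1
  have hJ' : (J : ℝ) ≤ n := by exact_mod_cast hJn
  have := Real.exp_pos (-(n : ℝ) ^ (δ / 16))
  nlinarith

end RST.P
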