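import Pool.Agent.Lib.MP_7946c7_pr.IfG
import Pool.Agent.Lib.MP_7946c7_pr.P.Defs

/-!
# JOB P/AvL: Laplace transform of the explored set with a budget

Notation `n = card V`, `Y₁ = {v ∈ Y : lev v = 0}`, `T = TT (relsB S b) Y lev = expl (adj S.m b) Y₁ Yᶜ`,
`t = ⌊h n / 200⌋₊`, `qq = (C1 log n + 1) h² / 10⁶`, `p = qs q S.m = (1-h)/n`, `s = √qq/2`, `qq = 4 s²`.

PROOF. `laplace_budget` (G5, file `IfG.lean`, through `marginal`: `decide (b e ∈ S.m)` is a Bernoulli
configuration of parameter `qs q S.m`, and `bg (fun e => decide (b e ∈ S.m)) = adj S.m b`) with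
`z = exp (-qq)`, `y = 1 - s`, `Q = Y₁`, `W = Yᶜ`, `N = n - |Y| - t` (so `N + t ≤ |Yᶜ| + |Y₁|`).
Hypothesis of G5: `exp (-qq) (1 - p s)^N ≤ 1 - s`. We have `p N ≥ (1-h)(1 - h²/1000 - h/200) ≥ 1 - 1.01 h`
(`|Y| ≤ h² n/1000`, `t ≤ h n/200`), `(1-ps)^N ≤ exp (-p s N) ≤ exp (-s (1 - 1.01 h))`, and
`log (1-s) ≥ -s - s²/2 - s³` for `0 ≤ s ≤ 1/2`; it remains `-4s² + 1.01 h s ≤ - s²/2 - s³`, i.e.
`1.01 h ≤ 3.5 s - s²`, true if `h ≤ s ≤ 1/2` (`3.5 s - s² ≥ 3 s`). `s ≥ h`: `qq ≥ 4h²` iff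
`C1 log n + 1 ≥ 4·10⁶`, true as `C1 = 2·10¹¹` and `log n ≥ 1` (`n ≥ 3`). `s ≤ 1/2` iff `qq ≤ 1`: hypothesis
`hq1`. Conclusion `E[exp (-qq)^{|T|}; |T| ≤ t] ≤ (1-s)^{|Y₁|} ≤ exp (-s)^{|Y₁|}`, and
`s ≥ (6/5) XS n h 0`: `s = √qq/2 ≥ (1/2) √(2·10⁵ log n) h ≥ (6/5) (log n)^{1/4} h`
(`(log n)^{1/2} ≥ (log n)^{1/4}`, `XS n h 0 = (21/20)^0 * ((log n)^{1/4} h)`).
-/

open Finset

namespace RST.P

private theorem avL_exp {s : ℝ} (h0 : 0 ≤ s) (h1 : s ≤ 1 / 2) :
    Real.exp (-(s + 299 / 100 * s ^ 2)) ≤ 1 - s := by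
  have h2 : 1 + (s + 299 / 100 * s ^ 2) ≤ Real.exp (s + 299 / 100 * s ^ 2) := by
    linarith [Real.add_one_le_exp (s + 299 / 100 * s ^ 2)]
  have h3 : 1 ≤ (1 - s) * (1 + (s + 299 / 100 * s ^ 2)) := by
    nlinarith [mul_nonneg (mul_nonneg h0 h0) (sub_nonneg.2 h1)]
  have h4 : 1 ≤ (1 - s) * Real.exp (s + 299 / 100 * s ^ 2) :=
    h3.trans (mul_le_mul_of_nonneg_left h2 (by linarith))
  rw [Real.exp_neg, inv_le_iff_one_le_mul₀ (Real.exp_pos _)]
  exact h4

/-- the numerical condition of the budget lemma -/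
private theorem avL_cond {n N : ℕ} {h s p : ℝ} (hn : 3 ≤ n) (h0 : 0 < h) (h1 : h ≤ 1 / 100)
    (hs : h ≤ s) (hs1 : s ≤ 1 / 2) (hp : p = (1 - h) / n)
    (hN : (n : ℝ) * (1 - h ^ 2 / 1000 - h / 200) ≤ N) :
    Real.exp (-(4 * s ^ 2)) * (1 - p + p * (1 - s)) ^ N ≤ 1 - s := by
  have hn0 : (3 : ℝ) ≤ n := by exact_mod_cast hn
  have hp0 : 0 ≤ p := by
    rw [hp]
    exact div_nonneg (by linarith) (by linarith)
  have hp1 : p ≤ 1 := by
    rw [hp, div_le_one (by linarith)]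
    linarith
  have hps : 0 ≤ 1 - p + p * (1 - s) := by nlinarith
  have e1 : 1 - p + p * (1 - s) ≤ Real.exp (-(p * s)) := by
    have := Real.add_one_le_exp (-(p * s))
    linarith
  have e2 : (1 - p + p * (1 - s)) ^ N ≤ Real.exp (-(p * s * N)) := by
    refine (pow_le_pow_left₀ hps e1 N).trans (le_of_eq ?_)
    rw [← Real.exp_nat_mul]
    congr 1
    ring
  have e3 : 1 - 101 / 100 * h ≤ p * N := by
    have : p * n = 1 - h := by
      rw [hp]
      field_simp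
    have h5 : p * ((n : ℝ) * (1 - h ^ 2 / 1000 - h / 200)) ≤ p * N :=
      mul_le_mul_of_nonneg_left hN hp0
    have h6 : p * ((n : ℝ) * (1 - h ^ 2 / 1000 - h / 200)) =
        (1 - h) * (1 - h ^ 2 / 1000 - h / 200) := by
      rw [← mul_assoc, this]
    rw [h6] at h5
    nlinarith [pow_pos h0 2, pow_pos h0 3]
  have e4 : -(4 * s ^ 2) + -(p * s * N) ≤ -(s + 299 / 100 * s ^ 2) := by
    have hs0 : 0 ≤ s := by linarith
    have h7 : s * (1 - 101 / 100 * h) ≤ s * (p * N) := mul_le_mul_of_nonneg_left e3 hs0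
    nlinarith [mul_le_mul_of_nonneg_left hs hs0]
  calc Real.exp (-(4 * s ^ 2)) * (1 - p + p * (1 - s)) ^ N
      ≤ Real.exp (-(4 * s ^ 2)) * Real.exp (-(p * s * N)) :=
        mul_le_mul_of_nonneg_left e2 (Real.exp_pos _).le
    _ = Real.exp (-(4 * s ^ 2) + -(p * s * N)) := by rw [Real.exp_add]
    _ ≤ Real.exp (-(s + 299 / 100 * s ^ 2)) := Real.exp_le_exp.2 e4
    _ ≤ 1 - s := avL_exp (by linarith) hs1

variable {V B : Type} [Fintype V] [DecidableEq V] [Fintype B] [DecidableEq B]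

open Classical in
theorem laplace_T (q : B → ℝ) (S : BinS B) (h : ℝ) (J : ℕ) (hS : S.Ok q (Fintype.card V) h J)
    (h0 : 0 < h) (h1 : h ≤ 1 / 100) (hn : 3 ≤ Fintype.card V) (Y : Finset V) (lev : V → ℕ)
    (hY : (Y.card : ℝ) ≤ h ^ 2 * Fintype.card V / 1000)
    (hq1 : (C1 * Real.log (Fintype.card V) + 1) * h ^ 2 / 10 ^ 6 ≤ 1) :
    EE q (fun b : Sym2 V → B =>
      if (TT (relsB S b) Y lev).card ≤ ⌊h * Fintype.card V / 200⌋₊ then
        Real.exp (-((C1 * Real.log (Fintype.card V) + 1) * h ^ 2 / 10 ^ 6)) ^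
          (TT (relsB S b) Y lev).card else 0) ≤
      Real.exp (-(6 / 5 * XS (Fintype.card V) h 0)) ^ (Y.filter fun v => lev v = 0).card := by
  set n := Fintype.card V with hnd
  have hn3 : (3 : ℝ) ≤ n := by exact_mod_cast hn
  have hL : 1 ≤ Real.log n := by
    rw [Real.le_log_iff_exp_le (by linarith)]
    have := Real.exp_one_lt_d9
    linarith
  set L := Real.log n with hLd
  set qq := (C1 * L + 1) * h ^ 2 / 10 ^ 6 with hqq
  have hC1 : C1 = 2 * 10 ^ 11 := rfl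
  have hqq0 : 0 ≤ qq := by
    rw [hqq, hC1]
    positivity
  set s := Real.sqrt qq / 2 with hs
  have hs4 : 4 * s ^ 2 = qq := by
    have := Real.sq_sqrt hqq0
    rw [hs]
    nlinarith
  have hh2 : 0 < h ^ 2 := by positivity
  have hs1 : s ≤ 1 / 2 := by
    have : Real.sqrt qq ≤ 1 := by
      rw [Real.sqrt_le_left (by norm_num)]
      simpa using hq1
    rw [hs]
    linarith
  have hhs : h ≤ s := by
    have : 2 * h ≤ Real.sqrt qq := by
      apply Real.le_sqrt_of_sq_le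
      rw [hqq, hC1, le_div_iff₀ (by norm_num)]
      nlinarith
    rw [hs]
    linarith
  have hsx : 6 / 5 * XS n h 0 ≤ s := by
    have hX : XS n h 0 = L ^ (1 / 4 : ℝ) * h := by
      unfold XS
      rw [pow_zero, one_mul]
    have hr0 : 0 ≤ L ^ (1 / 4 : ℝ) := Real.rpow_nonneg (by linarith) _
    have hr : L ^ (1 / 4 : ℝ) * L ^ (1 / 4 : ℝ) ≤ L := by
      rw [← Real.rpow_add (by linarith)]
      calc L ^ (1 / 4 + 1 / 4 : ℝ) ≤ L ^ (1 : ℝ) :=
            Real.rpow_le_rpow_of_exponent_le hL (by norm_num)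
        _ = L := Real.rpow_one L
    have : 12 / 5 * (L ^ (1 / 4 : ℝ) * h) ≤ Real.sqrt qq := by
      apply Real.le_sqrt_of_sq_le
      rw [hqq, hC1, le_div_iff₀ (by norm_num)]
      have h9 : (L ^ (1 / 4 : ℝ) * L ^ (1 / 4 : ℝ)) * h ^ 2 ≤ L * h ^ 2 :=
        mul_le_mul_of_nonneg_right hr hh2.le
      nlinarith
    rw [hX, hs]
    linarith
  have hY' : Y.card ≤ n := by
    rw [hnd]
    exact Finset.card_le_univ Y
  set t := ⌊h * n / 200⌋₊ with ht
  have ht1 : (t : ℝ) ≤ h * n / 200 := Nat.floor_le (by positivity)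
  have hsum : Y.card + t ≤ n := by
    have : ((Y.card + t : ℕ) : ℝ) ≤ n := by
      push_cast
      nlinarith
    exact_mod_cast this
  have hmarg := marginal (ι := Sym2 V) hS.law S.m (fun ξ : Sym2 V → Bool =>
    if (expl (bg ξ) (Y.filter fun v => lev v = 0) Yᶜ).card ≤ t then
      Real.exp (-qq) ^ (expl (bg ξ) (Y.filter fun v => lev v = 0) Yᶜ).card else 0)
  have hbg : ∀ b : Sym2 V → B, bg (fun e => decide (b e ∈ S.m)) = adj S.m b := by
    intro b
    funext u v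
    unfold bg adj
    simp
  have hTT : ∀ b : Sym2 V → B, TT (relsB S b) Y lev =
      expl (bg (fun e => decide (b e ∈ S.m))) (Y.filter fun v => lev v = 0) Yᶜ := by
    intro b
    rw [hbg]
    unfold TT relsB
    refine congr_arg₂ (expl _) ?_ ?_
    · ext v
      simp only [Finset.mem_filter]
    · ext v
      simp only [Finset.mem_compl]
  have hqm := hS.qm
  have hbud := laplace_budget (qs q S.m) (Real.exp (-qq)) (1 - s) (n - Y.card - t) t
    (by rw [hqm]; exact div_nonneg (by linarith) (by linarith))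
    (by rw [hqm, div_le_one (by linarith)]; linarith) (Real.exp_pos _) (by linarith)
    (by linarith) (by
      rw [← hs4]
      refine avL_cond hn h0 h1 hhs hs1 hqm ?_
      rw [Nat.sub_sub, Nat.cast_sub hsum]
      push_cast
      nlinarith)
    (Y.filter fun v => lev v = 0) Yᶜ
    (Finset.disjoint_left.2 fun x hx hx' => (Finset.mem_compl.1 hx') (Finset.mem_filter.1 hx).1)
    (by
      rw [Finset.card_compl]
      omega)
  calc EE q (fun b : Sym2 V → B => if (TT (relsB S b) Y lev).card ≤ t then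
          Real.exp (-qq) ^ (TT (relsB S b) Y lev).card else 0)
      = EE (bern (qs q S.m)) (fun ξ : Sym2 V → Bool =>
          if (expl (bg ξ) (Y.filter fun v => lev v = 0) Yᶜ).card ≤ t then
            Real.exp (-qq) ^ (expl (bg ξ) (Y.filter fun v => lev v = 0) Yᶜ).card else 0) := by
        rw [← hmarg]
        congr 1
        funext b
        rw [hTT b]
    _ ≤ (1 - s) ^ (Y.filter fun v => lev v = 0).card := hbud
    _ ≤ Real.exp (-(6 / 5 * XS n h 0)) ^ (Y.filter fun v => lev v = 0).card := by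
        apply pow_le_pow_left₀ (by linarith)
        have := Real.add_one_le_exp (-(6 / 5 * XS n h 0))
        linarith

end RST.P
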