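import Pool.Agent.Lib.MP_7946c7_pr.IfB
import Pool.Agent.Lib.MP_7946c7_pr.IfG
import Pool.Agent.Lib.MP_7946c7_pr.P.Defs

/-!
# JOB P/AvT: tail of the explored set

Notation `n = card V`, `Y₁ = {v ∈ Y : lev v = 0}`, `T = TT (relsB S b) Y lev = expl (adj S.m b) Y₁ Yᶜ`,
`p = qs q S.m = (1-h)/n`.

PROOF. `laplace_upper` (G4, file `IfG.lean`, through `marginal`: `decide (b e ∈ S.m)` is a Bernoulli
configuration of parameter `qs q S.m`, and `bg (fun e => decide (b e ∈ S.m)) = adj S.m b`) with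
`z = exp (h²/2)`, `y = 1 + h`, `Q = Y₁`, `W = Yᶜ`: `z (1 - p + p y)^{|W|} = z (1 + p h)^{|W|}
≤ exp (h²/2 + p h n) = exp (h²/2 + (1-h) h) = exp (h - h²/2) ≤ 1 + h` (`log (1+h) ≥ h - h²/2`).
So `E z^{|T|} ≤ (1+h)^{|Y₁|} ≤ exp (h |Y|) ≤ exp (h³ n/1000)`. Markov (`PP_markov`): `|T| > ⌊h n/200⌋₊`
implies `|T| ≥ h n/200`, `z^{|T|} ≥ exp (h³ n/400)`, so
`P(|T| > ⌊h n/200⌋₊) ≤ exp (h³n/1000 - h³n/400) = exp (-3h³n/2000)`.
-/

open Finset

namespace RST.P

variable {V B : Type} [Fintype V] [DecidableEq V] [Fintype B] [DecidableEq B]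

open Classical in
private lemma AvT_struct (Y : Finset V) (lev : V → ℕ) :
    ∃ Q W : Finset V, Disjoint Q W ∧ Q.card ≤ Y.card ∧ W.card ≤ Fintype.card V ∧
      ∀ ρ : Rels V, TT ρ Y lev = expl ρ.m Q W := by
  classical
  refine ⟨_, _, ?_, ?_, ?_, fun ρ => rfl⟩
  · rw [Finset.disjoint_left]
    intro a ha
    have h1 := Finset.mem_of_mem_filter a ha
    simp [h1]
  · exact Finset.card_filter_le _ _
  · exact Finset.card_le_univ _

private lemma AvT_expl_congr (S : BinS B) (b : Sym2 V → B) (Q W : Finset V) :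
    expl (relsB S b).m Q W = expl (bg fun e => decide (b e ∈ S.m)) Q W := by
  congr 1
  funext u v
  simp [relsB, adj, bg]

theorem tail_T (q : B → ℝ) (S : BinS B) (h : ℝ) (J : ℕ) (hS : S.Ok q (Fintype.card V) h J)
    (h0 : 0 < h) (h1 : h ≤ 1 / 100) (Y : Finset V) (lev : V → ℕ)
    (hY : (Y.card : ℝ) ≤ h ^ 2 * Fintype.card V / 1000) :
    PP q {b : Sym2 V → B | ⌊h * Fintype.card V / 200⌋₊ < (TT (relsB S b) Y lev).card} ≤
      Real.exp (-(3 * h ^ 3 * Fintype.card V / 2000)) := by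
  obtain ⟨Q, W, hQW, hQc, hWc, hT⟩ := AvT_struct Y lev
  set n : ℝ := (Fintype.card V : ℝ) with hn
  have hn0 : 0 ≤ n := by positivity
  set z : ℝ := Real.exp (h ^ 2 / 2) with hz
  have hz1 : 1 ≤ z := Real.one_le_exp (by positivity)
  have hz0 : 0 < z := Real.exp_pos _
  have hQc' : (Q.card : ℝ) ≤ h ^ 2 * n / 1000 := le_trans (by exact_mod_cast hQc) hY
  have hWc' : (W.card : ℝ) ≤ n := by
    rw [hn]
    exact_mod_cast hWc
  -- the parameter
  set p : ℝ := qs q S.m with hp
  have hpn : p = (1 - h) / n := hS.qm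
  have hp0 : 0 ≤ p := by
    rw [hpn]
    exact div_nonneg (by linarith) hn0
  have hpW : p * W.card ≤ 1 - h := by
    rcases eq_or_lt_of_le hn0 with h2 | h2
    · rw [hpn, ← h2]
      simp
      linarith
    · rw [hpn, div_mul_eq_mul_div, div_le_iff₀ h2]
      nlinarith
  have hp1 : p ≤ 1 := by
    rcases Nat.eq_zero_or_pos (Fintype.card V) with h2 | h2
    · rw [hpn, hn, h2]; simp
    · have h3 : (1 : ℝ) ≤ n := by
        rw [hn]
        exact_mod_cast h2
      rw [hpn, div_le_iff₀ (by linarith)]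
      linarith
  -- the main inequality
  have hmain : z * (1 - p + p * (1 + h)) ^ W.card ≤ 1 + h := by
    have e1 : 1 - p + p * (1 + h) = 1 + p * h := by ring
    rw [e1]
    have e2 : (1 + p * h) ^ W.card ≤ Real.exp ((1 - h) * h) := by
      calc (1 + p * h) ^ W.card ≤ (Real.exp (p * h)) ^ W.card := by
            apply pow_le_pow_left₀ (by positivity)
            linarith [Real.add_one_le_exp (p * h)]
        _ = Real.exp ((W.card : ℝ) * (p * h)) := by rw [← Real.exp_nat_mul]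
        _ ≤ Real.exp ((1 - h) * h) := by
            apply Real.exp_le_exp.mpr
            nlinarith
    have e3 : Real.exp (h - h ^ 2 / 2) ≤ 1 + h := by
      rw [← Real.le_log_iff_exp_le (by linarith)]
      have := Real.le_log_one_add_of_nonneg h0.le
      refine le_trans ?_ this
      rw [le_div_iff₀ (by linarith)]
      nlinarith [sq_nonneg h, pow_pos h0 3]
    calc z * (1 + p * h) ^ W.card ≤ z * Real.exp ((1 - h) * h) := by gcongr
      _ = Real.exp (h - h ^ 2 / 2) := by
          rw [hz, ← Real.exp_add]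
          congr 1
          ring
      _ ≤ 1 + h := e3
  -- expectation
  have hE : EE q (fun b : Sym2 V → B => z ^ (TT (relsB S b) Y lev).card) ≤ (1 + h) ^ Q.card := by
    have h2 : (fun b : Sym2 V → B => z ^ (TT (relsB S b) Y lev).card) =
        fun b : Sym2 V → B => (fun ξ : Sym2 V → Bool => z ^ (expl (bg ξ) Q W).card)
          (fun e => decide (b e ∈ S.m)) := by
      funext b
      simp only [hT, AvT_expl_congr]
    rw [h2, marginal hS.law S.m (fun ξ : Sym2 V → Bool => z ^ (expl (bg ξ) Q W).card)]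
    exact laplace_upper p z (1 + h) hp0 hp1 hz1 (by linarith) Q W hQW hmain
  -- Markov
  have hsub : {b : Sym2 V → B | ⌊h * n / 200⌋₊ < (TT (relsB S b) Y lev).card} ⊆
      {b : Sym2 V → B | Real.exp (h ^ 3 * n / 400) ≤ z ^ (TT (relsB S b) Y lev).card} := by
    intro b hb
    have hb' : h * n / 200 < ((TT (relsB S b) Y lev).card : ℝ) := Nat.lt_of_floor_lt hb
    change Real.exp (h ^ 3 * n / 400) ≤ z ^ (TT (relsB S b) Y lev).card
    rw [hz, ← Real.exp_nat_mul]
    apply Real.exp_le_exp.mpr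
    have h3 : 0 < h ^ 2 := by positivity
    nlinarith
  refine (PP_mono hS.law hsub).trans ?_
  refine (PP_markov hS.law (F := fun b : Sym2 V → B => z ^ (TT (relsB S b) Y lev).card)
    (fun b => by positivity) (Real.exp_pos _)).trans ?_
  rw [div_le_iff₀ (Real.exp_pos _), ← Real.exp_add]
  refine hE.trans ?_
  calc (1 + h) ^ Q.card ≤ (Real.exp h) ^ Q.card := by
        apply pow_le_pow_left₀ (by linarith)
        linarith [Real.add_one_le_exp h]
    _ = Real.exp ((Q.card : ℝ) * h) := by rw [← Real.exp_nat_mul]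
    _ ≤ Real.exp (-(3 * h ^ 3 * n / 2000) + h ^ 3 * n / 400) := by
        apply Real.exp_le_exp.mpr
        have : (Q.card : ℝ) * h ≤ h ^ 2 * n / 1000 * h := by gcongr
        nlinarith

end RST.P
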