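import Pool.Agent.Lib.MP_7946c7_pr.P.AvA
import Pool.Agent.Lib.MP_7946c7_pr.P.AvB
import Pool.Agent.Lib.MP_7946c7_pr.P.AvL
import Pool.Agent.Lib.MP_7946c7_pr.P.AvT

/-!
# JOB P/AvE: the probability of AVOID

Notation `n = card V`, `Y₁ = {v ∈ Y : lev v = 0}`, `Y₂ = {v ∈ Y : lev v ≠ 0}`, `T = TT (relsB S b) Y lev`,
`t = ⌊h n / 200⌋₊`, `qq = (C1 log n + 1) h² / 10⁶`, `x_v = XS n h (lev v)`.

PROOF. `P(Avoid) ≤ P(|T| > t) + ∑_{|D| ≤ t} P(Avoid ∧ T = D)` (sum over `D : Finset V` with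
`D.card ≤ t`). First term: `tail_T`: `≤ exp (-3h³n/2000)`. For `|D| ≤ t` use `avoid_decomp`. Let
`V' = Yᶜ \ D`: `|V'| ≥ n - |Y| - |D| ≥ n (1 - h²/1000 - h/200) ≥ n (1 - h/190)` (`h ≤ 1/100`). On the
complement of the event of `masses` (with `W = V'`) the integrand of `avoid_decomp` is
`≤ exp (-(pA - pm) |D| h n/10⁶) ∏_{v ∈ Y₂} exp (-(1 + x_v)(6/5) x_v)
≤ exp (-qq)^{|D|} ∏_{v ∈ Y₂} exp (-(6/5) x_v)` (`(pA - pm) n = (C1 log n + 1) h`, `S.Ok`); always it is
`≤ 1`. So its expectation is `≤ exp (-qq)^{|D|} Π₂ + exp (-n^{δ/17})`,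
`Π₂ = ∏_{v ∈ Y₂} exp (-(6/5) x_v) ≤ 1`. Sum over `D`: `∑_D P(T = D) exp (-qq)^{|D|} 1(|D| ≤ t)` is the
expectation in `laplace_T`, and `∑_D P(T = D) ≤ 1`. So
`P(Avoid) ≤ exp (-3h³n/2000) + exp (-(6/5) XS n h 0)^{|Y₁|} Π₂ + exp (-n^{δ/17})`, and
`exp (-(6/5) XS n h 0)^{|Y₁|} Π₂ = ∏_{v ∈ Y} exp (-(6/5) x_v)`. For large `n` the two errors are together
`≤ exp (-n^{δ/20})` (`h³ n ≥ n^{3δ}` by `R2Par`), and `qq ≤ 1`, `h ≤ 1/100` hold.
-/

open Finset

namespace RST.P

theorem AvE_num (δ : ℝ) (hδ : 0 < δ) : ∃ n₀ : ℕ, ∀ n : ℕ, n₀ ≤ n → ∀ h : ℝ, R2Par δ n h →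
    3 ≤ n ∧ 0 < h ∧ h ≤ 1 / 100 ∧ (C1 * Real.log n + 1) * h ^ 2 / 10 ^ 6 ≤ 1 ∧
    Real.exp (-(3 * h ^ 3 * n / 2000)) + Real.exp (-(n : ℝ) ^ (δ / 17)) ≤
      Real.exp (-(n : ℝ) ^ (δ / 20)) := by
  have hT : Filter.Tendsto (fun n : ℕ => (n : ℝ)) Filter.atTop Filter.atTop :=
    tendsto_natCast_atTop_atTop
  have e1 : ∀ᶠ n : ℕ in Filter.atTop, (100 : ℝ) ≤ (n : ℝ) ^ δ :=
    hT.eventually ((tendsto_rpow_atTop hδ).eventually_ge_atTop 100)
  have e2 : ∀ᶠ n : ℕ in Filter.atTop, (2 * 2000 / 3 : ℝ) ≤ (n : ℝ) ^ (59 * δ / 20) :=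
    hT.eventually ((tendsto_rpow_atTop (by positivity)).eventually_ge_atTop _)
  have e3 : ∀ᶠ n : ℕ in Filter.atTop, (2 : ℝ) ≤ (n : ℝ) ^ (3 * δ / 340) :=
    hT.eventually ((tendsto_rpow_atTop (by positivity)).eventually_ge_atTop _)
  have e4 : ∀ᶠ n : ℕ in Filter.atTop, (1 : ℝ) ≤ (n : ℝ) ^ (δ / 20) :=
    hT.eventually ((tendsto_rpow_atTop (by positivity)).eventually_ge_atTop _)
  have e5 : ∀ᶠ n : ℕ in Filter.atTop, ‖Real.log (n : ℝ)‖ ≤
      (1 / (4 * 10 ^ 5)) * ‖(n : ℝ) ^ (2 * δ)‖ :=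
    hT.eventually ((isLittleO_log_rpow_atTop (by positivity)).bound (by norm_num))
  have e6 : ∀ᶠ n : ℕ in Filter.atTop, 3 ≤ n := Filter.eventually_ge_atTop 3
  obtain ⟨n₀, hn₀⟩ := Filter.eventually_atTop.1 (e1.and (e2.and (e3.and (e4.and (e5.and e6)))))
  refine ⟨n₀, fun n hn h hh => ?_⟩
  obtain ⟨f1, f2, f3, f4, f5, f6⟩ := hn₀ n hn
  have hn0 : (0 : ℝ) < n := by
    have : 0 < n := by omega
    exact_mod_cast this
  have hpos : 0 < h := lt_of_lt_of_le (Real.rpow_pos_of_pos hn0 _) hh.lo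
  have hle : h ≤ ((n : ℝ) ^ δ)⁻¹ := by
    rw [← Real.rpow_neg hn0.le]
    exact hh.hi
  have hP : 0 < (n : ℝ) ^ δ := Real.rpow_pos_of_pos hn0 _
  have h100 : h ≤ 1 / 100 := by
    refine hle.trans ?_
    rw [one_div]
    exact inv_anti₀ (by norm_num) f1
  have h3 : (n : ℝ) ^ (3 * δ) ≤ h ^ 3 * n := by
    have h1 : ((n : ℝ) ^ (-(1 / 3 : ℝ) + δ)) ^ 3 ≤ h ^ 3 :=
      pow_le_pow_left₀ (Real.rpow_pos_of_pos hn0 _).le hh.lo 3
    have h2 : ((n : ℝ) ^ (-(1 / 3 : ℝ) + δ)) ^ 3 * n = (n : ℝ) ^ (3 * δ) := by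
      rw [← Real.rpow_natCast, ← Real.rpow_mul hn0.le]
      conv_lhs => rw [← Real.rpow_one (n : ℝ)]
      rw [← Real.rpow_mul hn0.le, ← Real.rpow_add hn0]
      congr 1
      push_cast
      ring
    rw [← h2]
    exact mul_le_mul_of_nonneg_right h1 hn0.le
  refine ⟨f6, hpos, h100, ?_, ?_⟩
  · have hh2 : h ^ 2 * (n : ℝ) ^ (2 * δ) ≤ 1 := by
      have h1 : h * (n : ℝ) ^ δ ≤ 1 := by
        calc h * (n : ℝ) ^ δ ≤ ((n : ℝ) ^ δ)⁻¹ * (n : ℝ) ^ δ :=
              mul_le_mul_of_nonneg_right hle hP.le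
          _ = 1 := inv_mul_cancel₀ hP.ne'
      have h2 : (n : ℝ) ^ (2 * δ) = ((n : ℝ) ^ δ) ^ 2 := by
        rw [← Real.rpow_natCast, ← Real.rpow_mul hn0.le]
        congr 1
        push_cast
        ring
      rw [h2, ← mul_pow]
      exact pow_le_one₀ (by positivity) h1
    have hlog0 : 0 ≤ Real.log n := Real.log_natCast_nonneg n
    rw [Real.norm_eq_abs, Real.norm_eq_abs, abs_of_nonneg hlog0,
      abs_of_pos (Real.rpow_pos_of_pos hn0 _)] at f5
    have h4 : h ^ 2 * Real.log n ≤ 1 / (4 * 10 ^ 5) := by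
      calc h ^ 2 * Real.log n ≤ h ^ 2 * (1 / (4 * 10 ^ 5) * (n : ℝ) ^ (2 * δ)) :=
            mul_le_mul_of_nonneg_left f5 (by positivity)
        _ = 1 / (4 * 10 ^ 5) * (h ^ 2 * (n : ℝ) ^ (2 * δ)) := by ring
        _ ≤ 1 / (4 * 10 ^ 5) * 1 := mul_le_mul_of_nonneg_left hh2 (by norm_num)
        _ = 1 / (4 * 10 ^ 5) := by ring
    have h5 : h ^ 2 ≤ 1 := pow_le_one₀ hpos.le (by linarith)
    have h6 : (C1 * Real.log n + 1) * h ^ 2 / 10 ^ 6 =
        (2 * 10 ^ 11 * (h ^ 2 * Real.log n) + h ^ 2) / 10 ^ 6 := by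
      unfold C1
      ring
    rw [h6, div_le_one (by norm_num)]
    nlinarith
  · have g1 : (n : ℝ) ^ (δ / 20) + Real.log 2 ≤ 3 * h ^ 3 * n / 2000 := by
      have h1 : (n : ℝ) ^ (3 * δ) = (n : ℝ) ^ (δ / 20) * (n : ℝ) ^ (59 * δ / 20) := by
        rw [← Real.rpow_add hn0]
        congr 1
        ring
      have h2 : Real.log 2 ≤ 1 := by
        have := Real.log_two_lt_d9
        linarith
      have h4 : (n : ℝ) ^ (δ / 20) * (2 * 2000 / 3) ≤ (n : ℝ) ^ (3 * δ) := by
        rw [h1]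
        exact mul_le_mul_of_nonneg_left f2 (by linarith)
      nlinarith
    have g2 : (n : ℝ) ^ (δ / 20) + Real.log 2 ≤ (n : ℝ) ^ (δ / 17) := by
      have h1 : (n : ℝ) ^ (δ / 17) = (n : ℝ) ^ (δ / 20) * (n : ℝ) ^ (3 * δ / 340) := by
        rw [← Real.rpow_add hn0]
        congr 1
        ring
      have h2 : Real.log 2 ≤ 1 := by
        have := Real.log_two_lt_d9
        linarith
      have h4 : (n : ℝ) ^ (δ / 20) * 2 ≤ (n : ℝ) ^ (δ / 17) := by
        rw [h1]
        exact mul_le_mul_of_nonneg_left f3 (by linarith)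
      linarith
    have g3 : Real.exp (-((n : ℝ) ^ (δ / 20) + Real.log 2)) = Real.exp (-(n : ℝ) ^ (δ / 20)) / 2 := by
      rw [neg_add, Real.exp_add, Real.exp_neg (Real.log 2), Real.exp_log (by norm_num)]
      ring
    have g4 : Real.exp (-(3 * h ^ 3 * n / 2000)) ≤ Real.exp (-(n : ℝ) ^ (δ / 20)) / 2 := by
      rw [← g3]
      exact Real.exp_le_exp.2 (by linarith)
    have g5 : Real.exp (-(n : ℝ) ^ (δ / 17)) ≤ Real.exp (-(n : ℝ) ^ (δ / 20)) / 2 := by
      rw [← g3]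
      exact Real.exp_le_exp.2 (by linarith)
    linarith

theorem AvE_XS_nonneg {n : ℕ} {h : ℝ} (hh : 0 ≤ h) (i : ℕ) : 0 ≤ XS n h i := by
  unfold XS
  have : 0 ≤ (Real.log n) ^ (1 / 4 : ℝ) := Real.rpow_nonneg (Real.log_natCast_nonneg n) _
  positivity

/-- Sum over the values of a random variable. -/
theorem AvE_sum {ι B κ : Type} [Fintype ι] [Fintype B] (q : B → ℝ) (T : (ι → B) → κ) (s : Finset κ)
    (w : κ → ℝ) : ∑ D ∈ s, PP q {b | T b = D} * w D =
      EE q (fun b => open Classical in if T b ∈ s then w (T b) else 0) := by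
  classical
  have h1 : ∀ D ∈ s, PP q {b | T b = D} * w D =
      EE q (fun b => w D * (if b ∈ {b | T b = D} then 1 else 0)) := by
    intro D _
    rw [EE_mul_left, mul_comm]
    unfold PP
    congr 1
  rw [Finset.sum_congr rfl h1, ← EE_sum]
  congr 1
  funext b
  have h2 : ∀ D ∈ s, w D * (if b ∈ {b | T b = D} then (1 : ℝ) else 0) =
      if T b = D then w (T b) else 0 := by
    intro D _
    by_cases h : T b = D
    · rw [if_pos h, if_pos (show b ∈ {b | T b = D} from h), h, mul_one]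
    · rw [if_neg h, if_neg (show b ∉ {b | T b = D} from h), mul_zero]
  rw [Finset.sum_congr rfl h2, Finset.sum_ite_eq]

open Classical in
theorem AvE_point {V B : Type} [Fintype V] [DecidableEq V] [Fintype B] [DecidableEq B]
    (q : B → ℝ) (S : BinS B) (h : ℝ) (J : ℕ) (k km : ℕ) (hS : S.Ok q (Fintype.card V) h J)
    (hn : 0 < Fintype.card V) (h0 : 0 < h) (Y D : Finset V) (lev : V → ℕ)
    (hlev : ∀ v ∈ Y, lev v ≤ J) (b : Sym2 V → B) :
    Real.exp (-((qs q S.A - qs q S.m) * D.card * (gg (adj S.m b) (Yᶜ \ D) km).card)) *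
          ∏ v ∈ Y.filter (fun v => lev v ≠ 0),
            Real.exp (-(qs q (S.y (lev v)) * (gg (adj (S.y (lev v)) b) (Yᶜ \ D) k).card)) ≤
      Real.exp (-((C1 * Real.log (Fintype.card V) + 1) * h ^ 2 / 10 ^ 6)) ^ D.card *
        (∏ v ∈ Y.filter (fun v => lev v ≠ 0),
          Real.exp (-(6 / 5 * XS (Fintype.card V) h (lev v)))) +
      if b ∈ {b : Sym2 V → B |
      ((gg (adj S.m b) (Yᶜ \ D) km).card : ℝ) < h * Fintype.card V / 10 ^ 6 ∨
      ∃ i ≤ J, ((gg (adj (S.y i) b) (Yᶜ \ D) k).card : ℝ) <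
        6 / 5 * XS (Fintype.card V) h i * Fintype.card V} then 1 else 0 := by
  have hn' : (0 : ℝ) < Fintype.card V := by exact_mod_cast hn
  have hlog : 0 ≤ Real.log (Fintype.card V) := Real.log_natCast_nonneg _
  have hpp : qs q S.A - qs q S.m = (C1 * Real.log (Fintype.card V) + 1) * h / Fintype.card V := by
    rw [hS.qA, hS.qm]
    ring
  have hC1 : (0 : ℝ) ≤ C1 := by unfold C1; norm_num
  have hpp0 : 0 ≤ qs q S.A - qs q S.m := by
    rw [hpp]
    positivity
  have hqy : ∀ v ∈ Y.filter (fun v => lev v ≠ 0), qs q (S.y (lev v)) =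
      (1 + XS (Fintype.card V) h (lev v)) / Fintype.card V := fun v hv =>
    hS.qy _ (hlev v (Finset.mem_filter.1 hv).1)
  have hX : ∀ i, 0 ≤ XS (Fintype.card V) h i := fun i => AvE_XS_nonneg h0.le i
  split_ifs with hb
  · have h1 : Real.exp (-((qs q S.A - qs q S.m) * D.card *
        (gg (adj S.m b) (Yᶜ \ D) km).card)) ≤ 1 := by
      rw [Real.exp_le_one_iff]
      have : 0 ≤ (qs q S.A - qs q S.m) * D.card * (gg (adj S.m b) (Yᶜ \ D) km).card := by
        positivity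
      linarith
    have h2 : ∏ v ∈ Y.filter (fun v => lev v ≠ 0),
        Real.exp (-(qs q (S.y (lev v)) * (gg (adj (S.y (lev v)) b) (Yᶜ \ D) k).card)) ≤ 1 := by
      apply Finset.prod_le_one
      · intro v _
        exact (Real.exp_pos _).le
      · intro v hv
        rw [Real.exp_le_one_iff, hqy v hv]
        have := hX (lev v)
        have : 0 ≤ (1 + XS (Fintype.card V) h (lev v)) / (Fintype.card V : ℝ) *
          (gg (adj (S.y (lev v)) b) (Yᶜ \ D) k).card := by positivity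
        linarith
    have h3 : 0 ≤ ∏ v ∈ Y.filter (fun v => lev v ≠ 0),
        Real.exp (-(qs q (S.y (lev v)) * (gg (adj (S.y (lev v)) b) (Yᶜ \ D) k).card)) :=
      Finset.prod_nonneg fun v _ => (Real.exp_pos _).le
    have h4 : 0 ≤ Real.exp (-((C1 * Real.log (Fintype.card V) + 1) * h ^ 2 / 10 ^ 6)) ^ D.card *
        (∏ v ∈ Y.filter (fun v => lev v ≠ 0),
          Real.exp (-(6 / 5 * XS (Fintype.card V) h (lev v)))) :=
      mul_nonneg (pow_nonneg (Real.exp_pos _).le _)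
        (Finset.prod_nonneg fun v _ => (Real.exp_pos _).le)
    have h5 := mul_le_mul h1 h2 h3 (by norm_num : (0 : ℝ) ≤ 1)
    linarith
  · have hb' := not_or.1 hb
    have hb1 := not_lt.1 hb'.1
    have hb2 : ∀ i ≤ J, 6 / 5 * XS (Fintype.card V) h i * Fintype.card V ≤
        ((gg (adj (S.y i) b) (Yᶜ \ D) k).card : ℝ) := by
      intro i hi
      by_contra hc
      exact hb'.2 ⟨i, hi, not_le.1 hc⟩
    rw [add_zero]
    apply mul_le_mul
    · rw [← Real.exp_nat_mul]
      apply Real.exp_le_exp.2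
      rw [hpp]
      have h1 : (C1 * Real.log (Fintype.card V) + 1) * h / Fintype.card V * D.card *
          (h * Fintype.card V / 10 ^ 6) ≤
          (C1 * Real.log (Fintype.card V) + 1) * h / Fintype.card V * D.card *
          (gg (adj S.m b) (Yᶜ \ D) km).card := by
        apply mul_le_mul_of_nonneg_left hb1
        positivity
      have h2 : (C1 * Real.log (Fintype.card V) + 1) * h / Fintype.card V * D.card *
          (h * Fintype.card V / 10 ^ 6) = D.card * ((C1 * Real.log (Fintype.card V) + 1) *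
            h ^ 2 / 10 ^ 6) := by
        field_simp
      linarith
    · apply Finset.prod_le_prod
      · intro v _
        exact (Real.exp_pos _).le
      · intro v hv
        apply Real.exp_le_exp.2
        rw [hqy v hv]
        have h1 := hb2 (lev v) (hlev v (Finset.mem_filter.1 hv).1)
        have h2 := hX (lev v)
        have h3 : (1 + XS (Fintype.card V) h (lev v)) / (Fintype.card V : ℝ) *
            (6 / 5 * XS (Fintype.card V) h (lev v) * Fintype.card V) ≤
            (1 + XS (Fintype.card V) h (lev v)) / (Fintype.card V : ℝ) *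
            (gg (adj (S.y (lev v)) b) (Yᶜ \ D) k).card :=
          mul_le_mul_of_nonneg_left h1 (by positivity)
        have h4 : (1 + XS (Fintype.card V) h (lev v)) / (Fintype.card V : ℝ) *
            (6 / 5 * XS (Fintype.card V) h (lev v) * Fintype.card V) =
            (1 + XS (Fintype.card V) h (lev v)) * (6 / 5 * XS (Fintype.card V) h (lev v)) := by
          field_simp
        nlinarith
    · exact Finset.prod_nonneg fun v _ => (Real.exp_pos _).le
    · exact pow_nonneg (Real.exp_pos _).le _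

theorem avoid_prob (δ : ℝ) (hδ : 0 < δ) (hδ1 : δ ≤ 1 / 10) : ∃ n₀ : ℕ, ∀ (V : Type) [Fintype V]
    [DecidableEq V], n₀ ≤ Fintype.card V → ∀ h : ℝ, R2Par δ (Fintype.card V) h → ∀ J : ℕ,
    XS (Fintype.card V) h J ≤ 1 / 4 → J ≤ Fintype.card V →
    ∀ (B : Type) [Fintype B] [DecidableEq B] (q : B → ℝ) (S : BinS B),
    S.Ok q (Fintype.card V) h J → ∀ (Y : Finset V) (lev : V → ℕ), (∀ v ∈ Y, lev v ≤ J) →
    (Y.card : ℝ) ≤ h ^ 2 * Fintype.card V / 1000 →
    PP q {b : Sym2 V → B | Avoid (relsB S b) (kst δ (Fintype.card V) h) (kh h) Y lev} ≤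
      (∏ v ∈ Y, Real.exp (-(6 / 5 * XS (Fintype.card V) h (lev v)))) +
        Real.exp (-(Fintype.card V : ℝ) ^ (δ / 20)) := by
  obtain ⟨n₁, hn₁⟩ := AvE_num δ hδ
  obtain ⟨n₂, hn₂⟩ := masses δ hδ hδ1
  refine ⟨max n₁ n₂, ?_⟩
  intro V _ _ hV h hR J hXJ hJ B _ _ q S hS Y lev hlev hY
  classical
  obtain ⟨h3, hpos, h100, hqq, herr⟩ := hn₁ _ (le_trans (le_max_left _ _) hV) h hR
  have hn : 0 < Fintype.card V := by omega
  have hn' : (0 : ℝ) < Fintype.card V := by exact_mod_cast hn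
  have hlaw := hS.law
  set t : ℕ := ⌊h * Fintype.card V / 200⌋₊ with ht
  set k := kst δ (Fintype.card V) h with hk
  set s : Finset (Finset V) := univ.filter fun D : Finset V => D.card ≤ t with hs
  set E : ℝ := Real.exp (-((C1 * Real.log (Fintype.card V) + 1) * h ^ 2 / 10 ^ 6)) with hE
  set P2 : ℝ := ∏ v ∈ Y.filter (fun v => lev v ≠ 0),
      Real.exp (-(6 / 5 * XS (Fintype.card V) h (lev v))) with hP2
  set ε : ℝ := Real.exp (-(Fintype.card V : ℝ) ^ (δ / 17)) with hε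
  have hP20 : 0 ≤ P2 := Finset.prod_nonneg fun v _ => (Real.exp_pos _).le
  have hP21 : P2 ≤ 1 := by
    apply Finset.prod_le_one
    · intro v _
      exact (Real.exp_pos _).le
    · intro v _
      rw [Real.exp_le_one_iff]
      have := AvE_XS_nonneg (n := Fintype.card V) hpos.le (lev v)
      linarith
  -- decomposition
  have step1 : PP q {b : Sym2 V → B | Avoid (relsB S b) k (kh h) Y lev} ≤
      PP q {b : Sym2 V → B | t < (TT (relsB S b) Y lev).card} +
      ∑ D ∈ s, PP q {b : Sym2 V → B | Avoid (relsB S b) k (kh h) Y lev ∧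
        TT (relsB S b) Y lev = D} := by
    refine (PP_mono hlaw ?_).trans ((PP_union_le hlaw {b : Sym2 V → B | t < (TT (relsB S b) Y lev).card}
      {b : Sym2 V → B | ∃ D ∈ s, b ∈ {b : Sym2 V → B | Avoid (relsB S b) k (kh h) Y lev ∧
        TT (relsB S b) Y lev = D}}).trans ?_)
    · intro b hb
      rcases Nat.lt_or_ge t (TT (relsB S b) Y lev).card with h1 | h1
      · exact Or.inl h1
      · exact Or.inr ⟨TT (relsB S b) Y lev, Finset.mem_filter.2 ⟨Finset.mem_univ _, h1⟩, hb, rfl⟩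
    · exact add_le_add le_rfl (PP_exists_le hlaw s _)
  have step2 : ∀ D ∈ s, PP q {b : Sym2 V → B | Avoid (relsB S b) k (kh h) Y lev ∧
        TT (relsB S b) Y lev = D} ≤ PP q {b : Sym2 V → B | TT (relsB S b) Y lev = D} *
          (E ^ D.card * P2 + ε) := by
    intro D hD
    have hDt : D.card ≤ t := (Finset.mem_filter.1 hD).2
    have hDr : (D.card : ℝ) ≤ h * Fintype.card V / 200 :=
      (Nat.cast_le.2 hDt).trans (Nat.floor_le (by positivity))
    refine (avoid_decomp hlaw S hS.mA k (kh h) Y D lev).trans ?_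
    apply mul_le_mul_of_nonneg_left _ (PP_nonneg hlaw _)
    have hW : (Fintype.card V : ℝ) * (1 - h / 190) ≤ (Yᶜ \ D).card := by
      have h1 : Fintype.card V ≤ (Yᶜ \ D).card + (Y.card + D.card) := by
        have h2 : (univ : Finset V) ⊆ (Yᶜ \ D) ∪ (Y ∪ D) := by
          intro v _
          simp only [Finset.mem_union, Finset.mem_sdiff, Finset.mem_compl]
          tauto
        have h3 := Finset.card_le_card h2
        rw [Finset.card_univ] at h3
        have h4 := Finset.card_union_le (Yᶜ \ D) (Y ∪ D)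
        have h5 := Finset.card_union_le Y D
        omega
      have h2 : (Fintype.card V : ℝ) ≤ (Yᶜ \ D).card + (Y.card + D.card) := by exact_mod_cast h1
      have h6 : h ^ 2 * Fintype.card V / 1000 ≤ (1 / 100) * h * Fintype.card V / 1000 := by
        have : h ^ 2 ≤ 1 / 100 * h := by nlinarith
        have := mul_le_mul_of_nonneg_right this hn'.le
        linarith
      nlinarith [mul_pos hpos hn']
    have hmass := hn₂ V (le_trans (le_max_right _ _) hV) h hR J hXJ hJ B q S hS (Yᶜ \ D) hW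
    refine (EE_mono hlaw (AvE_point q S h J k (kh h) hS hn hpos Y D lev hlev)).trans ?_
    rw [EE_add, EE_const hlaw]
    refine add_le_add le_rfl ?_
    refine le_trans (le_of_eq ?_) hmass
    unfold PP
    congr 1
    funext b
    congr
  have step3 : ∑ D ∈ s, PP q {b : Sym2 V → B | TT (relsB S b) Y lev = D} *
          (E ^ D.card * P2 + ε) ≤
      Real.exp (-(6 / 5 * XS (Fintype.card V) h 0)) ^ (Y.filter fun v => lev v = 0).card * P2 + ε := by
    have h1 : ∑ D ∈ s, PP q {b : Sym2 V → B | TT (relsB S b) Y lev = D} *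
          (E ^ D.card * P2 + ε) =
        (∑ D ∈ s, PP q {b : Sym2 V → B | TT (relsB S b) Y lev = D} * E ^ D.card) * P2 +
        (∑ D ∈ s, PP q {b : Sym2 V → B | TT (relsB S b) Y lev = D} * 1) * ε := by
      rw [Finset.sum_mul, Finset.sum_mul, ← Finset.sum_add_distrib]
      apply Finset.sum_congr rfl
      intro D _
      ring
    rw [h1, AvE_sum q (fun b : Sym2 V → B => TT (relsB S b) Y lev) s (fun D => E ^ D.card),
      AvE_sum q (fun b : Sym2 V → B => TT (relsB S b) Y lev) s (fun _ => 1)]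
    refine add_le_add ?_ ?_
    · apply mul_le_mul_of_nonneg_right _ hP20
      refine le_trans (le_of_eq ?_) (laplace_T q S h J hS hpos h100 h3 Y lev hY hqq)
      congr 1
      funext b
      have : (TT (relsB S b) Y lev ∈ s) ↔
          (TT (relsB S b) Y lev).card ≤ ⌊h * Fintype.card V / 200⌋₊ := by
        simp [hs, ht]
      by_cases hc : (TT (relsB S b) Y lev).card ≤ ⌊h * Fintype.card V / 200⌋₊
      · rw [if_pos (this.2 hc), if_pos hc]
      · rw [if_neg (fun hh => hc (this.1 hh)), if_neg hc]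
    · have h2 : ∀ inst : ∀ b : Sym2 V → B, Decidable (TT (relsB S b) Y lev ∈ s),
          EE q (fun b : Sym2 V → B => @ite ℝ (TT (relsB S b) Y lev ∈ s) (inst b) 1 0) ≤ 1 := by
        intro inst
        refine (EE_mono hlaw (G := fun _ => 1) ?_).trans (le_of_eq (EE_const hlaw 1))
        intro b
        split_ifs
        · exact le_rfl
        · exact zero_le_one
      have hε0 : 0 ≤ ε := (Real.exp_pos _).le
      refine le_trans (mul_le_mul_of_nonneg_right (h2 _) hε0) (le_of_eq (one_mul ε))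
  have step4 : PP q {b : Sym2 V → B | t < (TT (relsB S b) Y lev).card} ≤
      Real.exp (-(3 * h ^ 3 * Fintype.card V / 2000)) := tail_T q S h J hS hpos h100 Y lev hY
  have step5 : Real.exp (-(6 / 5 * XS (Fintype.card V) h 0)) ^
      (Y.filter fun v => lev v = 0).card * P2 =
      ∏ v ∈ Y, Real.exp (-(6 / 5 * XS (Fintype.card V) h (lev v))) := by
    rw [← Finset.prod_filter_mul_prod_filter_not Y (fun v => lev v = 0)]
    congr 1
    rw [Finset.prod_congr rfl (g := fun _ => Real.exp (-(6 / 5 * XS (Fintype.card V) h 0)))]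
    · rw [Finset.prod_const]
    · intro v hv
      rw [(Finset.mem_filter.1 hv).2]
  have step6 := Finset.sum_le_sum step2
  rw [← step5]
  linarith

end RST.P
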