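import Pool.Agent.Lib.MP_7946c7_pr.P.DepA

/-!
# JOB P/AvoidD: no `A`-good vertex implies AVOID (deterministic)

PROOF. (1) Let `u ∈ TT ρ Y lev = expl ρ.m Y₁ Yᶜ`, `Y₁ = {v ∈ Y : lev v = 0}`. Then there is `q ∈ Y₁` and
`u ∈ cmp ρ.m univ q` (either `u = q` or a step `ρ.m q u'` followed by a path in `Yᶜ`). `q = γ t` for
some `t ≤ ℓ`. Let `w ∈ gg ρ.m (Vp ..) km`: `km ≤ #cmp ρ.m V' w ≤ #cmp ρ.m univ w` (monotonicity of
`cmp` in the vertex set). If `ρ.A u w` then `AGood ρ.m ρ.A km (γ t)` (second alternative of the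
definition, file `DefsW.lean`): contradiction.
(2) Let `v = γ t ∈ Y`, `i = lev v = dep ρ k γ J ℓ t ≠ 0` and `w ∈ gg (ρ.y i) V' k`, `ρ.y i v w`. Then
`cmp (ρ.y i) V' w ⊆ cmp (ρ.y i) univ v`, so `v ∈ GG ρ k i`: contradiction with
`not_mem_GG_of_dep` (file `DepA.lean`).
-/

open Finset

namespace RST.P

variable {V : Type} [Fintype V]

theorem avoidD_rch_mono (R : V → V → Prop) (W : Finset V) (u v : V) (h : Rch R W u v) :
    Rch R univ u v := by
  unfold Rch at h ⊢
  induction h with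
  | refl => exact Relation.ReflTransGen.refl
  | tail _ h2 ih => exact ih.tail ⟨h2.1, mem_univ _, mem_univ _⟩

open Classical in
theorem avoidD_cmp_mono (R : V → V → Prop) (W : Finset V) (v : V) :
    cmp R W v ⊆ cmp R univ v := by
  intro w hw
  unfold cmp at hw ⊢
  rw [mem_filter] at hw ⊢
  exact ⟨mem_univ _, mem_univ _, avoidD_rch_mono R W v w hw.2.2⟩

open Classical in
theorem avoidD_mem_cmp_univ (R : V → V → Prop) (v w : V) (h : Rch R univ v w) :
    w ∈ cmp R univ v := by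
  unfold cmp
  rw [mem_filter]
  exact ⟨mem_univ _, mem_univ _, h⟩

open Classical in
theorem avoid_of_not_AGood (ρ : Rels V) (k km J ℓ : ℕ) (γ : ℕ → V) (Y : Finset V) (lev : V → ℕ)
    (hY : ∀ v, v ∈ Y ↔ ∃ t ≤ ℓ, γ t = v) (hlev : ∀ t ≤ ℓ, lev (γ t) = dep ρ k γ J ℓ t)
    (hA : ∀ t ≤ ℓ, ¬ AGood ρ.m ρ.A km (γ t)) : Avoid ρ k km Y lev := by
  constructor
  · intro u hu w hw hA'
    have hq : ∃ q, q ∈ Y ∧ Rch ρ.m univ q u := by
      unfold TT expl at hu
      rw [mem_union] at hu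
      rcases hu with hu | hu
      · rw [mem_filter] at hu
        exact ⟨u, hu.1, Relation.ReflTransGen.refl⟩
      · rw [mem_filter] at hu
        obtain ⟨-, q, hq, u', -, hqu, hr⟩ := hu
        rw [mem_filter] at hq
        exact ⟨q, hq.1, Relation.ReflTransGen.head ⟨hqu, mem_univ _, mem_univ _⟩
          (avoidD_rch_mono _ _ _ _ hr)⟩
    obtain ⟨q, hqY, hqu⟩ := hq
    obtain ⟨t, ht, rfl⟩ := (hY q).1 hqY
    apply hA t ht
    right
    refine ⟨u, avoidD_mem_cmp_univ _ _ _ hqu, w, ?_, hA'⟩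
    unfold gg at hw
    rw [mem_filter] at hw
    exact hw.2.trans (card_le_card (avoidD_cmp_mono _ _ _))
  · intro v hv hlv w hw hvw
    obtain ⟨t, ht, rfl⟩ := (hY v).1 hv
    have h1 := hlev t ht
    rw [h1] at hlv hw hvw
    apply not_mem_GG_of_dep ρ k γ J ℓ t (Nat.pos_of_ne_zero hlv)
    unfold GG gg
    rw [mem_filter]
    refine ⟨mem_univ _, ?_⟩
    unfold gg at hw
    rw [mem_filter] at hw
    refine hw.2.trans (card_le_card ?_)
    intro x hx
    apply avoidD_mem_cmp_univ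
    have hx' : Rch (ρ.y (dep ρ k γ J ℓ t)) univ w x := by
      have := avoidD_cmp_mono _ _ _ hx
      unfold cmp at this
      rw [mem_filter] at this
      exact this.2.2
    exact Relation.ReflTransGen.head ⟨hvw, mem_univ _, mem_univ _⟩ hx'

end RST.P
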