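import Pool.Agent.Lib.MP_7946c7_pr.P.Fub

/-!
# JOB P/Cross: probability of a crossing condition between two disjoint sets of vertices

`U`, `W` disjoint. `G` depends only on the edges inside `U`, `F` and the forbidden sets `bad u w b`
only on the edges inside `W`. Then the edges between `U` and `W` can be integrated out.

PROOF. `E₃ = {s(u,w) : u ∈ U, w ∈ W} = (U ×ˢ W).image (fun p => s(p.1,p.2))`; the map `p ↦ s(p.1,p.2)` is
injective on `U ×ˢ W` because `U`, `W` are disjoint. The indicator is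
`∏ u ∈ U, ∏ w ∈ W, 1(b s(u,w) ∉ bad u w b) = ∏ e ∈ E₃, φ e b (b e)` with
`φ e b x = ∏ p ∈ (U ×ˢ W).filter (s(p.1,p.2) = e), 1(x ∉ bad p.1 p.2 b)` (for `e ∈ E₃` the product has
one factor). An edge inside `W` or inside `U` is not in `E₃`, so `F`, `G` and `φ e` depend on `E₃ᶜ` only.
`EE_integrate` gives `EE q (G F ∏ φ) = EE q (G F ∏_{(u,w)} ∑ x, q x 1(x ∉ bad u w b))` and
`∑ x, q x 1(x ∉ bad) = 1 - qs q bad` (`hq.sum_one`). Then `EE_indep` (file `IfG.lean`) with
`s = {edges inside U}` for `G` and `F ∏ …`, which depends on the edges inside `W`, a subset of `sᶜ` —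
careful: `sᶜ` must contain the edges inside `W`: an edge inside `W` is not inside `U` (an edge has at
least one endpoint, `U`, `W` disjoint). (`DependsOn.mono`.)
-/

open Finset

namespace RST.P

variable {V B : Type} [Fintype V] [DecidableEq V] [Fintype B] [DecidableEq B]

omit [Fintype V] [DecidableEq V] in
private theorem cross_inj (U W : Finset V) (hUW : Disjoint U W) :
    Set.InjOn (fun p : V × V => s(p.1, p.2)) (U ×ˢ W : Finset (V × V)) := by
  intro p hp p' hp' h
  have hp1 := Finset.mem_product.1 (Finset.mem_coe.1 hp)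
  have hp2 := Finset.mem_product.1 (Finset.mem_coe.1 hp')
  rcases Sym2.eq_iff.1 h with ⟨h1, h2⟩ | ⟨h1, h2⟩
  · exact Prod.ext h1 h2
  · exfalso
    exact Finset.disjoint_left.1 hUW hp1.1 (h1 ▸ hp2.2)

omit [Fintype V] [DecidableEq V] [DecidableEq B] in
private theorem cross_sum {q : B → ℝ} (hq : IsLaw q) (A : Finset B) (φ : B → ℝ)
    (h1 : ∀ x ∈ A, φ x = 0) (h2 : ∀ x, x ∉ A → φ x = 1) :
    ∑ x, q x * φ x = 1 - qs q A := by
  classical
  have h3 : ∑ x, q x = qs q A + ∑ x ∈ Aᶜ, q x := by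
    unfold qs
    rw [Finset.sum_add_sum_compl]
  have h4 : ∑ x, q x * φ x = ∑ x ∈ A, q x * φ x + ∑ x ∈ Aᶜ, q x * φ x := by
    rw [Finset.sum_add_sum_compl]
  have h5 : ∑ x ∈ A, q x * φ x = 0 :=
    Finset.sum_eq_zero (fun x hx => by rw [h1 x hx, mul_zero])
  have h6 : ∑ x ∈ Aᶜ, q x * φ x = ∑ x ∈ Aᶜ, q x :=
    Finset.sum_congr rfl (fun x hx => by rw [h2 x (Finset.mem_compl.1 hx), mul_one])
  rw [h4, h5, h6]
  have h7 := hq.sum_one
  linarith

open Classical in
theorem cross_prob {q : B → ℝ} (hq : IsLaw q) (U W : Finset V) (hUW : Disjoint U W)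
    (bad : V → V → (Sym2 V → B) → Finset B)
    (hbad : ∀ u ∈ U, ∀ w ∈ W, DependsOn (bad u w) {e : Sym2 V | ∀ v ∈ e, v ∈ W})
    (F G : (Sym2 V → B) → ℝ) (hF : DependsOn F {e : Sym2 V | ∀ v ∈ e, v ∈ W})
    (hG : DependsOn G {e : Sym2 V | ∀ v ∈ e, v ∈ U}) :
    EE q (fun b => G b * (F b *
      (if ∀ u ∈ U, ∀ w ∈ W, b s(u, w) ∉ bad u w b then 1 else 0))) =
      EE q G * EE q (fun b => F b * ∏ u ∈ U, ∏ w ∈ W, (1 - qs q (bad u w b))) := by
  set g : V × V → Sym2 V := fun p => s(p.1, p.2) with hg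
  have hinj : Set.InjOn g (U ×ˢ W : Finset (V × V)) := cross_inj U W hUW
  set E : Finset (Sym2 V) := (U ×ˢ W).image g with hE
  set φ : Sym2 V → (Sym2 V → B) → B → ℝ := fun e b x =>
    ∏ p ∈ (U ×ˢ W).filter (fun p => g p = e), (if x ∈ bad p.1 p.2 b then 0 else 1) with hφ
  have hφg : ∀ p ∈ U ×ˢ W, ∀ b x, φ (g p) b x = if x ∈ bad p.1 p.2 b then 0 else 1 := by
    intro p hp b x
    have h1 : (U ×ˢ W).filter (fun p' => g p' = g p) = {p} := by
      ext p'
      rw [Finset.mem_filter, Finset.mem_singleton]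
      constructor
      · rintro ⟨h1, h2⟩
        exact hinj (Finset.mem_coe.2 h1) (Finset.mem_coe.2 hp) h2
      · rintro rfl
        exact ⟨hp, rfl⟩
    simp only [hφ]
    rw [h1, Finset.prod_singleton]
  -- edges inside `W` or `U` are not in `E`
  have hW : {e : Sym2 V | ∀ v ∈ e, v ∈ W} ⊆ (E : Set (Sym2 V))ᶜ := by
    intro e he h
    rw [Finset.mem_coe, hE, Finset.mem_image] at h
    obtain ⟨p, hp, rfl⟩ := h
    rw [Finset.mem_product] at hp
    exact Finset.disjoint_left.1 hUW hp.1 (he p.1 (Sym2.mem_mk_left _ _))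
  have hU : {e : Sym2 V | ∀ v ∈ e, v ∈ U} ⊆ (E : Set (Sym2 V))ᶜ := by
    intro e he h
    rw [Finset.mem_coe, hE, Finset.mem_image] at h
    obtain ⟨p, hp, rfl⟩ := h
    rw [Finset.mem_product] at hp
    exact Finset.disjoint_left.1 hUW (he p.2 (Sym2.mem_mk_right _ _)) hp.2
  have hWU : {e : Sym2 V | ∀ v ∈ e, v ∈ W} ⊆ {e : Sym2 V | ∀ v ∈ e, v ∈ U}ᶜ := by
    intro e he h
    induction e using Sym2.ind with
    | _ x y =>
      exact Finset.disjoint_left.1 hUW (h x (Sym2.mem_mk_left _ _)) (he x (Sym2.mem_mk_left _ _))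
  -- the indicator
  have hind : ∀ b : Sym2 V → B,
      (if ∀ u ∈ U, ∀ w ∈ W, b s(u, w) ∉ bad u w b then (1 : ℝ) else 0) =
        ∏ e ∈ E, φ e b (b e) := by
    intro b
    rw [hE, Finset.prod_image hinj]
    rw [Finset.prod_congr rfl (fun p hp => hφg p hp b (b (g p)))]
    by_cases h : ∀ u ∈ U, ∀ w ∈ W, b s(u, w) ∉ bad u w b
    · rw [if_pos h]
      symm
      apply Finset.prod_eq_one
      intro p hp
      rw [Finset.mem_product] at hp
      rw [if_neg (h p.1 hp.1 p.2 hp.2)]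
    · rw [if_neg h]
      push Not at h
      obtain ⟨u, hu, w, hw, hb⟩ := h
      symm
      apply Finset.prod_eq_zero (Finset.mem_product.2 ⟨hu, hw⟩ : (u, w) ∈ U ×ˢ W)
      rw [if_pos hb]
  have hint : ∀ b : Sym2 V → B, ∏ e ∈ E, ∑ x, q x * φ e b x =
      ∏ u ∈ U, ∏ w ∈ W, (1 - qs q (bad u w b)) := by
    intro b
    rw [hE, Finset.prod_image hinj, Finset.prod_product]
    refine Finset.prod_congr rfl (fun u hu => Finset.prod_congr rfl (fun w hw => ?_))
    apply cross_sum hq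
    · intro x hx
      rw [hφg (u, w) (Finset.mem_product.2 ⟨hu, hw⟩), if_pos hx]
    · intro x hx
      rw [hφg (u, w) (Finset.mem_product.2 ⟨hu, hw⟩), if_neg hx]
  have hGF : DependsOn (fun b => G b * F b) (E : Set (Sym2 V))ᶜ := by
    intro x y h
    show G x * F x = G y * F y
    rw [hG (fun i hi => h i (hU hi)), hF (fun i hi => h i (hW hi))]
  have hφd : ∀ e ∈ E, ∀ x, DependsOn (fun b => φ e b x) (E : Set (Sym2 V))ᶜ := by
    intro e _ x b b' h
    simp only [hφ]
    refine Finset.prod_congr rfl (fun p hp => ?_)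
    rw [Finset.mem_filter, Finset.mem_product] at hp
    rw [hbad p.1 hp.1.1 p.2 hp.1.2 (fun i hi => h i (hW hi))]
  calc EE q (fun b => G b * (F b *
        (if ∀ u ∈ U, ∀ w ∈ W, b s(u, w) ∉ bad u w b then 1 else 0)))
      = EE q (fun b => (G b * F b) * ∏ e ∈ E, φ e b (b e)) := by
        congr 1
        funext b
        rw [← hind b]
        ring
    _ = EE q (fun b => (G b * F b) * ∏ e ∈ E, ∑ x, q x * φ e b x) :=
        EE_integrate hq E φ (fun b => G b * F b) hGF hφd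
    _ = EE q (fun b => G b * (F b * ∏ u ∈ U, ∏ w ∈ W, (1 - qs q (bad u w b)))) := by
        congr 1
        funext b
        rw [hint b]
        ring
    _ = EE q G * EE q (fun b => F b * ∏ u ∈ U, ∏ w ∈ W, (1 - qs q (bad u w b))) := by
        refine EE_indep hq {e : Sym2 V | ∀ v ∈ e, v ∈ U} G
          (fun b => F b * ∏ u ∈ U, ∏ w ∈ W, (1 - qs q (bad u w b))) hG ?_
        intro x y h
        show F x * ∏ u ∈ U, ∏ w ∈ W, (1 - qs q (bad u w x)) =
          F y * ∏ u ∈ U, ∏ w ∈ W, (1 - qs q (bad u w y))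
        rw [hF (fun i hi => h i (hWU hi))]
        congr 1
        refine Finset.prod_congr rfl (fun u hu => Finset.prod_congr rfl (fun w hw => ?_))
        rw [hbad u hu w hw (fun i hi => h i (hWU hi))]

end RST.P
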