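import Pool.Agent.Lib.MP_7946c7_pr.P.Defs

/-!
# JOB P/DepA: elementary properties of the depth (F1, F2, F4 of the notes)

Notation: `G i = GG ρ k i`, `d t = dep ρ k γ J ℓ t`.
* `dep_le`, `dep_spec`, `dep_min`: from `Nat.sInf_mem` (the set contains `J`) and `Nat.notMem_of_lt_sInf`.
* `GG_mono`: `cmp (ρ.y i) univ v ⊆ cmp (ρ.y j) univ v` by `ρ.Ok.yy` (monotonicity of `ReflTransGen`).
* `not_mem_GG_of_dep` (F4): if `0 < d t` then `d t - 1 < d t` is not in the set, `d t - 1 < J`, so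
  `γ t ∉ G ((d t - 1) + 1) = G (d t)`.
* `dep_flat` (F1): `t < ℓ`, `d t = d (t+1) = i < J`. If `t` is strictly inside a non costly `i`-step
  `[a,b]` then `a ≤ t < b`, so `ρ.z i (γ t) (γ (t+1))` (the step is not costly). If `t+1` is strictly
  inside a non costly `i`-step then `a ≤ t < b` too. Otherwise both `γ t, γ (t+1) ∈ G (i+1)`, so
  `Step i t (t+1)`; if `¬ ρ.z i (γ t) (γ (t+1))` it is costly.
* `dep_cross` (F2): `d t = i < j = d (t+1)`. `t` is not strictly inside a non costly `i`-step `[a,b]`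
  (otherwise `t + 1 ≤ b`: either `t+1 < b` is inside the same step or `γ (t+1) = γ b ∈ G (i+1)`; in both
  cases `DepSet (t+1) i`, so `d (t+1) ≤ i`). So `γ t ∈ G (i+1)`. And `γ (t+1) ∉ G j` (F4). If
  `ρ.y j (γ t) (γ (t+1))` then, as `γ t ∈ G (i+1) ⊆ G j`, the component of `γ (t+1)` in `ρ.y j` contains
  (is) the component of `γ t` (use symmetry), so `γ (t+1) ∈ G j`: contradiction. The case
  `d (t+1) < d t` is the same (with `a ≤ t`).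
-/

open Finset

namespace RST.P

variable {V : Type} [Fintype V]

theorem dep_le (ρ : Rels V) (k : ℕ) (γ : ℕ → V) (J ℓ t : ℕ) : dep ρ k γ J ℓ t ≤ J :=
  Nat.sInf_le (Or.inl rfl)

theorem dep_spec (ρ : Rels V) (k : ℕ) (γ : ℕ → V) (J ℓ t : ℕ) (h : dep ρ k γ J ℓ t < J) :
    DepSet ρ k γ ℓ t (dep ρ k γ J ℓ t) := by
  have hm : dep ρ k γ J ℓ t ∈ {i | i = J ∨ (i < J ∧ DepSet ρ k γ ℓ t i)} :=
    Nat.sInf_mem ⟨J, Or.inl rfl⟩
  rcases hm with hm | hm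
  · omega
  · exact hm.2

theorem dep_min (ρ : Rels V) (k : ℕ) (γ : ℕ → V) (J ℓ t i : ℕ) (h : i < dep ρ k γ J ℓ t) :
    ¬ DepSet ρ k γ ℓ t i := by
  intro hD
  have h1 := dep_le ρ k γ J ℓ t
  have h2 : i ∉ {i | i = J ∨ (i < J ∧ DepSet ρ k γ ℓ t i)} := Nat.notMem_of_lt_sInf h
  exact h2 (Or.inr ⟨by omega, hD⟩)

theorem GG_mono (ρ : Rels V) (J : ℕ) (hρ : ρ.Ok J) (k i j : ℕ) (hij : i ≤ j) (hj : j ≤ J) :
    GG ρ k i ⊆ GG ρ k j := by
  classical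
  intro v hv
  unfold GG gg at hv ⊢
  rw [Finset.mem_filter] at hv ⊢
  refine ⟨hv.1, hv.2.trans (Finset.card_le_card ?_)⟩
  intro w hw
  unfold cmp at hw ⊢
  rw [Finset.mem_filter] at hw ⊢
  refine ⟨hw.1, hw.2.1, ?_⟩
  have hr : Rch (ρ.y i) univ v w := hw.2.2
  unfold Rch at hr ⊢
  clear hw
  induction hr with
  | refl => exact Relation.ReflTransGen.refl
  | tail _ hxy ih => exact Relation.ReflTransGen.tail ih ⟨hρ.yy i j hij hj _ _ hxy.1, hxy.2⟩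

/-- F4. -/
theorem not_mem_GG_of_dep (ρ : Rels V) (k : ℕ) (γ : ℕ → V) (J ℓ t : ℕ)
    (h : 0 < dep ρ k γ J ℓ t) : γ t ∉ GG ρ k (dep ρ k γ J ℓ t) := by
  intro hm
  have h1 := dep_min ρ k γ J ℓ t (dep ρ k γ J ℓ t - 1) (by omega)
  apply h1
  left
  rwa [show dep ρ k γ J ℓ t - 1 + 1 = dep ρ k γ J ℓ t by omega]

/-- F1. -/
theorem dep_flat (ρ : Rels V) (k : ℕ) (γ : ℕ → V) (J ℓ t : ℕ) (ht : t < ℓ)
    (h : dep ρ k γ J ℓ t = dep ρ k γ J ℓ (t + 1)) (hJ : dep ρ k γ J ℓ t < J)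
    (hz : ¬ ρ.z (dep ρ k γ J ℓ t) (γ t) (γ (t + 1))) :
    Costly ρ k γ (dep ρ k γ J ℓ t) t (t + 1) := by
  have _ := ht
  have h1 := dep_spec ρ k γ J ℓ t hJ
  have h2 := dep_spec ρ k γ J ℓ (t + 1) (by rw [← h]; exact hJ)
  rw [← h] at h2
  rcases h1 with h1 | ⟨a, b, hat, htb, _, hS, hN⟩
  · rcases h2 with h2 | ⟨a, b, hat, htb, _, hS, hN⟩
    · exact ⟨⟨by omega, h1, h2, fun j h3 h4 => by omega⟩, t, le_rfl, by omega, hz⟩
    · exact absurd ⟨hS, t, by omega, by omega, hz⟩ hN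
  · exact absurd ⟨hS, t, by omega, by omega, hz⟩ hN

/-- F2, first part. -/
theorem dep_up_mem (ρ : Rels V) (k : ℕ) (γ : ℕ → V) (J ℓ t : ℕ) (ht : t < ℓ)
    (h : dep ρ k γ J ℓ t < dep ρ k γ J ℓ (t + 1)) : γ t ∈ GG ρ k (dep ρ k γ J ℓ t + 1) := by
  have _ := ht
  have h0 := dep_le ρ k γ J ℓ (t + 1)
  have h1 := dep_spec ρ k γ J ℓ t (by omega)
  have h2 := dep_min ρ k γ J ℓ (t + 1) _ h
  rcases h1 with h1 | ⟨a, b, hat, htb, hb, hS, hN⟩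
  · exact h1
  · exfalso
    apply h2
    rcases Nat.lt_or_ge (t + 1) b with h3 | h3
    · exact Or.inr ⟨a, b, by omega, h3, hb, hS, hN⟩
    · left
      have hbt : b = t + 1 := by omega
      have hSb := hS.2.2.1
      rw [hbt] at hSb
      exact hSb

/-- F2, first part, downwards. -/
theorem dep_down_mem (ρ : Rels V) (k : ℕ) (γ : ℕ → V) (J ℓ t : ℕ) (ht : t < ℓ)
    (h : dep ρ k γ J ℓ (t + 1) < dep ρ k γ J ℓ t) :
    γ (t + 1) ∈ GG ρ k (dep ρ k γ J ℓ (t + 1) + 1) := by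
  have _ := ht
  have h0 := dep_le ρ k γ J ℓ t
  have h1 := dep_spec ρ k γ J ℓ (t + 1) (by omega)
  have h2 := dep_min ρ k γ J ℓ t _ h
  rcases h1 with h1 | ⟨a, b, hat, htb, hb, hS, hN⟩
  · exact h1
  · exfalso
    apply h2
    rcases Nat.lt_or_ge a t with h3 | h3
    · exact Or.inr ⟨a, b, h3, by omega, hb, hS, hN⟩
    · left
      have hat' : a = t := by omega
      have hSa := hS.2.1
      rw [hat'] at hSa
      exact hSa

private theorem DepA_adj (ρ : Rels V) (J : ℕ) (hρ : ρ.Ok J) (k j : ℕ) (hj : j ≤ J) (u v : V)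
    (hu : u ∈ GG ρ k j) (huv : ρ.y j u v) : v ∈ GG ρ k j := by
  classical
  unfold GG gg at hu ⊢
  rw [Finset.mem_filter] at hu ⊢
  refine ⟨Finset.mem_univ _, hu.2.trans (Finset.card_le_card ?_)⟩
  intro w hw
  unfold cmp at hw ⊢
  rw [Finset.mem_filter] at hw ⊢
  refine ⟨hw.1, Finset.mem_univ _, ?_⟩
  exact Relation.ReflTransGen.head ⟨hρ.sy j hj u v huv, Finset.mem_univ _, Finset.mem_univ _⟩
    hw.2.2

/-- F2. -/
theorem dep_cross (ρ : Rels V) (J : ℕ) (hρ : ρ.Ok J) (k : ℕ) (γ : ℕ → V) (ℓ t : ℕ) (ht : t < ℓ)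
    (h : dep ρ k γ J ℓ t ≠ dep ρ k γ J ℓ (t + 1)) :
    ¬ ρ.y (max (dep ρ k γ J ℓ t) (dep ρ k γ J ℓ (t + 1))) (γ t) (γ (t + 1)) := by
  intro hy
  have d0 := dep_le ρ k γ J ℓ t
  have d1 := dep_le ρ k γ J ℓ (t + 1)
  rcases Nat.lt_or_gt_of_ne h with hlt | hgt
  · rw [max_eq_right hlt.le] at hy
    have h1 := dep_up_mem ρ k γ J ℓ t ht hlt
    have h2 := GG_mono ρ J hρ k _ (dep ρ k γ J ℓ (t + 1)) (by omega) d1 h1
    exact not_mem_GG_of_dep ρ k γ J ℓ (t + 1) (by omega) (DepA_adj ρ J hρ k _ d1 _ _ h2 hy)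
  · rw [max_eq_left hgt.le] at hy
    have h1 := dep_down_mem ρ k γ J ℓ t ht hgt
    have h2 := GG_mono ρ J hρ k _ (dep ρ k γ J ℓ t) (by omega) d0 h1
    exact not_mem_GG_of_dep ρ k γ J ℓ t (by omega)
      (DepA_adj ρ J hρ k _ d0 _ _ h2 (hρ.sy _ d0 _ _ hy))

end RST.P
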