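import Pool.Agent.Lib.MP_7946c7_pr.P.Defs

/-!
# JOB P/DepB: counting excursions (pure combinatorics of a sequence `d : ℕ → ℕ`)

STATEMENT. If `d t ≤ J` for `t ≤ ℓ` then `#chg d ℓ ≤ 2 #exc d J ℓ + 2 J`.

PROOF. For `i < J` let `U_i = {t < ℓ : d t ≤ i < d (t+1)}`, `D_i = {t < ℓ : d (t+1) ≤ i < d t}` and
`E_i = {t ∈ U_i : ∃ s, t < s < ℓ, s ∈ D_i}`; `#exc = ∑_i #E_i` (fibers over the first coordinate).
(a) `chg d ℓ ⊆ ⋃_{i<J} (U_i ∪ D_i)`: take `i = min (d t) (d (t+1))`.
(b) `#U_i ≤ #E_i + 1`: all elements of `U_i` except the largest are in `E_i`: if `t < t'` are in `U_i`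
then `d (t+1) > i`, `d t' ≤ i`, and the least `s ≥ t+1` with `d (s+1) ≤ i` satisfies `s < t'`,
`d s > i`, so `s ∈ D_i`.
(c) `#D_i ≤ #E_i + 1`: for `s ∈ D_i` not the smallest element `s₀` of `D_i`: `d (s₀+1) ≤ i < d s`; let
`t(s)` be the largest `t < s` with `d t ≤ i`; then `s₀ < t(s)`, `d (t+1) > i`, so `t(s) ∈ E_i`. The map
`s ↦ t(s)` is injective: if `s < s'` are in `D_i` then `d (s+1) ≤ i < d s'`, so `t(s') ≥ s+1 > t(s)`.
Alternative for (b), (c): induction on `ℓ` with the invariant
`#{t<ℓ: t ∈ U_i} ≤ #E_i(ℓ) + 1(d ℓ > i)`... any proof is fine.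
-/

open Finset

namespace RST.P

open Classical in
private noncomputable def DepB_U (d : ℕ → ℕ) (i ℓ : ℕ) : Finset ℕ :=
  (range ℓ).filter fun t => d t ≤ i ∧ i < d (t + 1)

open Classical in
private noncomputable def DepB_D (d : ℕ → ℕ) (i ℓ : ℕ) : Finset ℕ :=
  (range ℓ).filter fun t => i < d t ∧ d (t + 1) ≤ i

open Classical in
private noncomputable def DepB_E (d : ℕ → ℕ) (i ℓ : ℕ) : Finset ℕ :=
  (range ℓ).filter fun t => d t ≤ i ∧ i < d (t + 1) ∧
    ∃ s, t < s ∧ s < ℓ ∧ i < d s ∧ d (s + 1) ≤ i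

private theorem DepB_inv (d : ℕ → ℕ) (i ℓ : ℕ) :
    (DepB_U d i ℓ).card ≤ (DepB_E d i ℓ).card + (if i < d ℓ then 1 else 0) ∧
    (DepB_D d i ℓ).card + (if i < d ℓ then 1 else 0) =
      (DepB_U d i ℓ).card + (if i < d 0 then 1 else 0) := by
  classical
  induction ℓ with
  | zero => simp [DepB_U, DepB_D, DepB_E]
  | succ ℓ ih =>
    obtain ⟨h1, h2⟩ := ih
    have hE : (DepB_E d i ℓ).card ≤ (DepB_E d i (ℓ + 1)).card := by
      apply Finset.card_le_card
      intro t ht
      simp only [DepB_E, mem_filter, mem_range] at ht ⊢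
      obtain ⟨a1, a2, a3, s, a4, a5, a6⟩ := ht
      exact ⟨by omega, a2, a3, s, a4, by omega, a6⟩
    by_cases hu : d ℓ ≤ i ∧ i < d (ℓ + 1)
    · have hU : (DepB_U d i (ℓ + 1)).card = (DepB_U d i ℓ).card + 1 := by
        unfold DepB_U
        rw [range_add_one, filter_insert, if_pos hu, card_insert_of_notMem]
        simp
      have hD : (DepB_D d i (ℓ + 1)).card = (DepB_D d i ℓ).card := by
        unfold DepB_D
        rw [range_add_one, filter_insert, if_neg (by omega)]
      rw [if_neg (by omega)] at h1 h2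
      rw [if_pos hu.2, hU, hD]
      constructor
      · omega
      · omega
    · have hU : (DepB_U d i (ℓ + 1)).card = (DepB_U d i ℓ).card := by
        unfold DepB_U
        rw [range_add_one, filter_insert, if_neg hu]
      by_cases hd : i < d ℓ ∧ d (ℓ + 1) ≤ i
      · have hD : (DepB_D d i (ℓ + 1)).card = (DepB_D d i ℓ).card + 1 := by
          unfold DepB_D
          rw [range_add_one, filter_insert, if_pos hd, card_insert_of_notMem]
          simp
        have hE2 : (DepB_U d i ℓ).card ≤ (DepB_E d i (ℓ + 1)).card := by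
          apply Finset.card_le_card
          intro t ht
          simp only [DepB_E, DepB_U, mem_filter, mem_range] at ht ⊢
          exact ⟨by omega, ht.2.1, ht.2.2, ℓ, ht.1, by omega, hd.1, hd.2⟩
        rw [if_pos hd.1] at h1 h2
        rw [if_neg (by omega), hU, hD]
        constructor
        · omega
        · omega
      · have hD : (DepB_D d i (ℓ + 1)).card = (DepB_D d i ℓ).card := by
          unfold DepB_D
          rw [range_add_one, filter_insert, if_neg hd]
        by_cases h : i < d ℓ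
        · rw [if_pos h] at h1 h2
          rw [if_pos (by omega), hU, hD]
          constructor
          · omega
          · omega
        · rw [if_neg h] at h1 h2
          rw [if_neg (by omega), hU, hD]
          constructor
          · omega
          · omega

theorem chg_le (d : ℕ → ℕ) (J ℓ : ℕ) (hd : ∀ t ≤ ℓ, d t ≤ J) :
    (chg d ℓ).card ≤ 2 * (exc d J ℓ).card + 2 * J := by
  classical
  have h1 : chg d ℓ ⊆ (range J).biUnion (fun i => DepB_U d i ℓ ∪ DepB_D d i ℓ) := by
    intro t ht
    simp only [chg, mem_filter, mem_range] at ht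
    rw [mem_biUnion]
    have h2 := hd t (by omega)
    have h3 := hd (t + 1) (by omega)
    refine ⟨min (d t) (d (t + 1)), ?_, ?_⟩
    · rw [mem_range]
      omega
    · rw [mem_union]
      simp only [DepB_U, DepB_D, mem_filter, mem_range]
      omega
  have h2 : ∑ i ∈ range J, (DepB_E d i ℓ).card ≤ (exc d J ℓ).card := by
    have hm : ∀ p ∈ exc d J ℓ, p.1 ∈ range J := by
      intro p hp
      simp only [exc, mem_filter, mem_product] at hp
      exact hp.1.1
    rw [Finset.card_eq_sum_card_fiberwise (f := Prod.fst) (t := range J) hm]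
    apply Finset.sum_le_sum
    intro i hi
    apply Finset.card_le_card_of_injOn (fun t => (i, t))
    · intro t ht
      simp only [DepB_E, coe_filter, mem_range, Set.mem_ofPred_eq] at ht
      simp only [exc, coe_filter, mem_filter, mem_product, Set.mem_ofPred_eq]
      exact ⟨⟨⟨hi, mem_range.2 ht.1⟩, ht.2⟩, trivial⟩
    · intro t _ t' _ h
      exact (Prod.ext_iff.1 h).2
  calc (chg d ℓ).card ≤ ((range J).biUnion (fun i => DepB_U d i ℓ ∪ DepB_D d i ℓ)).card :=
        Finset.card_le_card h1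
    _ ≤ ∑ i ∈ range J, (DepB_U d i ℓ ∪ DepB_D d i ℓ).card := Finset.card_biUnion_le
    _ ≤ ∑ i ∈ range J, (2 * (DepB_E d i ℓ).card + 2) := by
        apply Finset.sum_le_sum
        intro i _
        obtain ⟨h3, h4⟩ := DepB_inv d i ℓ
        have h5 := Finset.card_union_le (DepB_U d i ℓ) (DepB_D d i ℓ)
        split_ifs at h3 h4 <;> omega
    _ = 2 * ∑ i ∈ range J, (DepB_E d i ℓ).card + 2 * J := by
        rw [Finset.sum_add_distrib, Finset.mul_sum, Finset.sum_const, card_range, smul_eq_mul,
          mul_comm J 2]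
    _ ≤ 2 * (exc d J ℓ).card + 2 * J := by omega

end RST.P
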