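import Pool.Agent.Lib.MP_7946c7_pr.P.DepA

/-!
# JOB P/DepC: every completed excursion and every flat bad edge gives a costly step (F3)

STATEMENT. `γ` is a walk of `ρ.z J` (`∀ i < ℓ`), `d t = dep ρ k γ J ℓ t`. Then
`#exc d J ℓ + #flat ρ γ d ℓ ≤ #CS ρ k γ J ℓ`.

PROOF. (a) Flat: for `t ∈ flat` put `i = d t`. `i < J`, because `ρ.z J (γ t) (γ (t+1))` holds (and
`d t ≤ J`, so `d t = J` would contradict `¬ ρ.z (d t) ..`). By `dep_flat`: `(i, t, t+1) ∈ CS`.
(b) Excursions: let `(i,t) ∈ exc d J ℓ`: `d t ≤ i < d (t+1)` and there is `s`, `t < s < ℓ`,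
`i < d s`, `d (s+1) ≤ i`; take the least `s > t` with `d (s+1) ≤ i` (`Nat.find`); then for
`t < j ≤ s`: `d j > i` (for `j = t+1` it is the hypothesis; for `j > t+1` minimality). As
`DepSet` of level `i` fails for these `j` (`dep_min`), `γ j ∉ GG (i+1)` for `t < j ≤ s`. By `dep_up_mem`
`γ t ∈ GG (d t + 1) ⊆ GG (i+1)` (`d t ≤ i < d (t+1)`), by `dep_down_mem` `γ (s+1) ∈ GG (i+1)`. So
`Step i t (s+1)`; it is costly: otherwise `t+1` would be strictly inside a non costly `i`-step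
(`t < t+1 < s+1`), i.e. `DepSet (t+1) i`, contradicting `i < d (t+1)`. So `(i, t, s+1) ∈ CS` with
third coordinate `≥ t + 2`.
(c) The map `exc → CS`, `(i,t) ↦ (i,t,s+1)` is injective (first two coordinates), the map
`flat → CS`, `t ↦ (d t, t, t+1)` is injective, and the images are disjoint (the third coordinate is
`≥ t+2` in the first case and `t+1` in the second). Add the cardinalities.
-/

open Finset

namespace RST.P

variable {V : Type} [Fintype V]

theorem exc_add_flat_le (ρ : Rels V) (J : ℕ) (hρ : ρ.Ok J) (k : ℕ) (γ : ℕ → V) (ℓ : ℕ)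
    (hz : ∀ i < ℓ, ρ.z J (γ i) (γ (i + 1))) :
    (exc (dep ρ k γ J ℓ) J ℓ).card + (flat ρ γ (dep ρ k γ J ℓ) ℓ).card ≤
      (CS ρ k γ J ℓ).card := by
  classical
  obtain ⟨d, hd⟩ : ∃ d, d = dep ρ k γ J ℓ := ⟨_, rfl⟩
  rw [← hd]
  have hdJ : ∀ t, d t ≤ J := fun t => by rw [hd]; exact dep_le ρ k γ J ℓ t
  have hCS : ∀ i a b, i < J → a ≤ ℓ → b ≤ ℓ → Costly ρ k γ i a b →
      (i, a, b) ∈ CS ρ k γ J ℓ := by
    intro i a b h1 h2 h3 h4
    unfold CS
    simp only [Finset.mem_filter, Finset.mem_product, Finset.mem_range]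
    exact ⟨⟨h1, by omega, by omega⟩, h4⟩
  have hflat : ∀ t ∈ flat ρ γ d ℓ, (d t, t, t + 1) ∈ CS ρ k γ J ℓ := by
    intro t ht
    unfold flat at ht
    rw [Finset.mem_filter, Finset.mem_range] at ht
    obtain ⟨h1, h2, h3⟩ := ht
    have h4 : d t < J := by
      refine lt_of_le_of_ne (hdJ t) fun e => ?_
      rw [e] at h3
      exact h3 (hz t h1)
    refine hCS _ _ _ h4 (by omega) (by omega) ?_
    rw [hd] at h2 h3 h4 ⊢
    exact dep_flat ρ k γ J ℓ t h1 h2 h4 h3
  have hexc : ∀ p ∈ exc d J ℓ, ∃ s, p.2 < s ∧ (p.1, p.2, s + 1) ∈ CS ρ k γ J ℓ := by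
    rintro ⟨i, t⟩ hp
    unfold exc at hp
    simp only [Finset.mem_filter, Finset.mem_product, Finset.mem_range] at hp
    obtain ⟨⟨hi, ht⟩, h1, h2, s', hs1, hs2, _, hs4⟩ := hp
    have hex : ∃ s, t < s ∧ s < ℓ ∧ d (s + 1) ≤ i := ⟨s', hs1, hs2, hs4⟩
    obtain ⟨s, hs⟩ : ∃ s, s = Nat.find hex := ⟨_, rfl⟩
    have hsp := Nat.find_spec hex
    rw [← hs] at hsp
    obtain ⟨g1, g2, g3⟩ := hsp
    have hmid : ∀ j, t < j → j ≤ s → i < d j := by
      intro j hj1 hj2
      rcases Nat.lt_or_ge (t + 1) j with hj3 | hj3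
      · by_contra hcon
        apply Nat.find_min hex (m := j - 1) (by omega)
        refine ⟨by omega, by omega, ?_⟩
        rw [show j - 1 + 1 = j by omega]
        omega
      · rw [show j = t + 1 by omega]
        exact h2
    have hstep : Step ρ k γ i t (s + 1) := by
      refine ⟨by omega, ?_, ?_, ?_⟩
      · have e1 := dep_up_mem ρ k γ J ℓ t ht (by rw [← hd]; omega)
        rw [← hd] at e1
        exact GG_mono ρ J hρ k (d t + 1) (i + 1) (by omega) (by omega) e1
      · have e2 := hmid s g1 le_rfl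
        have e1 := dep_down_mem ρ k γ J ℓ s g2 (by rw [← hd]; omega)
        rw [← hd] at e1
        exact GG_mono ρ J hρ k (d (s + 1) + 1) (i + 1) (by omega) (by omega) e1
      · intro j hj1 hj2 hjm
        have e2 := hmid j hj1 (by omega)
        rw [hd] at e2
        exact dep_min ρ k γ J ℓ j i e2 (Or.inl hjm)
    refine ⟨s, g1, hCS _ _ _ hi (by omega) (by omega) ?_⟩
    by_contra hnc
    rw [hd] at h2
    exact dep_min ρ k γ J ℓ (t + 1) i h2
      (Or.inr ⟨t, s + 1, by omega, by omega, by omega, hstep, hnc⟩)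
  choose! sf hsf1 hsf2 using hexc
  have c1 : ((exc d J ℓ).image fun p => (p.1, p.2, sf p + 1)).card = (exc d J ℓ).card := by
    apply Finset.card_image_of_injective
    intro p p' e
    have e1 : p.1 = p'.1 := congrArg (fun x : ℕ × ℕ × ℕ => x.1) e
    have e2 : p.2 = p'.2 := congrArg (fun x : ℕ × ℕ × ℕ => x.2.1) e
    exact Prod.ext e1 e2
  have c2 : ((flat ρ γ d ℓ).image fun t => (d t, t, t + 1)).card = (flat ρ γ d ℓ).card := by
    apply Finset.card_image_of_injective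
    intro t t' e
    exact congrArg (fun x : ℕ × ℕ × ℕ => x.2.1) e
  rw [← c1, ← c2, ← Finset.card_union_of_disjoint]
  · apply Finset.card_le_card
    intro x hx
    rw [Finset.mem_union, Finset.mem_image, Finset.mem_image] at hx
    rcases hx with ⟨p, hp, rfl⟩ | ⟨t, ht, rfl⟩
    · exact hsf2 p hp
    · exact hflat t ht
  · rw [Finset.disjoint_left]
    intro x hx hx'
    rw [Finset.mem_image] at hx hx'
    obtain ⟨p, hp, rfl⟩ := hx
    obtain ⟨t, ht, e⟩ := hx'
    have e2 : t = p.2 := congrArg (fun x : ℕ × ℕ × ℕ => x.2.1) e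
    have e3 : t + 1 = sf p + 1 := congrArg (fun x : ℕ × ℕ × ℕ => x.2.2) e
    have := hsf1 p hp
    omega

end RST.P
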