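import Pool.Agent.Lib.MP_7946c7_pr.P.AvoidD
import Pool.Agent.Lib.MP_7946c7_pr.P.DepB
import Pool.Agent.Lib.MP_7946c7_pr.P.DepC

/-!
# JOB P/Dom: pointwise domination by the sum over the depth sequences

PROOF. Put `g = exN γ : ℕ → V` (so `g t = γ t` for `t ≤ ℓ`), `D t = dep ρ k g J ℓ t` and
`d₀ : Fin (ℓ+1) → Fin (J+1)`, `d₀ t = ⟨D t, _⟩` (`dep_le`). All the terms of the right side are `≥ 0`
(`wt` is `≥ 0`), so it is enough to bound the left side by the term `d = d₀`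
(`Finset.single_le_sum`).
(a) `levOf γ d₀ (γ t) = D t` because `γ` is injective (`Finset.sum_ite_eq` after rewriting
`γ s = γ t ↔ s = t`). So `Avoid ρ k km (univ.image γ) (levOf γ d₀)` holds by `avoid_of_not_AGood`.
(b) For `t < ℓ`: `wt ρ κ' J (D t) (D (t+1)) (g t) (g (t+1)) = κ' ^ (2·1(t ∈ flat) + 1(t ∈ chg))`:
 - `D t = D (t+1)` and `ρ.z (D t) ..`: the weight is `1`;
 - `D t = D (t+1)` and not `ρ.z (D t) ..` (`t ∈ flat`): the weight is `κ'^2` because `ρ.z J ..` holds;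
 - `D t ≠ D (t+1)` (`t ∈ chg`): `ρ.z J ..` holds and `¬ ρ.m ..`, because by `dep_cross`
   `¬ ρ.y (max ..) (g t) (g (t+1))` and `ρ.m ≤ ρ.y _` (`hρ.my`, `dep_le`): the weight is `κ'`.
 So the product is `κ' ^ (2 #flat + #chg)`.
(c) `#chg ≤ 2 #exc + 2 J` (`chg_le`), `#exc + #flat ≤ #CS` (`exc_add_flat_le`), so
`2 #flat + #chg ≤ 2 #CS + 2 J` and, as `0 < κ' ≤ 1`, `κ'^(2#CS) κ'^(2J) ≤ κ'^(2#flat + #chg)`.
-/

open Finset

namespace RST.P

variable {V : Type} [Fintype V]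

theorem Dom_exN {ℓ : ℕ} (γ : Fin (ℓ + 1) → V) (t : ℕ) (ht : t ≤ ℓ) :
    exN γ t = γ ⟨t, by omega⟩ := by
  unfold exN
  congr 1
  simp [min_eq_left ht]

open Classical in
theorem Dom_levOf {ℓ J : ℕ} (γ : Fin (ℓ + 1) → V) (hγ : Function.Injective γ)
    (d : Fin (ℓ + 1) → Fin (J + 1)) (t : Fin (ℓ + 1)) : levOf γ d (γ t) = (d t : ℕ) := by
  unfold levOf
  simp only [hγ.eq_iff]
  simp

theorem Dom_prod_ite (ℓ : ℕ) (P : ℕ → Prop) [DecidablePred P] (a : ℝ) :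
    ∏ t ∈ range ℓ, (if P t then a else 1) = a ^ ((range ℓ).filter P).card := by
  rw [Finset.prod_ite]
  simp

open Classical in
theorem Dom_wt (ρ : Rels V) (J : ℕ) (hρ : ρ.Ok J) (k ℓ : ℕ) (κ' : ℝ) (g : ℕ → V)
    (hz : ∀ i < ℓ, ρ.z J (g i) (g (i + 1))) (t : ℕ) (ht : t < ℓ) :
    wt ρ κ' J (dep ρ k g J ℓ t) (dep ρ k g J ℓ (t + 1)) (g t) (g (t + 1)) =
      (if dep ρ k g J ℓ t = dep ρ k g J ℓ (t + 1) ∧ ¬ ρ.z (dep ρ k g J ℓ t) (g t) (g (t + 1))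
        then κ' ^ 2 else 1) * (if dep ρ k g J ℓ t ≠ dep ρ k g J ℓ (t + 1) then κ' else 1) := by
  unfold wt
  by_cases h : dep ρ k g J ℓ t = dep ρ k g J ℓ (t + 1)
  · rw [if_pos h]
    by_cases h2 : ρ.z (dep ρ k g J ℓ t) (g t) (g (t + 1))
    · rw [if_pos h2, if_neg (fun h6 => h6.2 h2), if_neg (by simpa using h), mul_one]
    · rw [if_neg h2, if_pos (hz t ht), if_pos ⟨h, h2⟩, if_neg (by simpa using h), mul_one]
  · have h3 := dep_cross ρ J hρ k g ℓ t ht h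
    have h4 : ¬ ρ.m (g t) (g (t + 1)) := fun h5 => h3 (hρ.my _
      (max_le (dep_le ρ k g J ℓ t) (dep_le ρ k g J ℓ (t + 1))) _ _ h5)
    rw [if_neg h, if_pos ⟨hz t ht, h4⟩, if_neg (fun h6 => h h6.1), if_pos h, one_mul]

theorem Dom_wt_nonneg (ρ : Rels V) (κ' : ℝ) (h0 : 0 < κ') (J i j : ℕ) (u v : V) :
    0 ≤ wt ρ κ' J i j u v := by
  unfold wt
  split_ifs <;> positivity

open Classical in
theorem domination (ρ : Rels V) (J : ℕ) (hρ : ρ.Ok J) (k km ℓ : ℕ) (κ' : ℝ) (h0 : 0 < κ')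
    (h1 : κ' ≤ 1) (γ : Fin (ℓ + 1) → V) (hγ : Function.Injective γ)
    (hz : ∀ i < ℓ, ρ.z J (exN γ i) (exN γ (i + 1))) (hA : ∀ t, ¬ AGood ρ.m ρ.A km (γ t)) :
    κ' ^ (2 * (CS ρ k (exN γ) J ℓ).card) * κ' ^ (2 * J) ≤
      ∑ d : Fin (ℓ + 1) → Fin (J + 1),
        (if Avoid ρ k km (univ.image γ) (levOf γ d) then 1 else 0) *
          ∏ t : Fin ℓ, wt ρ κ' J (d t.castSucc) (d t.succ) (γ t.castSucc) (γ t.succ) := by
  set g := exN γ with hg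
  set D : ℕ → ℕ := dep ρ k g J ℓ with hD
  set d₀ : Fin (ℓ + 1) → Fin (J + 1) := fun t =>
    ⟨D t, Nat.lt_succ_of_le (dep_le ρ k g J ℓ t)⟩ with hd₀
  have hnn : ∀ d ∈ (univ : Finset (Fin (ℓ + 1) → Fin (J + 1))), (0 : ℝ) ≤
      (if Avoid ρ k km (univ.image γ) (levOf γ d) then 1 else 0) *
        ∏ t : Fin ℓ, wt ρ κ' J (d t.castSucc) (d t.succ) (γ t.castSucc) (γ t.succ) := by
    intro d _
    refine mul_nonneg (by split_ifs <;> norm_num) (Finset.prod_nonneg fun t _ => ?_)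
    exact Dom_wt_nonneg ρ κ' h0 J _ _ _ _
  refine le_trans ?_ (Finset.single_le_sum hnn (Finset.mem_univ d₀))
  have hav : Avoid ρ k km (univ.image γ) (levOf γ d₀) := by
    refine avoid_of_not_AGood ρ k km J ℓ g _ _ ?_ ?_ ?_
    · intro v
      simp only [Finset.mem_image, Finset.mem_univ, true_and]
      constructor
      · rintro ⟨t, rfl⟩
        exact ⟨t, Nat.lt_succ_iff.mp t.2, by rw [hg, Dom_exN γ t (Nat.lt_succ_iff.mp t.2)]⟩
      · rintro ⟨t, ht, rfl⟩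
        exact ⟨⟨t, by omega⟩, by rw [hg, Dom_exN γ t ht]⟩
    · intro t ht
      rw [hg, Dom_exN γ t ht, Dom_levOf γ hγ d₀]
    · intro t ht
      rw [hg, Dom_exN γ t ht]
      exact hA _
  rw [if_pos hav, one_mul]
  have hprod : ∏ t : Fin ℓ, wt ρ κ' J (d₀ t.castSucc) (d₀ t.succ) (γ t.castSucc) (γ t.succ) =
      (κ' ^ 2) ^ (flat ρ g D ℓ).card * κ' ^ (chg D ℓ).card := by
    have e1 : ∏ t : Fin ℓ, wt ρ κ' J (d₀ t.castSucc) (d₀ t.succ) (γ t.castSucc) (γ t.succ) =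
        ∏ t : Fin ℓ, wt ρ κ' J (D t) (D (t + 1)) (g t) (g (t + 1)) := by
      refine Finset.prod_congr rfl fun t _ => ?_
      have a1 : g (t : ℕ) = γ t.castSucc := by
        rw [hg, Dom_exN γ t t.2.le]; rfl
      have a2 : g ((t : ℕ) + 1) = γ t.succ := by
        rw [hg, Dom_exN γ (t + 1) t.2]; rfl
      rw [a1, a2]
      rfl
    rw [e1, ← Finset.prod_range (fun t => wt ρ κ' J (D t) (D (t + 1)) (g t) (g (t + 1)))]
    rw [Finset.prod_congr rfl fun t ht =>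
      Dom_wt ρ J hρ k ℓ κ' g hz t (Finset.mem_range.mp ht)]
    rw [Finset.prod_mul_distrib, Dom_prod_ite, Dom_prod_ite]
    rfl
  rw [hprod, ← pow_mul, ← pow_add, ← pow_add]
  have h2 := chg_le D J ℓ fun t _ => dep_le ρ k g J ℓ t
  have h3 : (exc D J ℓ).card + (flat ρ g D ℓ).card ≤ (CS ρ k g J ℓ).card :=
    exc_add_flat_le ρ J hρ k g ℓ hz
  exact pow_le_pow_of_le_one h0.le h1 (by omega)

end RST.P
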