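import Pool.Agent.Lib.MP_7946c7_pr.IfB
import Pool.Agent.Lib.MP_7946c7_pr.IfG

/-!
# JOB P/Fub: integrating out coordinates

PROOF of `EE_coord`. Write `φ b (b e) = ∑ x, φ b x * 1(b e = x)`, use `EE_sum` (or unfold), `EE_indep`
(file `IfG.lean`) with `s = {e}ᶜ`, `F = fun b => F b * φ b x`, `G = fun b => 1(b e = x)`, and
`EE q (fun b => 1(b e = x)) = q x` (from `marginal` with `A = {x}`, or directly: the sum over
`b : ι → B` of a product is the product of the sums, `Finset.prod_univ_sum`/`Fintype.piFinset`).
PROOF of `EE_integrate`: induction on `E` (`Finset.induction_on`), `E = insert e E'`: apply the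
induction hypothesis with `F' b = F b * φ e b (b e)` (it depends on the complement of `E'` only), then
`EE_coord` for the coordinate `e` with `F'' b = F b * ∏_{E'} ∑ x, q x * φ e' b x`.
PROOF of `EE_prod_distinct`: `EE_integrate` with `F = 1`, `E = univ.image e`
(`Finset.prod_image`), `φ` independent of `b` (choose `φ' i b x = φ t x` if `e t = i`); or induction
on `ℓ`; or directly by `Finset.prod_univ_sum`.
-/

open Finset

namespace RST.P

variable {ι B : Type} [Fintype ι] [DecidableEq ι] [Fintype B] [DecidableEq B]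

/-- Expectation of a product of functions of the single coordinates. -/
theorem Fub_prod (q : B → ℝ) (g : ι → B → ℝ) :
    EE q (fun b => ∏ i, g i (b i)) = ∏ i, ∑ x, q x * g i x := by
  classical
  unfold EE
  rw [Finset.prod_univ_sum, Fintype.piFinset_univ]
  refine Finset.sum_congr (by ext; simp) fun b _ => ?_
  rw [← Finset.prod_mul_distrib]

theorem Fub_single {q : B → ℝ} (hq : IsLaw q) (e : ι) (x : B) :
    EE q (fun b => if b e = x then (1 : ℝ) else 0) = q x := by
  have h1 : (fun b : ι → B => if b e = x then (1 : ℝ) else 0) =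
      fun b => ∏ i, (fun (i : ι) (y : B) => if i = e then (if y = x then (1 : ℝ) else 0) else 1)
        i (b i) := by
    funext b
    simp only []
    rw [Finset.prod_ite_eq']
    simp
  rw [h1, Fub_prod q (fun (i : ι) (y : B) => if i = e then (if y = x then (1 : ℝ) else 0) else 1)]
  rw [Finset.prod_eq_single e]
  · simp
  · intro i _ hi
    simp [hi, hq.sum_one]
  · intro h
    exact absurd (Finset.mem_univ e) h

theorem EE_coord {q : B → ℝ} (hq : IsLaw q) (e : ι) (φ : (ι → B) → B → ℝ) (F : (ι → B) → ℝ)
    (hF : DependsOn F {e}ᶜ) (hφ : ∀ x, DependsOn (fun b => φ b x) {e}ᶜ) :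
    EE q (fun b => F b * φ b (b e)) = EE q (fun b => F b * ∑ x, q x * φ b x) := by
  have h1 : (fun b => F b * φ b (b e)) = fun b => ∑ x : B,
      (F b * φ b x) * (if b e = x then (1 : ℝ) else 0) := by
    funext b
    simp
  have h2 : (fun b => F b * ∑ x, q x * φ b x) = fun b => ∑ x : B, q x * (F b * φ b x) := by
    funext b
    rw [Finset.mul_sum]
    refine Finset.sum_congr rfl fun x _ => ?_
    ring
  rw [h1, h2, EE_sum, EE_sum]
  refine Finset.sum_congr rfl fun x _ => ?_
  rw [EE_mul_left, EE_indep hq ({e}ᶜ) (fun b => F b * φ b x)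
    (fun b => if b e = x then (1 : ℝ) else 0), Fub_single hq e x]
  · ring
  · intro b b' hb
    have e1 := hF hb
    have e2 := hφ x hb
    simp only at e2 ⊢
    rw [e1, e2]
  · intro b b' hb
    have : b e = b' e := hb e (by simp)
    simp only [this]

theorem EE_integrate {q : B → ℝ} (hq : IsLaw q) (E : Finset ι) (φ : ι → (ι → B) → B → ℝ)
    (F : (ι → B) → ℝ) (hF : DependsOn F (E : Set ι)ᶜ)
    (hφ : ∀ e ∈ E, ∀ x, DependsOn (fun b => φ e b x) (E : Set ι)ᶜ) :
    EE q (fun b => F b * ∏ e ∈ E, φ e b (b e)) =
      EE q (fun b => F b * ∏ e ∈ E, ∑ x, q x * φ e b x) := by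
  classical
  induction E using Finset.induction_on generalizing F with
  | empty => simp
  | insert e E he ih =>
    have hsub : ((insert e E : Finset ι) : Set ι)ᶜ ⊆ (E : Set ι)ᶜ := by
      intro i hi
      simp only [Finset.coe_insert, Set.mem_compl_iff, Set.mem_insert_iff, not_or] at hi
      exact hi.2
    have hsub2 : ((insert e E : Finset ι) : Set ι)ᶜ ⊆ ({e} : Set ι)ᶜ := by
      intro i hi
      simp only [Finset.coe_insert, Set.mem_compl_iff, Set.mem_insert_iff, not_or] at hi
      exact hi.1
    have h1 : EE q (fun b => F b * ∏ e' ∈ insert e E, φ e' b (b e')) =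
        EE q (fun b => (F b * φ e b (b e)) * ∏ e' ∈ E, φ e' b (b e')) := by
      congr 1
      funext b
      rw [Finset.prod_insert he]
      ring
    rw [h1, ih (fun b => F b * φ e b (b e)) ?_ ?_]
    · have h2 : EE q (fun b => F b * φ e b (b e) * ∏ e' ∈ E, ∑ x, q x * φ e' b x) =
          EE q (fun b => (F b * ∏ e' ∈ E, ∑ x, q x * φ e' b x) * φ e b (b e)) := by
        congr 1
        funext b
        ring
      rw [h2, EE_coord hq e (φ e) (fun b => F b * ∏ e' ∈ E, ∑ x, q x * φ e' b x) ?_ ?_]
      · congr 1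
        funext b
        rw [Finset.prod_insert he]
        ring
      · intro b b' hb
        have e1 : F b = F b' := hF fun i hi => hb i (hsub2 hi)
        have e2 : ∏ e' ∈ E, ∑ x, q x * φ e' b x = ∏ e' ∈ E, ∑ x, q x * φ e' b' x := by
          refine Finset.prod_congr rfl fun e' he' => Finset.sum_congr rfl fun x _ => ?_
          have := hφ e' (Finset.mem_insert_of_mem he') x
            (fun i hi => hb i (hsub2 hi) : ∀ i ∈ ((insert e E : Finset ι) : Set ι)ᶜ, b i = b' i)
          simp only at this
          rw [this]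
        simp only [e1, e2]
      · intro x b b' hb
        exact hφ e (Finset.mem_insert_self e E) x fun i hi => hb i (hsub2 hi)
    · intro b b' hb
      have e1 : F b = F b' := hF fun i hi => hb i (hsub hi)
      have e3 : b e = b' e := hb e (by simpa using he)
      have e2 : φ e b (b' e) = φ e b' (b' e) :=
        hφ e (Finset.mem_insert_self e E) (b' e) fun i hi => hb i (hsub hi)
      simp only [e1, e3, e2]
    · intro e' he' x b b' hb
      exact hφ e' (Finset.mem_insert_of_mem he') x fun i hi => hb i (hsub hi)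

theorem EE_prod_distinct {q : B → ℝ} (hq : IsLaw q) (ℓ : ℕ) (e : Fin ℓ → ι)
    (he : Function.Injective e) (φ : Fin ℓ → B → ℝ) :
    EE q (fun b => ∏ t, φ t (b (e t))) = ∏ t, ∑ x, q x * φ t x := by
  classical
  have h1 : (fun b : ι → B => ∏ t, φ t (b (e t))) =
      fun b => ∏ i, (fun (i : ι) (y : B) => ∏ t, if e t = i then φ t y else 1) i (b i) := by
    funext b
    simp only []
    rw [Finset.prod_comm]
    refine Finset.prod_congr rfl fun t _ => ?_
    rw [Finset.prod_ite_eq]
    simp
  rw [h1, Fub_prod q (fun (i : ι) (y : B) => ∏ t, if e t = i then φ t y else 1)]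
  have h2 : ∏ i : ι, ∑ x, q x * ∏ t, (if e t = i then φ t x else 1) =
      ∏ i ∈ univ.image e, ∑ x, q x * ∏ t, (if e t = i then φ t x else 1) := by
    symm
    refine Finset.prod_subset (Finset.subset_univ _) ?_
    intro i _ hi
    have h3 : ∀ t, e t ≠ i := fun t ht => hi (Finset.mem_image.mpr ⟨t, Finset.mem_univ t, ht⟩)
    simp [h3, hq.sum_one]
  rw [h2, Finset.prod_image (fun a _ b _ hab => he hab)]
  refine Finset.prod_congr rfl fun t _ => Finset.sum_congr rfl fun x _ => ?_
  congr 1
  simp only [he.eq_iff]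
  rw [Finset.prod_ite_eq']
  simp

end RST.P
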