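import Pool.Agent.Lib.MP_7946c7_pr.P.Defs
import Pool.Agent.Lib.MP_7946c7_pr.P.Fub

/-!
# JOB P/ExpW: expectation of the weight of a walk with a given depth sequence

PROOF. `Y = univ.image γ`. `fun b => 1(Avoid (relsB S b) ..)` depends only on the edges which are not
inside `Y` (`Avoid` uses `expl ρ.m Y₁ Yᶜ`: relations between a vertex of `Y₁` or `Yᶜ` and a vertex of
`Yᶜ`; `gg R V' k` with `V' ⊆ Yᶜ`; and relations between a vertex and `w ∈ V' ⊆ Yᶜ`). Show it by proving
that `relsB S b` and `relsB S b'` agree on all pairs `(u,w)`, with `w ∉ Y` or `u ∉ Y`, when `b`, `b'`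
agree on `{e | ∃ v ∈ e, v ∉ Y}`, and congruence lemmas for `expl`, `cmp`, `gg`.
`∏ t, wt ..` depends on the edges `e_t = s(γ t.castSucc, γ t.succ)`, inside `Y`. So `EE_indep` gives
the product of the expectations. The edges `e_t` are distinct (`γ` injective: `s(γ t, γ (t+1)) =
s(γ s, γ (s+1))` implies `t = s`, the crossed case `γ t = γ (s+1)`, `γ (t+1) = γ s` being
impossible), so `EE_prod_distinct` applies with `φ t x` = the weight as a function of the bin
`x = b e_t` (`adj A b u v ⟺ b s(u,v) ∈ A` when `u ≠ v`):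
 * `i = j`: `∑ x, q x φ t x = qs (S.z i) + κ'^2 (qs (S.z J) - qs (S.z i))`
   (`S.z i ⊆ S.z J`) `= (1 + 1.1 x_i)/n + κ'^2 1.1 (x_J - x_i)/n ≤ wh n h κ' J i i / n`;
 * `i ≠ j`: `κ' (qs (S.z J) - qs S.m) = κ' (1.1 x_J + h)/n = wh n h κ' J i j / n` (`S.m ⊆ S.z J`).
-/

open Finset

namespace RST.P

variable {V B : Type} [Fintype V] [DecidableEq V] [Fintype B] [DecidableEq B]

section congr

variable {V' : Type}

private theorem expW_rch_congr {R R' : V' → V' → Prop} {W : Finset V'}
    (h : ∀ u ∈ W, ∀ w ∈ W, (R u w ↔ R' u w)) : Rch R W = Rch R' W := by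
  have : (fun x y => R x y ∧ x ∈ W ∧ y ∈ W) = fun x y => R' x y ∧ x ∈ W ∧ y ∈ W := by
    funext x y
    refine propext ⟨fun ⟨a, b, c⟩ => ⟨(h x b y c).1 a, b, c⟩, fun ⟨a, b, c⟩ => ⟨(h x b y c).2 a, b, c⟩⟩
  unfold Rch
  rw [this]

private theorem expW_cmp_congr {R R' : V' → V' → Prop} {W : Finset V'}
    (h : ∀ u ∈ W, ∀ w ∈ W, (R u w ↔ R' u w)) (v : V') : cmp R W v = cmp R' W v := by
  unfold cmp
  rw [expW_rch_congr h]

private theorem expW_gg_congr {R R' : V' → V' → Prop} {W : Finset V'}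
    (h : ∀ u ∈ W, ∀ w ∈ W, (R u w ↔ R' u w)) (k : ℕ) : gg R W k = gg R' W k := by
  unfold gg
  simp only [expW_cmp_congr h]

private theorem expW_expl_congr {R R' : V' → V' → Prop} {Q W : Finset V'}
    (h : ∀ u, ∀ w ∈ W, (R u w ↔ R' u w)) : expl R Q W = expl R' Q W := by
  unfold expl
  rw [expW_rch_congr fun u _ w hw => h u w hw]
  congr 1
  ext w
  simp only [Finset.mem_filter]
  refine and_congr_right fun _ => ?_
  constructor
  · rintro ⟨q, hq, u, hu, h1, h2⟩
    exact ⟨q, hq, u, hu, (h q u hu).1 h1, h2⟩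
  · rintro ⟨q, hq, u, hu, h1, h2⟩
    exact ⟨q, hq, u, hu, (h q u hu).2 h1, h2⟩

end congr

private theorem expW_avoid_congr (S : BinS B) (k km : ℕ) (Y : Finset V) (lev : V → ℕ)
    (b b' : Sym2 V → B) (h : ∀ u w, w ∉ Y → b s(u, w) = b' s(u, w)) :
    Avoid (relsB S b) k km Y lev ↔ Avoid (relsB S b') k km Y lev := by
  have ha : ∀ (A : Finset B) (u w : V), w ∉ Y → (adj A b u w ↔ adj A b' u w) := by
    intro A u w hw
    unfold adj
    rw [h u w hw]
  have hT : TT (relsB S b) Y lev = TT (relsB S b') Y lev := by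
    unfold TT
    exact expW_expl_congr fun u w hw => ha S.m u w (by simpa using hw)
  have hV : Vp (relsB S b) Y lev = Vp (relsB S b') Y lev := by
    unfold Vp
    rw [hT]
  have hVY : ∀ w ∈ Vp (relsB S b') Y lev, w ∉ Y := by
    intro w hw
    unfold Vp at hw
    simp only [Finset.mem_sdiff, Finset.mem_compl] at hw
    exact hw.1
  have hg : ∀ (A : Finset B) (j : ℕ), gg (adj A b) (Vp (relsB S b') Y lev) j =
      gg (adj A b') (Vp (relsB S b') Y lev) j := by
    intro A j
    exact expW_gg_congr (fun u _ w hw => ha A u w (hVY w hw)) j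
  have hgY : ∀ (R : V → V → Prop) (j : ℕ), ∀ w ∈ gg R (Vp (relsB S b') Y lev) j, w ∉ Y := by
    intro R j w hw
    unfold gg at hw
    exact hVY w (Finset.mem_filter.1 hw).1
  unfold Avoid
  rw [hT, hV]
  refine and_congr ?_ ?_
  · have e : gg (relsB S b).m (Vp (relsB S b') Y lev) km =
        gg (relsB S b').m (Vp (relsB S b') Y lev) km := hg S.m km
    rw [e]
    refine forall_congr' fun u => forall_congr' fun _ => forall_congr' fun w =>
      forall_congr' fun hw => not_congr ?_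
    exact ha S.A u w (hgY _ _ w hw)
  · refine forall_congr' fun v => forall_congr' fun _ => forall_congr' fun _ => ?_
    have e : gg ((relsB S b).y (lev v)) (Vp (relsB S b') Y lev) k =
        gg ((relsB S b').y (lev v)) (Vp (relsB S b') Y lev) k := hg (S.y (lev v)) k
    rw [e]
    refine forall_congr' fun w => forall_congr' fun hw => not_congr ?_
    exact ha (S.y (lev v)) v w (hgY _ _ w hw)

open Classical in
/-- The weight as a function of the bin. -/
private noncomputable def expW_phi (S : BinS B) (κ' : ℝ) (J i j : ℕ) (x : B) : ℝ :=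
  if i = j then (if x ∈ S.z i then 1 else if x ∈ S.z J then κ' ^ 2 else 0)
  else (if x ∈ S.z J ∧ ¬ x ∈ S.m then κ' else 0)

private theorem expW_wt (S : BinS B) (κ' : ℝ) (J i j : ℕ) (b : Sym2 V → B) (u v : V)
    (huv : u ≠ v) : wt (relsB S b) κ' J i j u v = expW_phi S κ' J i j (b s(u, v)) := by
  unfold wt expW_phi
  simp only [relsB, adj, huv, ne_eq, not_false_eq_true, true_and]

omit [DecidableEq B] in
private theorem expW_sum_qs (q : B → ℝ) (A : Finset B) [DecidablePred (· ∈ A)] :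
    ∑ x, (if x ∈ A then q x else 0) = qs q A := by
  unfold qs
  rw [← Finset.sum_filter]
  congr 1
  ext x
  simp

private theorem expW_XS_nonneg (n : ℕ) (h : ℝ) (hh : 0 < h) (j : ℕ) : 0 ≤ XS n h j := by
  unfold XS
  have : 0 ≤ (Real.log n) ^ (1 / 4 : ℝ) := Real.rpow_nonneg (Real.log_natCast_nonneg n) _
  positivity

private theorem expW_step (q : B → ℝ) (S : BinS B) (n : ℕ) (h : ℝ) (J : ℕ) (hS : S.Ok q n h J)
    (hh : 0 < h) (hn : 3 ≤ n) (κ' : ℝ) (i j : ℕ) (hi : i ≤ J) :
    ∑ x, q x * expW_phi S κ' J i j x ≤ wh n h κ' J i j / n := by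
  classical
  have hn0 : (0 : ℝ) < n := by
    have : 0 < n := by omega
    exact_mod_cast this
  unfold expW_phi wh
  by_cases hij : i = j
  · subst hij
    simp only [if_true]
    have e : ∀ x, q x * (if x ∈ S.z i then 1 else if x ∈ S.z J then κ' ^ 2 else 0) =
        (if x ∈ S.z i then q x else 0) + (κ' ^ 2 * (if x ∈ S.z J then q x else 0) -
          κ' ^ 2 * (if x ∈ S.z i then q x else 0)) := by
      intro x
      by_cases h1 : x ∈ S.z i
      · have h2 := hS.zz i hi h1
        simp [h1, h2]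
      · by_cases h2 : x ∈ S.z J
        · simp [h1, h2]; ring
        · simp [h1, h2]
    rw [Finset.sum_congr rfl fun x _ => e x, Finset.sum_add_distrib, Finset.sum_sub_distrib,
      ← Finset.mul_sum, ← Finset.mul_sum, expW_sum_qs, expW_sum_qs, hS.qz i hi,
      hS.qz J le_rfl]
    have hx := expW_XS_nonneg n h hh i
    have : 0 ≤ κ' ^ 2 * (11 / 10 * XS n h i) / n := by positivity
    have e2 : (1 + 11 / 10 * XS n h i) / n + (κ' ^ 2 * ((1 + 11 / 10 * XS n h J) / n) -
        κ' ^ 2 * ((1 + 11 / 10 * XS n h i) / n)) =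
        (1 + 11 / 10 * XS n h i + κ' ^ 2 * (11 / 10 * XS n h J)) / n -
          κ' ^ 2 * (11 / 10 * XS n h i) / n := by ring
    rw [e2]
    linarith
  · simp only [if_neg hij]
    have e : ∀ x, q x * (if x ∈ S.z J ∧ ¬ x ∈ S.m then κ' else 0) =
        κ' * (if x ∈ S.z J then q x else 0) - κ' * (if x ∈ S.m then q x else 0) := by
      intro x
      by_cases h1 : x ∈ S.m
      · have h2 := hS.mz J le_rfl h1
        simp [h1, h2]
      · by_cases h2 : x ∈ S.z J
        · simp [h1, h2]; ring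
        · simp [h1, h2]
    rw [Finset.sum_congr rfl fun x _ => e x, Finset.sum_sub_distrib,
      ← Finset.mul_sum, ← Finset.mul_sum, expW_sum_qs, expW_sum_qs, hS.qm, hS.qz J le_rfl]
    refine le_of_eq ?_
    ring

private theorem expW_phi_nonneg (S : BinS B) (κ' : ℝ) (h0 : 0 < κ') (J i j : ℕ) (x : B) :
    0 ≤ expW_phi S κ' J i j x := by
  unfold expW_phi
  split_ifs <;> positivity

open Classical in
theorem expW (q : B → ℝ) (S : BinS B) (n : ℕ) (h : ℝ) (J : ℕ) (hS : S.Ok q n h J) (hh : 0 < h)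
    (hn : 3 ≤ n) (k km : ℕ) (κ' : ℝ) (h0 : 0 < κ') (h1 : κ' ≤ 1) (ℓ : ℕ)
    (γ : Fin (ℓ + 1) → V) (hγ : Function.Injective γ) (d : Fin (ℓ + 1) → Fin (J + 1)) :
    EE q (fun b : Sym2 V → B =>
      (if Avoid (relsB S b) k km (univ.image γ) (levOf γ d) then 1 else 0) *
        ∏ t : Fin ℓ, wt (relsB S b) κ' J (d t.castSucc) (d t.succ) (γ t.castSucc) (γ t.succ)) ≤
      PP q {b : Sym2 V → B | Avoid (relsB S b) k km (univ.image γ) (levOf γ d)} *
        ∏ t : Fin ℓ, (wh n h κ' J (d t.castSucc) (d t.succ) / n) := by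
  set Y : Finset V := univ.image γ with hY
  have hYm : ∀ t, γ t ∈ Y := fun t => Finset.mem_image_of_mem _ (Finset.mem_univ t)
  have hne : ∀ t : Fin ℓ, γ t.castSucc ≠ γ t.succ := fun t e =>
    absurd (hγ e) (Fin.castSucc_lt_succ.ne)
  have hw : ∀ b : Sym2 V → B,
      (∏ t : Fin ℓ, wt (relsB S b) κ' J (d t.castSucc) (d t.succ) (γ t.castSucc) (γ t.succ)) =
      ∏ t : Fin ℓ, expW_phi S κ' J (d t.castSucc) (d t.succ) (b s(γ t.castSucc, γ t.succ)) :=
    fun b => Finset.prod_congr rfl fun t _ => expW_wt S κ' J _ _ b _ _ (hne t)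
  simp only [hw]
  have hind := EE_indep hS.law {e : Sym2 V | ∀ v ∈ e, v ∈ Y}
    (fun b : Sym2 V → B => ∏ t : Fin ℓ,
      expW_phi S κ' J (d t.castSucc) (d t.succ) (b s(γ t.castSucc, γ t.succ)))
    (fun b : Sym2 V → B => if Avoid (relsB S b) k km Y (levOf γ d) then 1 else 0)
    (by
      intro b b' hb
      refine Finset.prod_congr rfl fun t _ => ?_
      rw [hb s(γ t.castSucc, γ t.succ)]
      intro v hv
      rcases Sym2.mem_iff.1 hv with rfl | rfl
      · exact hYm _
      · exact hYm _)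
    (by
      intro b b' hb
      have : Avoid (relsB S b) k km Y (levOf γ d) ↔ Avoid (relsB S b') k km Y (levOf γ d) := by
        refine expW_avoid_congr S k km Y _ b b' fun u w hw => hb _ ?_
        simp only [Set.mem_compl_iff, Set.mem_ofPred_eq, not_forall]
        exact ⟨w, Sym2.mem_mk_right u w, hw⟩
      simp only [this])
  have e1 : EE q (fun b : Sym2 V → B =>
      (if Avoid (relsB S b) k km Y (levOf γ d) then (1 : ℝ) else 0) *
        ∏ t : Fin ℓ, expW_phi S κ' J (d t.castSucc) (d t.succ) (b s(γ t.castSucc, γ t.succ))) =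
      EE q (fun b : Sym2 V → B => ∏ t : Fin ℓ,
        expW_phi S κ' J (d t.castSucc) (d t.succ) (b s(γ t.castSucc, γ t.succ))) *
      EE q (fun b : Sym2 V → B => if Avoid (relsB S b) k km Y (levOf γ d) then (1 : ℝ) else 0) := by
    rw [← hind]
    congr 1
    funext b
    exact mul_comm _ _
  have e2 : EE q (fun b : Sym2 V → B => if Avoid (relsB S b) k km Y (levOf γ d)
      then (1 : ℝ) else 0) =
      PP q {b : Sym2 V → B | Avoid (relsB S b) k km Y (levOf γ d)} := by
    unfold PP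
    congr 1
  have hinj : Function.Injective fun t : Fin ℓ => s(γ t.castSucc, γ t.succ) := by
    intro t t' htt
    rcases Sym2.eq_iff.1 htt with ⟨a, _⟩ | ⟨a, c⟩
    · exact Fin.castSucc_injective _ (hγ a)
    · have a' := congrArg Fin.val (hγ a)
      have c' := congrArg Fin.val (hγ c)
      simp only [Fin.val_castSucc, Fin.val_succ] at a' c'
      omega
  have e3 := EE_prod_distinct hS.law ℓ (fun t : Fin ℓ => s(γ t.castSucc, γ t.succ)) hinj
    (fun t => expW_phi S κ' J (d t.castSucc) (d t.succ))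
  rw [e1, e2, e3, mul_comm]
  refine mul_le_mul_of_nonneg_left ?_ (PP_nonneg hS.law _)
  refine Finset.prod_le_prod (fun t _ => Finset.sum_nonneg fun x _ =>
    mul_nonneg (hS.law.nonneg x) (expW_phi_nonneg S κ' h0 J _ _ x)) fun t _ => ?_
  exact expW_step q S n h J hS hh hn κ' _ _ (Nat.lt_succ_iff.mp (d t.castSucc).isLt)

end RST.P
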