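import Pool.Agent.Lib.MP_7946c7_pr.P.Defs

/-!
# JOB P/SumD: sums over the depth sequences (transfer matrix)

PROOF of `transfer_sum`. Let `f_ℓ(j) = ∑_{d : Fin (ℓ+1) → Fin (J+1), d (last) = j} ∏_t w (d t.castSucc)
(d t.succ) ∏_t a (d t)`. `f_0(j) = a j ≤ 1`, `f_{ℓ+1}(j) = a j ∑_i w i j f_ℓ(i) ≤ θ max f_ℓ`
(`Fin.snoc` decomposition, `Fin.prod_univ_castSucc`). So `f_ℓ(j) ≤ θ^ℓ`, sum over `j`: `(J+1) θ^ℓ`.
(In Lean it is easier to prove by induction on `ℓ` the statement: for every `g : Fin (J+1) → ℝ`,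
`0 ≤ g ≤ 1`, `∑ d, g (d 0) …`; any formulation is fine, for instance with `Fin.cons` and the
transposed matrix; the hypothesis is on the column sums `∑_i w i j a j ≤ θ`.)

PROOF of `row_bound`. `∑_i wh n h κ' J i j = 1 + 1.1 x_j + κ'^2 1.1 x_J + J κ' (1.1 x_J + h)
≤ 1 + 1.1 x_j + x_0/20 ≤ exp (1.1 x_j + x_0/20)`; times `exp (-(6/5) x_j)` it is
`≤ exp (-x_j/10 + x_0/20) ≤ exp (-x_0/20)`, as `x_j ≥ x_0`; and without this factor it is
`≤ exp (2 x_J)` (`1.1 x_j + x_0/20 ≤ 1.15 x_J`).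
-/

open Finset

namespace RST.P

private theorem sumD_aux (J : ℕ) (w : Fin (J + 1) → Fin (J + 1) → ℝ) (a : Fin (J + 1) → ℝ) (θ : ℝ)
    (hw : ∀ i j, 0 ≤ w i j) (ha0 : ∀ j, 0 ≤ a j) (hθ : 0 ≤ θ)
    (h : ∀ j, (∑ i, w i j) * a j ≤ θ) (ℓ : ℕ) : ∀ (C : ℝ) (g : Fin (J + 1) → ℝ), 0 ≤ C →
    (∀ i, 0 ≤ g i) → (∀ i, g i ≤ C) →
    ∑ d : Fin (ℓ + 1) → Fin (J + 1),
      g (d 0) * ((∏ t : Fin ℓ, w (d t.castSucc) (d t.succ)) * ∏ t : Fin ℓ, a (d t.succ)) ≤
        C * ((J + 1) * θ ^ ℓ) := by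
  induction ℓ with
  | zero =>
    intro C g hC hg0 hgC
    have e : ∑ d : Fin (0 + 1) → Fin (J + 1),
        g (d 0) * ((∏ t : Fin 0, w (d t.castSucc) (d t.succ)) * ∏ t : Fin 0, a (d t.succ)) =
        ∑ j, g j := by
      refine Fintype.sum_equiv (Equiv.funUnique (Fin 1) (Fin (J + 1))) _ _ ?_
      intro d
      simp [Equiv.funUnique]
    rw [e]
    calc ∑ j, g j ≤ ∑ _j : Fin (J + 1), C := Finset.sum_le_sum fun i _ => hgC i
      _ = C * ((J + 1) * θ ^ 0) := by simp; ring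
  | succ ℓ ih =>
    intro C g hC hg0 hgC
    have e : ∑ d : Fin (ℓ + 1 + 1) → Fin (J + 1),
        g (d 0) * ((∏ t : Fin (ℓ + 1), w (d t.castSucc) (d t.succ)) *
          ∏ t : Fin (ℓ + 1), a (d t.succ)) =
        ∑ d : Fin (ℓ + 1) → Fin (J + 1), (∑ i, g i * w i (d 0) * a (d 0)) *
          ((∏ t : Fin ℓ, w (d t.castSucc) (d t.succ)) * ∏ t : Fin ℓ, a (d t.succ)) := by
      rw [← (Fin.consEquiv (fun _ : Fin (ℓ + 1 + 1) => Fin (J + 1))).sum_comp,
        Fintype.sum_prod_type, Finset.sum_comm]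
      refine Finset.sum_congr rfl fun d _ => ?_
      rw [Finset.sum_mul]
      refine Finset.sum_congr rfl fun i _ => ?_
      simp only [Fin.consEquiv_apply, Fin.cons_zero, Fin.cons_succ]
      rw [Fin.prod_univ_succ, Fin.prod_univ_succ (f := fun t : Fin (ℓ + 1) => a (d t))]
      simp only [Fin.castSucc_zero, Fin.cons_zero, Fin.castSucc_succ, Fin.cons_succ]
      ring
    rw [e]
    have h1 : ∀ j, (∑ i, g i * w i j * a j) ≤ C * θ := by
      intro j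
      calc (∑ i, g i * w i j * a j) ≤ ∑ i, C * w i j * a j := by
            refine Finset.sum_le_sum fun i _ => ?_
            exact mul_le_mul_of_nonneg_right
              (mul_le_mul_of_nonneg_right (hgC i) (hw i j)) (ha0 j)
        _ = C * ((∑ i, w i j) * a j) := by
            rw [Finset.sum_mul, Finset.mul_sum]
            exact Finset.sum_congr rfl fun i _ => by ring
        _ ≤ C * θ := mul_le_mul_of_nonneg_left (h j) hC
    have h2 := ih (C * θ) (fun j => ∑ i, g i * w i j * a j) (mul_nonneg hC hθ)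
      (fun j => Finset.sum_nonneg fun i _ =>
        mul_nonneg (mul_nonneg (hg0 i) (hw i j)) (ha0 j)) h1
    calc _ ≤ C * θ * ((J + 1) * θ ^ ℓ) := h2
      _ = C * ((J + 1) * θ ^ (ℓ + 1)) := by ring

theorem transfer_sum (J ℓ : ℕ) (w : Fin (J + 1) → Fin (J + 1) → ℝ) (a : Fin (J + 1) → ℝ) (θ : ℝ)
    (hw : ∀ i j, 0 ≤ w i j) (ha0 : ∀ j, 0 ≤ a j) (ha1 : ∀ j, a j ≤ 1) (hθ : 0 ≤ θ)
    (h : ∀ j, (∑ i, w i j) * a j ≤ θ) :
    ∑ d : Fin (ℓ + 1) → Fin (J + 1),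
      (∏ t : Fin ℓ, w (d t.castSucc) (d t.succ)) * ∏ t, a (d t) ≤ (J + 1) * θ ^ ℓ := by
  have := sumD_aux J w a θ hw ha0 hθ h ℓ 1 a zero_le_one ha0 ha1
  rw [one_mul] at this
  refine le_trans (le_of_eq ?_) this
  refine Finset.sum_congr rfl fun d _ => ?_
  rw [Fin.prod_univ_succ (f := fun t => a (d t))]
  ring

private theorem XS_nonneg' (n : ℕ) (h : ℝ) (hh : 0 < h) (j : ℕ) : 0 ≤ XS n h j := by
  unfold XS
  have : 0 ≤ (Real.log n) ^ (1 / 4 : ℝ) := Real.rpow_nonneg (Real.log_natCast_nonneg n) _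
  positivity

private theorem XS_mono' (n : ℕ) (h : ℝ) (hh : 0 < h) {i j : ℕ} (hij : i ≤ j) :
    XS n h i ≤ XS n h j := by
  unfold XS
  have : 0 ≤ (Real.log n) ^ (1 / 4 : ℝ) := Real.rpow_nonneg (Real.log_natCast_nonneg n) _
  refine mul_le_mul_of_nonneg_right ?_ (by positivity)
  exact pow_le_pow_right₀ (by norm_num) hij

theorem row_bound (n : ℕ) (h κ' : ℝ) (J : ℕ) (hh : 0 < h) (hn : 3 ≤ n) (h0 : 0 < κ')
    (hsmall : κ' ^ 2 * (11 / 10 * XS n h J) + J * (κ' * (11 / 10 * XS n h J + h)) ≤ XS n h 0 / 20)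
    (j : Fin (J + 1)) :
    (∑ i : Fin (J + 1), wh n h κ' J i j) * Real.exp (-(6 / 5 * XS n h j)) ≤
      Real.exp (-(XS n h 0 / 20)) ∧
    (∑ i : Fin (J + 1), wh n h κ' J i j) ≤ Real.exp (2 * XS n h J) := by
  have hjJ : (j : ℕ) ≤ J := Nat.lt_succ_iff.mp j.isLt
  have x0 := XS_nonneg' n h hh 0
  have x1 : XS n h 0 ≤ XS n h j := XS_mono' n h hh (Nat.zero_le _)
  have x2 : XS n h j ≤ XS n h J := XS_mono' n h hh hjJ
  have hS : (∑ i : Fin (J + 1), wh n h κ' J i j) =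
      (1 + 11 / 10 * XS n h j + κ' ^ 2 * (11 / 10 * XS n h J)) +
        J * (κ' * (11 / 10 * XS n h J + h)) := by
    rw [← Finset.add_sum_erase Finset.univ (fun i : Fin (J + 1) => wh n h κ' J i j)
      (Finset.mem_univ j)]
    congr 1
    · simp [wh]
    · have : ∀ i ∈ Finset.univ.erase j, wh n h κ' J (i : Fin (J + 1)) j =
          κ' * (11 / 10 * XS n h J + h) := by
        intro i hi
        have hne : (i : ℕ) ≠ (j : ℕ) := fun e => (Finset.ne_of_mem_erase hi) (Fin.ext e)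
        simp [wh, hne]
      rw [Finset.sum_congr rfl this, Finset.sum_const, Finset.card_erase_of_mem
        (Finset.mem_univ j)]
      simp
  have hle : (∑ i : Fin (J + 1), wh n h κ' J i j) ≤
      Real.exp (11 / 10 * XS n h j + XS n h 0 / 20) := by
    rw [hS]
    have := Real.add_one_le_exp (11 / 10 * XS n h j + XS n h 0 / 20)
    linarith
  constructor
  · calc (∑ i : Fin (J + 1), wh n h κ' J i j) * Real.exp (-(6 / 5 * XS n h j)) ≤
        Real.exp (11 / 10 * XS n h j + XS n h 0 / 20) * Real.exp (-(6 / 5 * XS n h j)) :=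
          mul_le_mul_of_nonneg_right hle (Real.exp_pos _).le
      _ = Real.exp (11 / 10 * XS n h j + XS n h 0 / 20 + -(6 / 5 * XS n h j)) := by
          exact (Real.exp_add _ _).symm
      _ ≤ Real.exp (-(XS n h 0 / 20)) := Real.exp_le_exp.mpr (by linarith)
  · refine hle.trans (Real.exp_le_exp.mpr (by linarith))

end RST.P
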