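import Pool.Agent.Lib.MP_7946c7_pr.P.AvE
import Pool.Agent.Lib.MP_7946c7_pr.P.Dom
import Pool.Agent.Lib.MP_7946c7_pr.P.ExpW
import Pool.Agent.Lib.MP_7946c7_pr.P.SumD

/-!
# JOB P/Mom: the moment bound for bins

PROOF. `n = card V`, `k = kst δ n h`, `km = kh h`. `relsB S b` satisfies `Rels.Ok` (`adj` is symmetric,
monotone in the set of bins). For every `b`, by `domination`,
`κ'^(2J) Sm (relsB S b) κ' k km J ℓ ≤ ∑_γ 1(γ injective) ∑_d 1(Avoid) ∏ wt`.
Take expectations (`EE_mono`, `EE_sum`, `EE_mul_left`); by `expW` and `avoid_prob` (with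
`Y = univ.image γ`, `|Y| = ℓ+1 ≤ h² n/1000`, `levOf γ d ≤ J` on `Y` because `levOf γ d (γ t) = d t`) each
term is `≤ (∏_t exp (-(6/5) x_{d t}) + err) ∏_t wh/n`, `err = exp (-n^{δ/20})`; here
`∏ v ∈ univ.image γ, … = ∏ t, …` by injectivity. The number of `γ` is at most `n^{ℓ+1}`, so the sum is
`≤ n ∑_d ∏ wh (∏ exp (-(6/5) x_{d t}) + err) ≤ n (J+1) (exp (-x_0/20)^ℓ + err exp (2 x_J)^ℓ)` by
`transfer_sum` (twice: with `a j = exp (-(6/5) x_j)` and with `a = 1`) and `row_bound`.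
-/

open Finset

namespace RST.P

theorem Mom_adj_symm {V B : Type} (A : Finset B) (b : Sym2 V → B) (u v : V)
    (h : adj A b u v) : adj A b v u := ⟨h.1.symm, by rw [Sym2.eq_swap]; exact h.2⟩

theorem Mom_adj_mono {V B : Type} {A A' : Finset B} (hA : A ⊆ A') (b : Sym2 V → B) (u v : V)
    (h : adj A b u v) : adj A' b u v := ⟨h.1, hA h.2⟩

theorem Mom_relsB_ok {V B : Type} [Fintype B] (S : BinS B) (q : B → ℝ) (n : ℕ) (h : ℝ) (J : ℕ)
    (hS : S.Ok q n h J) (b : Sym2 V → B) : (relsB S b : Rels V).Ok J where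
  sm := Mom_adj_symm _ _
  sA := Mom_adj_symm _ _
  sy := fun _ _ => Mom_adj_symm _ _
  sz := fun _ _ => Mom_adj_symm _ _
  my := fun i hi => Mom_adj_mono (hS.my i hi) b
  yy := fun i j hij hj => Mom_adj_mono (hS.yy i j hij hj) b

open Classical in
/-- Pointwise bound for `Sm`. -/
theorem Mom_pointwise {V : Type} [Fintype V] (ρ : Rels V) (J : ℕ) (hρ : ρ.Ok J) (k km ℓ : ℕ)
    (κ' : ℝ) (h0 : 0 < κ') (h1 : κ' ≤ 1) :
    κ' ^ (2 * J) * Sm ρ κ' k km J ℓ ≤ ∑ γ : Fin (ℓ + 1) → V,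
      if Function.Injective γ then ∑ d : Fin (ℓ + 1) → Fin (J + 1),
        (if Avoid ρ k km (univ.image γ) (levOf γ d) then 1 else 0) *
          ∏ t : Fin ℓ, wt ρ κ' J (d t.castSucc) (d t.succ) (γ t.castSucc) (γ t.succ) else 0 := by
  unfold Sm
  rw [Finset.mul_sum]
  refine Finset.sum_le_sum fun γ _ => ?_
  by_cases hγ : Function.Injective γ
  · rw [if_pos hγ]
    by_cases h2 : (∀ i < ℓ, ρ.z J (exN γ i) (exN γ (i + 1))) ∧ ∀ t, ¬ AGood ρ.m ρ.A km (γ t)
    · rw [if_pos ⟨hγ, h2.1, h2.2⟩, mul_comm]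
      exact domination ρ J hρ k km ℓ κ' h0 h1 γ hγ h2.1 h2.2
    · rw [if_neg (fun h3 => h2 h3.2), mul_zero]
      refine Finset.sum_nonneg fun d _ => mul_nonneg (by split_ifs <;> norm_num)
        (Finset.prod_nonneg fun t _ => Dom_wt_nonneg ρ κ' h0 J _ _ _ _)
  · rw [if_neg hγ, if_neg (fun h3 => hγ h3.1), mul_zero]

/-- The sum over the depth sequences. -/
theorem Mom_total (n : ℕ) (h κ' : ℝ) (J : ℕ) (hh : 0 < h) (hn : 3 ≤ n) (h0 : 0 < κ')
    (hsmall : κ' ^ 2 * (11 / 10 * XS n h J) + J * (κ' * (11 / 10 * XS n h J + h)) ≤ XS n h 0 / 20)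
    (ℓ : ℕ) (err : ℝ) (he : 0 ≤ err) :
    ∑ d : Fin (ℓ + 1) → Fin (J + 1),
      ((∏ t, Real.exp (-(6 / 5 * XS n h (d t)))) + err) *
        ∏ t : Fin ℓ, wh n h κ' J (d t.castSucc) (d t.succ) ≤
      (J + 1) * (Real.exp (-(XS n h 0 / 20)) ^ ℓ + err * Real.exp (2 * XS n h J) ^ ℓ) := by
  have hXS : ∀ i, 0 ≤ XS n h i := fun i => by
    unfold XS
    have : 0 ≤ Real.log n := Real.log_natCast_nonneg n
    positivity
  have hwh : ∀ i j : ℕ, 0 ≤ wh n h κ' J i j := by
    intro i j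
    unfold wh
    have h1 := hXS i
    have h2 := hXS J
    split_ifs <;> positivity
  have h1 := transfer_sum J ℓ (fun i j => wh n h κ' J i j)
    (fun j => Real.exp (-(6 / 5 * XS n h j))) (Real.exp (-(XS n h 0 / 20)))
    (fun i j => hwh i j) (fun j => (Real.exp_pos _).le)
    (fun j => Real.exp_le_one_iff.mpr (by have := hXS j; linarith)) (Real.exp_pos _).le
    (fun j => (row_bound n h κ' J hh hn h0 hsmall j).1)
  have h2 := transfer_sum J ℓ (fun i j => wh n h κ' J i j) (fun _ => 1)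
    (Real.exp (2 * XS n h J)) (fun i j => hwh i j) (fun j => zero_le_one) (fun j => le_rfl)
    (Real.exp_pos _).le
    (fun j => by rw [mul_one]; exact (row_bound n h κ' J hh hn h0 hsmall j).2)
  simp only [Finset.prod_const_one, mul_one] at h2
  have h3 : ∑ d : Fin (ℓ + 1) → Fin (J + 1),
      ((∏ t, Real.exp (-(6 / 5 * XS n h (d t)))) + err) *
        ∏ t : Fin ℓ, wh n h κ' J (d t.castSucc) (d t.succ) =
      ∑ d : Fin (ℓ + 1) → Fin (J + 1),
        (∏ t : Fin ℓ, wh n h κ' J (d t.castSucc) (d t.succ)) *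
          ∏ t, Real.exp (-(6 / 5 * XS n h (d t))) +
      err * ∑ d : Fin (ℓ + 1) → Fin (J + 1),
        ∏ t : Fin ℓ, wh n h κ' J (d t.castSucc) (d t.succ) := by
    rw [Finset.mul_sum, ← Finset.sum_add_distrib]
    refine Finset.sum_congr rfl fun d _ => ?_
    ring
  rw [h3]
  calc _ ≤ ((J : ℝ) + 1) * Real.exp (-(XS n h 0 / 20)) ^ ℓ +
        err * (((J : ℝ) + 1) * Real.exp (2 * XS n h J) ^ ℓ) :=
        add_le_add h1 (mul_le_mul_of_nonneg_left h2 he)
    _ = _ := by ring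

open Classical in
theorem moment (δ : ℝ) (hδ : 0 < δ) (hδ1 : δ ≤ 1 / 10) : ∃ n₀ : ℕ, ∀ (V : Type) [Fintype V]
    [DecidableEq V], n₀ ≤ Fintype.card V → ∀ h : ℝ, R2Par δ (Fintype.card V) h → ∀ J : ℕ,
    XS (Fintype.card V) h J ≤ 1 / 4 → J ≤ Fintype.card V →
    ∀ (B : Type) [Fintype B] [DecidableEq B] (q : B → ℝ) (S : BinS B),
    S.Ok q (Fintype.card V) h J → ∀ (κ' : ℝ), 0 < κ' → κ' ≤ 1 →
    κ' ^ 2 * (11 / 10 * XS (Fintype.card V) h J) +
      J * (κ' * (11 / 10 * XS (Fintype.card V) h J + h)) ≤ XS (Fintype.card V) h 0 / 20 →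
    ∀ ℓ : ℕ, (ℓ : ℝ) + 1 ≤ h ^ 2 * Fintype.card V / 1000 →
    κ' ^ (2 * J) * EE q (fun b : Sym2 V → B =>
      Sm (relsB S b) κ' (kst δ (Fintype.card V) h) (kh h) J ℓ) ≤
      Fintype.card V * ((J + 1) * (Real.exp (-(XS (Fintype.card V) h 0 / 20)) ^ ℓ +
        Real.exp (-(Fintype.card V : ℝ) ^ (δ / 20)) *
          Real.exp (2 * XS (Fintype.card V) h J) ^ ℓ)) := by
  obtain ⟨n₁, hn₁⟩ := avoid_prob δ hδ hδ1
  refine ⟨max n₁ 3, ?_⟩
  intro V _ inst hcard h hR J hXJ hJ B _ _ q S hS κ' h0 h1 hsmall ℓ hℓ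
  obtain rfl : inst = fun a b => Classical.propDecidable (a = b) := Subsingleton.elim _ _
  let _ : DecidableEq V := fun a b => Classical.propDecidable (a = b)
  simp only [max_le_iff] at hcard
  set n := Fintype.card V with hn
  have hn3 : 3 ≤ n := hcard.2
  have hnR : (0 : ℝ) < n := by exact_mod_cast (by omega : 0 < n)
  have hh : 0 < h := lt_of_lt_of_le (by positivity) hR.lo
  set err := Real.exp (-(n : ℝ) ^ (δ / 20)) with herr
  have he : 0 ≤ err := (Real.exp_pos _).le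
  set Tot := ∑ d : Fin (ℓ + 1) → Fin (J + 1),
      ((∏ t, Real.exp (-(6 / 5 * XS n h (d t)))) + err) *
        ∏ t : Fin ℓ, wh n h κ' J (d t.castSucc) (d t.succ) with hTot
  have hXS : ∀ i, 0 ≤ XS n h i := fun i => by
    unfold XS
    have : 0 ≤ Real.log n := Real.log_natCast_nonneg n
    positivity
  have hwh : ∀ i j : ℕ, 0 ≤ wh n h κ' J i j := by
    intro i j
    unfold wh
    have h1 := hXS i
    have h2 := hXS J
    split_ifs <;> positivity
  -- one walk
  have hone : ∀ γ : Fin (ℓ + 1) → V, Function.Injective γ →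
      EE q (fun b : Sym2 V → B => ∑ d : Fin (ℓ + 1) → Fin (J + 1),
        (if Avoid (relsB S b) (kst δ n h) (kh h) (univ.image γ) (levOf γ d) then 1 else 0) *
          ∏ t : Fin ℓ, wt (relsB S b) κ' J (d t.castSucc) (d t.succ) (γ t.castSucc) (γ t.succ)) ≤
      Tot / (n : ℝ) ^ ℓ := by
    intro γ hγ
    rw [EE_sum, hTot, Finset.sum_div]
    refine Finset.sum_le_sum fun d _ => ?_
    refine (expW q S n h J hS hh hn3 (kst δ n h) (kh h) κ' h0 h1 ℓ γ hγ d).trans ?_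
    have hlev : ∀ v ∈ univ.image γ, levOf γ d v ≤ J := by
      intro v hv
      obtain ⟨t, -, rfl⟩ := Finset.mem_image.mp hv
      rw [Dom_levOf γ hγ d]
      exact Nat.lt_succ_iff.mp (d t).2
    have hcardY : ((univ.image γ).card : ℝ) ≤ h ^ 2 * n / 1000 := by
      rw [Finset.card_image_of_injective _ hγ]
      simp only [Finset.card_univ, Fintype.card_fin]
      push_cast
      exact hℓ
    have hav := hn₁ V hcard.1 h hR J hXJ hJ B q S hS (univ.image γ) (levOf γ d) hlev hcardY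
    rw [Finset.prod_image (fun a _ b _ hab => hγ hab)] at hav
    simp only [Dom_levOf γ hγ d] at hav
    have e1 : ∏ t : Fin ℓ, (wh n h κ' J (d t.castSucc) (d t.succ) / n) =
        (∏ t : Fin ℓ, wh n h κ' J (d t.castSucc) (d t.succ)) / (n : ℝ) ^ ℓ := by
      rw [Finset.prod_div_distrib]
      simp
    rw [e1, ← mul_div_assoc]
    have hp : 0 ≤ ∏ t : Fin ℓ, wh n h κ' J (d t.castSucc) (d t.succ) :=
      Finset.prod_nonneg fun t _ => hwh _ _
    exact div_le_div_of_nonneg_right (mul_le_mul_of_nonneg_right hav hp) (by positivity)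
  have hTot0 : 0 ≤ Tot := by
    rw [hTot]
    refine Finset.sum_nonneg fun d _ => mul_nonneg (add_nonneg
      (Finset.prod_nonneg fun t _ => (Real.exp_pos _).le) he)
      (Finset.prod_nonneg fun t _ => hwh _ _)
  have hmain : κ' ^ (2 * J) * EE q (fun b : Sym2 V → B =>
      Sm (relsB S b) κ' (kst δ n h) (kh h) J ℓ) ≤ n * Tot := by
    rw [← EE_mul_left]
    refine (EE_mono hS.law fun b => Mom_pointwise (relsB S b) J (Mom_relsB_ok S q n h J hS b)
      (kst δ n h) (kh h) ℓ κ' h0 h1).trans ?_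
    rw [EE_sum]
    have h4 : ∀ γ ∈ (univ : Finset (Fin (ℓ + 1) → V)), EE q (fun b : Sym2 V → B =>
        if Function.Injective γ then ∑ d : Fin (ℓ + 1) → Fin (J + 1),
          (if Avoid (relsB S b) (kst δ n h) (kh h) (univ.image γ) (levOf γ d) then 1 else 0) *
            ∏ t : Fin ℓ, wt (relsB S b) κ' J (d t.castSucc) (d t.succ) (γ t.castSucc) (γ t.succ)
        else 0) ≤ Tot / (n : ℝ) ^ ℓ := by
      intro γ _
      by_cases hγ : Function.Injective γ
      · simp only [if_pos hγ]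
        exact hone γ hγ
      · simp only [if_neg hγ]
        rw [EE_const hS.law]
        positivity
    refine (Finset.sum_le_sum h4).trans (le_of_eq ?_)
    rw [Finset.sum_const, Finset.card_univ, nsmul_eq_mul, Fintype.card_fun, Fintype.card_fin,
      ← hn]
    push_cast
    field_simp
    ring
  refine hmain.trans ?_
  exact mul_le_mul_of_nonneg_left (Mom_total n h κ' J hh hn3 h0 hsmall ℓ err he) hnR.le

end RST.P
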