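import Pool.Agent.Lib.MP_7946c7_pr.P.Defs

/-!
# JOB P/NumA: numerical facts on `JN`, `kap` (large `n`)

`num_J`. `JN c₀ n = ⌈log (150/c₀ (log n)^{3/4}) / log (21/20)⌉₊`. For large `n` the argument of the
ceiling is `≥ 0`, so `JN ≤ log (150/c₀ (log n)^{3/4})/log (21/20) + 1`, which is `O(log log n)`, hence
`JN + 1 ≤ (log n)^{1/8}` for large `n` (`Real.log` is `o` of every power: `isLittleO_log_rpow_atTop`
composed with `log n → ∞`), and `(21/20)^{JN} ≤ (21/20) * 150/c₀ (log n)^{3/4} ≤ 160/c₀ (log n)^{3/4}`.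
`num_kap`. `kap c₀ M n = (log n)^M exp (-(79/2000) c₀ (log n)^{1/4})`; with `s = (log n)^{1/4} → ∞`,
`√kap (log n)^2 = s^{2M+8} exp (-(79/4000) c₀ s) → 0`.
`num_kap_lower`: `kap ≥ exp (-(79/2000) c₀ (log n)^{1/4})` as `(log n)^M ≥ 1`;
`kap^J ≥ exp (-(79/2000) c₀ (log n)^{1/4} J) ≥ exp (-(log n)^{3/8}) ≥ exp (-log n) = 1/n` with
`J ≤ (log n)^{1/8}`, `c₀ ≤ 1`.
-/

open Finset

namespace RST.P

theorem numA_log : Filter.Tendsto (fun n : ℕ => Real.log (n : ℝ)) Filter.atTop Filter.atTop :=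
  Real.tendsto_log_atTop.comp tendsto_natCast_atTop_atTop

theorem numA_exp (k : ℕ) (b : ℝ) (hb : 0 < b) :
    Filter.Tendsto (fun s : ℝ => s ^ k * Real.exp (-(b * s))) Filter.atTop (nhds 0) := by
  have h1 : Filter.Tendsto (fun s : ℝ => b * s) Filter.atTop Filter.atTop :=
    Filter.tendsto_id.const_mul_atTop hb
  have h2 := (Real.tendsto_pow_mul_exp_neg_atTop_nhds_zero k).comp h1
  have h3 := h2.const_mul ((1 / b) ^ k)
  rw [mul_zero] at h3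
  refine h3.congr fun s => ?_
  simp only [Function.comp]
  rw [mul_pow, ← mul_assoc, ← mul_assoc, ← mul_pow, one_div, inv_mul_cancel₀ hb.ne', one_pow,
    one_mul]

theorem num_J (c₀ : ℝ) (hc : 0 < c₀) (hc1 : c₀ ≤ 1) : ∃ n₀ : ℕ, ∀ n : ℕ, n₀ ≤ n →
    (JN c₀ n : ℝ) + 1 ≤ (Real.log n) ^ (1 / 8 : ℝ) ∧
    (21 / 20 : ℝ) ^ JN c₀ n ≤ 160 / c₀ * (Real.log n) ^ (3 / 4 : ℝ) := by
  have hl : (0 : ℝ) < Real.log (21 / 20) := Real.log_pos (by norm_num)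
  have hlo : (fun L : ℝ => (Real.log (150 / c₀) + 3 / 4 * Real.log L) / Real.log (21 / 20) + 2)
      =o[Filter.atTop] (fun L : ℝ => L ^ (1 / 8 : ℝ)) := by
    have hinf : Filter.Tendsto (fun L : ℝ => ‖L ^ (1 / 8 : ℝ)‖) Filter.atTop Filter.atTop :=
      tendsto_norm_atTop_atTop.comp (tendsto_rpow_atTop (by norm_num))
    have hk : ∀ c : ℝ, (fun _ : ℝ => c) =o[Filter.atTop] (fun L : ℝ => L ^ (1 / 8 : ℝ)) :=
      fun c => Asymptotics.isLittleO_const_left.2 (Or.inr hinf)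
    have hlog : (fun L : ℝ => Real.log L) =o[Filter.atTop] (fun L : ℝ => L ^ (1 / 8 : ℝ)) :=
      isLittleO_log_rpow_atTop (by norm_num)
    have h1 := ((hk (Real.log (150 / c₀) / Real.log (21 / 20) + 2))).add
      (hlog.const_mul_left (3 / 4 / Real.log (21 / 20)))
    refine h1.congr_left fun L => ?_
    field_simp
    ring
  have hev : ∀ᶠ L : ℝ in Filter.atTop,
      (Real.log (150 / c₀) + 3 / 4 * Real.log L) / Real.log (21 / 20) + 2 ≤ L ^ (1 / 8 : ℝ) := by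
    filter_upwards [hlo.bound (c := 1) one_pos, Filter.eventually_ge_atTop (0 : ℝ)] with L h1 h2
    rw [one_mul] at h1
    have h3 : ‖L ^ (1 / 8 : ℝ)‖ = L ^ (1 / 8 : ℝ) :=
      Real.norm_of_nonneg (Real.rpow_nonneg h2 _)
    rw [h3] at h1
    exact (le_abs_self _).trans h1
  obtain ⟨n₀, hn₀⟩ := Filter.eventually_atTop.1
    (numA_log.eventually (hev.and (Filter.eventually_ge_atTop (1 : ℝ))))
  refine ⟨n₀, fun n hn => ?_⟩
  obtain ⟨h1, h2⟩ := hn₀ n hn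
  set L := Real.log (n : ℝ) with hL
  have hL0 : 0 < L := by linarith
  have hr1 : 1 ≤ L ^ (3 / 4 : ℝ) := Real.one_le_rpow h2 (by norm_num)
  have hB : 1 ≤ 150 / c₀ * L ^ (3 / 4 : ℝ) := by
    have : 1 ≤ 150 / c₀ := by
      rw [le_div_iff₀ hc]; linarith
    nlinarith
  have hlogB : Real.log (150 / c₀ * L ^ (3 / 4 : ℝ)) = Real.log (150 / c₀) + 3 / 4 * Real.log L := by
    rw [Real.log_mul (by positivity) (by positivity), Real.log_rpow hL0]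
  have ha : 0 ≤ Real.log (150 / c₀ * L ^ (3 / 4 : ℝ)) / Real.log (21 / 20) :=
    div_nonneg (Real.log_nonneg hB) hl.le
  have hJ : (JN c₀ n : ℝ) ≤ Real.log (150 / c₀ * L ^ (3 / 4 : ℝ)) / Real.log (21 / 20) + 1 := by
    unfold JN
    exact (Nat.ceil_lt_add_one ha).le
  constructor
  · rw [hlogB] at hJ
    linarith
  · have h3 : (21 / 20 : ℝ) ^ JN c₀ n = (21 / 20 : ℝ) ^ (JN c₀ n : ℝ) :=
      (Real.rpow_natCast _ _).symm
    rw [h3]
    have h4 : (21 / 20 : ℝ) ^ (JN c₀ n : ℝ) ≤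
        (21 / 20 : ℝ) ^ (Real.log (150 / c₀ * L ^ (3 / 4 : ℝ)) / Real.log (21 / 20) + 1) :=
      Real.rpow_le_rpow_of_exponent_le (by norm_num) hJ
    refine h4.trans ?_
    rw [Real.rpow_add (by norm_num), Real.rpow_one,
      Real.rpow_def_of_pos (by norm_num : (0 : ℝ) < 21 / 20), mul_div_cancel₀ _ hl.ne',
      Real.exp_log (by linarith)]
    have h5 : 150 / c₀ * L ^ (3 / 4 : ℝ) * (21 / 20) = (315 / 2) / c₀ * L ^ (3 / 4 : ℝ) := by
      ring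
    rw [h5]
    refine mul_le_mul_of_nonneg_right ?_ (by positivity)
    exact div_le_div_of_nonneg_right (by norm_num) hc.le

theorem num_kap (c₀ : ℝ) (hc : 0 < c₀) (M : ℕ) : ∃ n₀ : ℕ, ∀ n : ℕ, n₀ ≤ n →
    0 < kap c₀ M n ∧ kap c₀ M n ≤ 1 ∧
    Real.sqrt (kap c₀ M n) * (Real.log n) ^ 2 ≤ c₀ / 8000 := by
  have hs : Filter.Tendsto (fun n : ℕ => (Real.log (n : ℝ)) ^ (1 / 4 : ℝ)) Filter.atTop
      Filter.atTop := (tendsto_rpow_atTop (by norm_num)).comp numA_log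
  have hb : 0 < 79 / 2000 * c₀ := by positivity
  have h1 := (numA_exp (4 * M + 16) (79 / 2000 * c₀) hb).comp hs
  have h2 : ∀ᶠ n : ℕ in Filter.atTop, ((Real.log (n : ℝ)) ^ (1 / 4 : ℝ)) ^ (4 * M + 16) *
      Real.exp (-(79 / 2000 * c₀ * (Real.log (n : ℝ)) ^ (1 / 4 : ℝ))) < min 1 ((c₀ / 8000) ^ 2) :=
    h1.eventually_lt_const (by positivity)
  obtain ⟨n₀, hn₀⟩ := Filter.eventually_atTop.1
    (h2.and (numA_log.eventually (Filter.eventually_ge_atTop (1 : ℝ))))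
  refine ⟨n₀, fun n hn => ?_⟩
  obtain ⟨h3, h4⟩ := hn₀ n hn
  have hs4 : ((Real.log (n : ℝ)) ^ (1 / 4 : ℝ)) ^ (4 * M + 16) = (Real.log n) ^ M * (Real.log n) ^ 4 := by
    rw [← Real.rpow_natCast, ← Real.rpow_mul (by linarith), ← pow_add, ← Real.rpow_natCast]
    congr 1
    push_cast
    ring
  rw [hs4] at h3
  have h5 : (Real.log (n : ℝ)) ^ M * (Real.log n) ^ 4 *
      Real.exp (-(79 / 2000 * c₀ * (Real.log (n : ℝ)) ^ (1 / 4 : ℝ))) =
      kap c₀ M n * ((Real.log n) ^ 2) ^ 2 := by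
    unfold kap
    ring
  rw [h5] at h3
  have hk : 0 < kap c₀ M n := by
    unfold kap
    have : 0 < Real.log (n : ℝ) := by linarith
    positivity
  have h6 : 1 ≤ (Real.log (n : ℝ)) ^ 2 := one_le_pow₀ h4
  have h7 : 1 ≤ ((Real.log (n : ℝ)) ^ 2) ^ 2 := one_le_pow₀ h6
  refine ⟨hk, ?_, ?_⟩
  · have h8 : kap c₀ M n * 1 ≤ kap c₀ M n * ((Real.log n) ^ 2) ^ 2 :=
      mul_le_mul_of_nonneg_left h7 hk.le
    have h9 := lt_of_lt_of_le h3 (min_le_left _ _)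
    linarith
  · have h9 := lt_of_lt_of_le h3 (min_le_right _ _)
    have h10 : Real.sqrt (kap c₀ M n) * (Real.log n) ^ 2 =
        Real.sqrt (kap c₀ M n * ((Real.log n) ^ 2) ^ 2) := by
      rw [Real.sqrt_mul hk.le, Real.sqrt_sq (by positivity)]
    rw [h10]
    rw [Real.sqrt_le_left (by positivity)]
    exact h9.le

theorem num_kap_lower (c₀ : ℝ) (hc : 0 < c₀) (hc1 : c₀ ≤ 1) (M : ℕ) : ∃ n₀ : ℕ, ∀ n : ℕ, n₀ ≤ n →
    1 / (n : ℝ) ≤ kap c₀ M n ^ JN c₀ n := by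
  obtain ⟨n₁, hn₁⟩ := num_J c₀ hc hc1
  obtain ⟨n₂, hn₂⟩ := Filter.eventually_atTop.1
    (numA_log.eventually (Filter.eventually_ge_atTop (1 : ℝ)))
  refine ⟨max n₁ (max n₂ 1), fun n hn => ?_⟩
  have hJ := (hn₁ n ((le_max_left _ _).trans hn)).1
  have hL : 1 ≤ Real.log (n : ℝ) := hn₂ n ((le_max_left _ _).trans ((le_max_right _ _).trans hn))
  have hn1 : 1 ≤ n := (le_max_right _ _).trans ((le_max_right _ _).trans hn)
  have hn0 : (0 : ℝ) < n := by exact_mod_cast hn1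
  have hL0 : 0 < Real.log (n : ℝ) := by linarith
  have h1 : Real.exp (-(79 / 2000 * c₀ * (Real.log n) ^ (1 / 4 : ℝ))) ≤ kap c₀ M n := by
    unfold kap
    exact le_mul_of_one_le_left (Real.exp_pos _).le (one_le_pow₀ hL)
  have h2 := pow_le_pow_left₀ (Real.exp_pos _).le h1 (JN c₀ n)
  refine le_trans ?_ h2
  rw [← Real.exp_nat_mul, one_div, ← Real.exp_log hn0, ← Real.exp_neg, Real.exp_log hn0]
  apply Real.exp_le_exp.2
  have h3 : (JN c₀ n : ℝ) ≤ (Real.log n) ^ (1 / 8 : ℝ) := by linarith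
  have h4 : (JN c₀ n : ℝ) * (Real.log n) ^ (1 / 4 : ℝ) ≤ Real.log n := by
    calc (JN c₀ n : ℝ) * (Real.log n) ^ (1 / 4 : ℝ)
        ≤ (Real.log n) ^ (1 / 8 : ℝ) * (Real.log n) ^ (1 / 4 : ℝ) :=
          mul_le_mul_of_nonneg_right h3 (by positivity)
      _ = (Real.log n) ^ (3 / 8 : ℝ) := by
          rw [← Real.rpow_add hL0]; norm_num
      _ ≤ (Real.log n) ^ (1 : ℝ) := Real.rpow_le_rpow_of_exponent_le hL (by norm_num)
      _ = Real.log n := Real.rpow_one _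
  have h5 : 0 ≤ (JN c₀ n : ℝ) * (Real.log n) ^ (1 / 4 : ℝ) := by positivity
  have h6 : 79 / 2000 * c₀ * ((JN c₀ n : ℝ) * (Real.log n) ^ (1 / 4 : ℝ)) ≤
      1 * ((JN c₀ n : ℝ) * (Real.log n) ^ (1 / 4 : ℝ)) :=
    mul_le_mul_of_nonneg_right (by linarith) h5
  nlinarith [h6]

end RST.P
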